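import Mathlib

/-!
Computably enumerable relations presented with a primitive recursive witness relation:
closure properties, selection functions, and the description lemma.
-/

set_option linter.all false

namespace Pool.Agent.H.MP_95c08c_lc

open Nat.Partrec (Code)

/-- A relation is c.e. if it is the projection of a primitive recursive relation. -/
def CE {α : Type} [Primcodable α] (R : α → Prop) : Prop :=
  ∃ P : α × ℕ → Prop, PrimrecPred P ∧ ∀ a, R a ↔ ∃ n, P (a, n)

section basic

variable {α β γ σ : Type} [Primcodable α] [Primcodable β] [Primcodable γ] [Primcodable σ]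

theorem primrecPred_option {Q : α × β → Prop} (hQ : PrimrecPred Q) {f : α → Option β}
    (hf : Primrec f) : PrimrecPred (fun a => ∃ b, f a = some b ∧ Q (a, b)) := by
  classical
  have h1 : Primrec (fun a => (Option.casesOn (f a) false (fun b => decide (Q (a, b))) : Bool)) :=
    Primrec.option_casesOn hf (Primrec.const false) (Primrec.to₂ hQ.decide)
  refine ⟨Classical.decPred _, h1.of_eq fun a => ?_⟩
  cases h : f a with
  | none => simp [h]
  | some b => simp [h]

theorem primrec_count {P : α × ℕ → Prop} (hP : PrimrecPred P)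
    [∀ a, DecidablePred fun n => P (a, n)] :
    Primrec fun x : α × ℕ => Nat.count (fun n => P (x.1, n)) x.2 := by
  classical
  have h1 : Primrec₂ (fun (x : α × ℕ) (y : ℕ × ℕ) => y.2 + if P (x.1, y.1) then 1 else 0) := by
    have h2 : PrimrecPred (fun z : (α × ℕ) × (ℕ × ℕ) => P (z.1.1, z.2.1)) :=
      hP.comp ((Primrec.fst.comp Primrec.fst).pair (Primrec.fst.comp Primrec.snd))
    exact Primrec.to₂ (Primrec.nat_add.comp (Primrec.snd.comp Primrec.snd)
      (Primrec.ite h2 (Primrec.const 1) (Primrec.const 0)))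
  have h3 := Primrec.nat_rec' (f := fun x : α × ℕ => x.2) (g := fun _ => 0) Primrec.snd
    (Primrec.const 0) h1
  refine h3.of_eq fun x => ?_
  obtain ⟨a, N⟩ := x
  show Nat.rec (motive := fun _ => ℕ) 0
    (fun n IH => IH + if P (a, n) then 1 else 0) N = Nat.count (fun n => P (a, n)) N
  induction N with
  | zero => simp
  | succ n ih =>
    rw [Nat.count_succ, ← ih]

theorem primrecPred_exists_lt {P : α × ℕ → Prop} (hP : PrimrecPred P) :
    PrimrecPred fun x : α × ℕ => ∃ n < x.2, P (x.1, n) := by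
  classical
  have h := primrec_count hP
  have h2 : PrimrecPred fun x : α × ℕ => ¬ (Nat.count (fun n => P (x.1, n)) x.2 = 0) :=
    (Primrec.eq.comp h (Primrec.const 0)).not
  refine h2.of_eq fun x => ?_
  exact Nat.count_ne_iff_exists

theorem CE.of_eq {R S : α → Prop} (h : CE R) (e : ∀ a, R a ↔ S a) : CE S := by
  obtain ⟨P, hP, hR⟩ := h
  exact ⟨P, hP, fun a => (e a).symm.trans (hR a)⟩

theorem CE.of_primrec {R : α → Prop} (h : PrimrecPred R) : CE R :=
  ⟨fun x => R x.1, h.comp Primrec.fst, fun a => ⟨fun h => ⟨0, h⟩, fun ⟨_, h⟩ => h⟩⟩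

theorem CE.comp {R : β → Prop} (h : CE R) {f : α → β} (hf : Primrec f) :
    CE (fun a => R (f a)) := by
  obtain ⟨P, hP, hR⟩ := h
  refine ⟨fun x => P (f x.1, x.2), hP.comp ((hf.comp Primrec.fst).pair Primrec.snd),
    fun a => hR (f a)⟩

theorem CE.and {R S : α → Prop} (hR : CE R) (hS : CE S) : CE (fun a => R a ∧ S a) := by
  obtain ⟨P, hP, hR⟩ := hR
  obtain ⟨Q, hQ, hS⟩ := hS
  refine ⟨fun x => P (x.1, x.2.unpair.1) ∧ Q (x.1, x.2.unpair.2), ?_, ?_⟩
  · exact (hP.comp (Primrec.fst.pair (Primrec.fst.comp (Primrec.unpair.comp Primrec.snd)))).and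
      (hQ.comp (Primrec.fst.pair (Primrec.snd.comp (Primrec.unpair.comp Primrec.snd))))
  · intro a
    show (R a ∧ S a) ↔ _
    rw [hR a, hS a]
    constructor
    · rintro ⟨⟨n, hn⟩, ⟨m, hm⟩⟩
      exact ⟨Nat.pair n m, by simpa using ⟨hn, hm⟩⟩
    · rintro ⟨n, h1, h2⟩
      exact ⟨⟨_, h1⟩, ⟨_, h2⟩⟩

/-- Existential quantification over a coded type. -/
theorem CE.exists {R : α × β → Prop} (h : CE R) : CE (fun a => ∃ b, R (a, b)) := by
  obtain ⟨P, hP, hR⟩ := h
  refine ⟨fun x => ∃ b : β, Encodable.decode (α := β) x.2.unpair.1 = some b ∧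
      P ((x.1, b), x.2.unpair.2), ?_, ?_⟩
  · have hQ : PrimrecPred fun z : (α × ℕ) × β => P ((z.1.1, z.2), z.1.2.unpair.2) :=
      hP.comp (((Primrec.fst.comp Primrec.fst).pair Primrec.snd).pair
        (Primrec.snd.comp (Primrec.unpair.comp (Primrec.snd.comp Primrec.fst))))
    exact primrecPred_option hQ
      (f := fun x : α × ℕ => Encodable.decode (α := β) x.2.unpair.1)
      (Primrec.decode.comp (Primrec.fst.comp (Primrec.unpair.comp Primrec.snd)))
  · intro a
    constructor
    · rintro ⟨b, hb⟩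
      obtain ⟨n, hn⟩ := (hR _).1 hb
      exact ⟨Nat.pair (Encodable.encode b) n, b, by simp, by simpa using hn⟩
    · rintro ⟨n, b, -, hb⟩
      exact ⟨b, (hR _).2 ⟨_, hb⟩⟩

/-- The graph of a partial recursive function is c.e. -/
theorem CE.graph {f : α →. β} (hf : Partrec f) : CE (fun x : α × β => x.2 ∈ f x.1) := by
  obtain ⟨c, hc⟩ := Nat.Partrec.Code.exists_code.1 hf
  refine ⟨fun x => Nat.Partrec.Code.evaln x.2 c (Encodable.encode x.1.1) =
    some (Encodable.encode x.1.2), ?_, ?_⟩
  · refine Primrec.eq.comp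
      (f := fun x : (α × β) × ℕ => Nat.Partrec.Code.evaln x.2 c (Encodable.encode x.1.1))
      (g := fun x => some (Encodable.encode x.1.2)) ?_ ?_
    · exact Nat.Partrec.Code.primrec_evaln.comp
        ((Primrec.snd.pair (Primrec.const c)).pair
          (Primrec.encode.comp (Primrec.fst.comp Primrec.fst)))
    · exact Primrec.option_some.comp (Primrec.encode.comp (Primrec.snd.comp Primrec.fst))
  · rintro ⟨a, b⟩
    have h1 : (b ∈ f a) ↔ Encodable.encode b ∈ Nat.Partrec.Code.eval c (Encodable.encode a) := by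
      rw [hc]
      simp only [Encodable.encodek, Part.coe_some, Part.bind_some, Part.mem_map_iff]
      constructor
      · intro h
        exact ⟨b, h, rfl⟩
      · rintro ⟨b', h, e⟩
        exact (Encodable.encode_injective e) ▸ h
    show b ∈ f a ↔ _
    rw [h1, Nat.Partrec.Code.evaln_complete]
    rfl

/-- Uniformization: a c.e. relation contains the graph of a partial recursive function with the
same domain. -/
theorem CE.uniformize {R : α × β → Prop} (h : CE R) :
    ∃ g : α →. β, Partrec g ∧ (∀ a b, b ∈ g a → R (a, b)) ∧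
      (∀ a, (∃ b, R (a, b)) → (g a).Dom) := by
  classical
  obtain ⟨P, hP, hR⟩ := h
  let F : α → ℕ → Option β := fun a m =>
    (Encodable.decode (α := β) m.unpair.1).bind fun b =>
      if P ((a, b), m.unpair.2) then some b else none
  have hF : Primrec₂ F := by
    refine Primrec.to₂ (Primrec.option_bind
      (f := fun x : α × ℕ => Encodable.decode (α := β) x.2.unpair.1)
      (g := fun (x : α × ℕ) (b : β) => if P ((x.1, b), x.2.unpair.2) then some b else none)
      (Primrec.decode.comp (Primrec.fst.comp (Primrec.unpair.comp Primrec.snd))) ?_)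
    have hQ : PrimrecPred fun z : (α × ℕ) × β => P ((z.1.1, z.2), z.1.2.unpair.2) :=
      hP.comp (((Primrec.fst.comp Primrec.fst).pair Primrec.snd).pair
        (Primrec.snd.comp (Primrec.unpair.comp (Primrec.snd.comp Primrec.fst))))
    exact Primrec.to₂ (Primrec.ite hQ (Primrec.option_some.comp Primrec.snd)
      (Primrec.const none))
  have key : ∀ a b m, b ∈ F a m → R (a, b) := by
    intro a b m hb
    simp only [F, Option.mem_def, Option.bind_eq_some_iff] at hb
    obtain ⟨b', h1, h2⟩ := hb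
    split_ifs at h2 with h3
    · have : b' = b := by simpa using h2
      subst this
      exact (hR _).2 ⟨_, h3⟩
  refine ⟨fun a => Nat.rfindOpt (F a), Partrec.rfindOpt (Primrec.to_comp hF), ?_, ?_⟩
  · intro a b hb
    obtain ⟨m, hm⟩ := Nat.rfindOpt_spec hb
    exact key a b m hm
  · rintro a ⟨b, hb⟩
    obtain ⟨n, hn⟩ := (hR _).1 hb
    refine Nat.rfindOpt_dom.2 ⟨Nat.pair (Encodable.encode b) n, b, ?_⟩
    simp [F, hn]

theorem CE.unique_witness {R : α → Prop} (h : CE R) :
    ∃ P : α × ℕ → Prop, PrimrecPred P ∧ (∀ a, R a ↔ ∃ n, P (a, n)) ∧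
      (∀ a n m, P (a, n) → P (a, m) → n = m) := by
  classical
  obtain ⟨P, hP, hR⟩ := h
  refine ⟨fun x => P x ∧ ¬ ∃ n < x.2, P (x.1, n), ?_, ?_, ?_⟩
  · exact hP.and (primrecPred_exists_lt hP).not
  · intro a
    rw [hR a]
    constructor
    · intro h
      refine ⟨Nat.find h, Nat.find_spec h, ?_⟩
      rintro ⟨n, hn, h'⟩
      exact Nat.find_min h hn h'
    · rintro ⟨n, hn, -⟩
      exact ⟨n, hn⟩
  · intro a n m ⟨hn, hn'⟩ ⟨hm, hm'⟩
    rcases lt_trichotomy n m with h | h | h
    · exact absurd ⟨n, h, hn⟩ hm'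
    · exact h
    · exact absurd ⟨m, h, hm⟩ hn'

/-- The description lemma: the sections of a c.e. relation can be uniformly enumerated without
repetitions, in such a way that the elements of a section with at most `N` elements get
indices below `N`. -/
theorem CE.enum {R : α × β → Prop} (h : CE R) :
    ∃ G : (α × ℕ) × β → Prop, CE G ∧
      (∀ a j b b', G ((a, j), b) → G ((a, j), b') → b = b') ∧
      (∀ a j b, G ((a, j), b) → R (a, b)) ∧
      (∀ a b N, R (a, b) → (∀ F : Finset β, (∀ x ∈ F, R (a, x)) → F.card ≤ N) →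
        ∃ j < N, G ((a, j), b)) := by
  classical
  obtain ⟨P, hP, hR, hU⟩ := h.unique_witness
  let T : α × ℕ → Prop := fun x => ∃ b : β, Encodable.decode₂ β x.2.unpair.1 = some b ∧
      P ((x.1, b), x.2.unpair.2)
  have hT : PrimrecPred T := by
    have hQ : PrimrecPred fun z : (α × ℕ) × β => P ((z.1.1, z.2), z.1.2.unpair.2) :=
      hP.comp (((Primrec.fst.comp Primrec.fst).pair Primrec.snd).pair
        (Primrec.snd.comp (Primrec.unpair.comp (Primrec.snd.comp Primrec.fst))))
    exact primrecPred_option hQ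
      (f := fun x : α × ℕ => Encodable.decode₂ β x.2.unpair.1)
      (Primrec.decode₂.comp (Primrec.fst.comp (Primrec.unpair.comp Primrec.snd)))
  have hTpair : ∀ a b n, P ((a, b), n) → T (a, Nat.pair (Encodable.encode b) n) := by
    intro a b n h
    exact ⟨b, by simp, by simpa using h⟩
  have hTm : ∀ a m, T (a, m) → ∃ b n, m = Nat.pair (Encodable.encode b) n ∧ P ((a, b), n) := by
    rintro a m ⟨b, hb, h⟩
    refine ⟨b, m.unpair.2, ?_, h⟩
    rw [Encodable.decode₂_eq_some] at hb
    simp only at hb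
    rw [hb, Nat.pair_unpair]
  refine ⟨fun x => ∃ n, P ((x.1.1, x.2), n) ∧
    Nat.count (fun m => T (x.1.1, m)) (Nat.pair (Encodable.encode x.2) n) = x.1.2, ?_, ?_, ?_, ?_⟩
  · refine ⟨fun y => P ((y.1.1.1, y.1.2), y.2) ∧
      Nat.count (fun m => T (y.1.1.1, m)) (Nat.pair (Encodable.encode y.1.2) y.2) = y.1.1.2,
      ?_, fun a => Iff.rfl⟩
    refine PrimrecPred.and ?_ ?_
    · exact hP.comp (((Primrec.fst.comp (Primrec.fst.comp Primrec.fst)).pair
        (Primrec.snd.comp Primrec.fst)).pair Primrec.snd)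
    · refine Primrec.eq.comp ?_ (Primrec.snd.comp (Primrec.fst.comp Primrec.fst))
      exact (primrec_count hT).comp ((Primrec.fst.comp (Primrec.fst.comp Primrec.fst)).pair
        (Primrec₂.natPair.comp (Primrec.encode.comp (Primrec.snd.comp Primrec.fst)) Primrec.snd))
  · rintro a j b b' ⟨n, h1, h2⟩ ⟨n', h1', h2'⟩
    simp only at h1 h2 h1' h2'
    have := Nat.count_injective (hTpair _ _ _ h1) (hTpair _ _ _ h1') (h2.trans h2'.symm)
    exact Encodable.encode_injective (Nat.pair_eq_pair.1 this).1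
  · rintro a j b ⟨n, h1, -⟩
    exact (hR _).2 ⟨n, h1⟩
  · intro a b N hab hN
    obtain ⟨n, hn⟩ := (hR _).1 hab
    set m := Nat.pair (Encodable.encode b) n with hm
    refine ⟨Nat.count (fun m => T (a, m)) m, ?_, n, hn, rfl⟩
    let φ : ℕ → β := fun k => (Encodable.decode₂ β k.unpair.1).getD b
    have hφ : ∀ b n, φ (Nat.pair (Encodable.encode b) n) = b := by
      intro b n
      simp [φ]
    let F := ((Finset.range (m + 1)).filter (fun k => T (a, k))).image φ
    have hF : F.card = Nat.count (fun m => T (a, m)) (m + 1) := by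
      rw [Nat.count_eq_card_filter_range]
      apply Finset.card_image_of_injOn
      intro k hk k' hk' e
      simp only [Finset.coe_filter, Set.mem_ofPred_eq] at hk hk'
      obtain ⟨c, i, rfl, h1⟩ := hTm _ _ hk.2
      obtain ⟨c', i', rfl, h1'⟩ := hTm _ _ hk'.2
      simp only [hφ] at e
      subst e
      rw [hU _ _ _ h1 h1']
    have h1 : F.card ≤ N := by
      apply hN
      intro x hx
      simp only [F, Finset.mem_image, Finset.mem_filter] at hx
      obtain ⟨k, ⟨-, hk⟩, rfl⟩ := hx
      obtain ⟨c, i, rfl, h1⟩ := hTm _ _ hk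
      rw [hφ]
      exact (hR _).2 ⟨_, h1⟩
    rw [hF, Nat.count_succ, if_pos (hTpair _ _ _ hn)] at h1
    omega

/-- The relation saying that at least `M` of the numbers below `N` satisfy `R` is c.e. -/
theorem CE.count_ge {R : α × ℕ → Prop} (h : CE R) [∀ a, DecidablePred fun n => R (a, n)] :
    CE (fun x : α × ℕ × ℕ => x.2.2 ≤ Nat.count (fun n => R (x.1, n)) x.2.1) := by
  classical
  obtain ⟨P, hP, hR⟩ := h
  let Q : (α × ℕ) × ℕ → Prop := fun z => ∃ s < z.1.2, P ((z.1.1, z.2), s)
  have hQ : PrimrecPred Q := by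
    have h1 : PrimrecPred fun x : (α × ℕ) × ℕ => ∃ s < x.2, P (x.1, s) :=
      primrecPred_exists_lt hP
    exact h1.comp (f := fun z : (α × ℕ) × ℕ => ((z.1.1, z.2), z.1.2))
      (((Primrec.fst.comp Primrec.fst).pair Primrec.snd).pair (Primrec.snd.comp Primrec.fst))
  refine ⟨fun y => y.1.2.2 ≤ Nat.count (fun n => Q ((y.1.1, y.2), n)) y.1.2.1, ?_, ?_⟩
  · refine Primrec.nat_le.comp (Primrec.snd.comp (Primrec.snd.comp Primrec.fst)) ?_
    exact (primrec_count hQ).comp (((Primrec.fst.comp Primrec.fst).pair Primrec.snd).pair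
      (Primrec.fst.comp (Primrec.snd.comp Primrec.fst)))
  · rintro ⟨a, N, M⟩
    show M ≤ Nat.count (fun n => R (a, n)) N ↔
      ∃ s, M ≤ Nat.count (fun n => Q ((a, s), n)) N
    constructor
    · intro hM
      have : ∀ n, ∃ s, R (a, n) → P ((a, n), s) := by
        intro n
        by_cases h : R (a, n)
        · obtain ⟨s, hs⟩ := (hR _).1 h
          exact ⟨s, fun _ => hs⟩
        · exact ⟨0, fun h' => absurd h' h⟩
      choose s hs using this
      refine ⟨(Finset.range N).sup s + 1, hM.trans ?_⟩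
      refine Nat.count_mono_left fun k hk hRk => ?_
      refine ⟨s k, ?_, hs k hRk⟩
      exact Nat.lt_succ_of_le (Finset.le_sup (f := s) (Finset.mem_range.2 hk))
    · rintro ⟨s, hs⟩
      refine hs.trans ?_
      refine Nat.count_mono_left fun k hk hQk => ?_
      obtain ⟨t, -, ht⟩ := hQk
      exact (hR _).2 ⟨_, ht⟩

end basic

end Pool.Agent.H.MP_95c08c_lc
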