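import Mathlib

/-!
Prefix-free Kolmogorov complexity relative to an oracle, K-trivial sets, K-triviality relative to
an oracle, and almost complete sets.
-/

set_option linter.all false

namespace Pool.Agent.H.MP_95c08c_lc

open Nat.Partrec (Code)

/-- A set of natural numbers is given by its characteristic sequence `X : ℕ → Bool`. This is the
characteristic function of the set as an oracle. -/
def orc (X : ℕ → Bool) : ℕ →. ℕ := fun n => Part.some (X n).toNat

/-- The halting problem `∅' = {e : φ_e(e) converges}`. -/
noncomputable def halt : ℕ → Bool := fun e =>
  @decide ((Code.eval (Denumerable.ofNat Code e) e).Dom) (Classical.propDecidable _)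

/-- The string `X ↾ n` of the first `n` bits of `X`. -/
def pre (X : ℕ → Bool) (n : ℕ) : List Bool := (List.range n).map X

/-- The `n`-th binary string in the length-lexicographic order: the binary expansion of `n + 1`
without its leading digit. It represents the number `n`. -/
def natStr (n : ℕ) : List Bool := (Nat.bits (n + 1)).reverse.tail

/-- A machine is a partial function from finite binary strings to finite binary strings. -/
abbrev Machine := List Bool →. List Bool

/-- No program in the domain of the machine is a proper prefix of another one. -/
def IsPrefixFree (M : Machine) : Prop :=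
  ∀ p q, (M p).Dom → (M q).Dom → p <+: q → p = q

/-- An optimal (universal) prefix-free machine relative to the oracles in `O`: it is partial
recursive in `O`, prefix-free, and simulates every prefix-free machine which is partial recursive
in `O` with programs that are longer by at most a constant. -/
def Optimal (O : Set (ℕ →. ℕ)) (V : Machine) : Prop :=
  RecursiveIn O V ∧ IsPrefixFree V ∧ ∀ N : Machine, RecursiveIn O N → IsPrefixFree N →
    ∃ c : ℕ, ∀ p x, x ∈ N p → ∃ q, x ∈ V q ∧ q.length ≤ p.length + c

/-- The complexity of a string with respect to a machine: the length of a shortest program. -/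
noncomputable def complexity (M : Machine) (x : List Bool) : ℕ :=
  sInf {k | ∃ p, x ∈ M p ∧ p.length = k}

/-- `A` is K-trivial relative to the oracles in `O`: with `K` the prefix-free complexity relative
to `O` (that is, with respect to any optimal prefix-free machine relative to `O`; such machines
exist), there is a constant `c` with `K (A ↾ n) ≤ K (n) + c` for all `n`. -/
def KTrivialRel (O : Set (ℕ →. ℕ)) (A : ℕ → Bool) : Prop :=
  (∃ V, Optimal O V) ∧ ∀ V, Optimal O V →
    ∃ c : ℕ, ∀ n, complexity V (pre A n) ≤ complexity V (natStr n) + c

/-- `A` is K-trivial. -/
def KTrivial (A : ℕ → Bool) : Prop := KTrivialRel ∅ A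

/-- `B` is almost complete: the halting problem is K-trivial relative to `B`. -/
def AlmostComplete (B : ℕ → Bool) : Prop := KTrivialRel {orc B} halt

/-- `B` is `Δ⁰₂`: it is computable from the halting problem. -/
def IsDeltaTwo (B : ℕ → Bool) : Prop := TuringReducible (orc B) (orc halt)

end Pool.Agent.H.MP_95c08c_lc
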