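import Mathlib
import Pool.Agent.H.MP_95c08c_lc.Defs
import Pool.Agent.H.MP_95c08c_lc.CE

/-!
Normal form for computations with an oracle.
-/

set_option linter.all false

namespace Pool.Agent.H.MP_95c08c_lc

open Nat.Partrec (Code)

section pre

variable (X : ℕ → Bool)

@[simp] theorem pre_length (n : ℕ) : (pre X n).length = n := by simp [pre]

theorem pre_succ (n : ℕ) : pre X (n + 1) = pre X n ++ [X n] := by
  simp [pre, List.range_succ]

theorem pre_take (m n : ℕ) : (pre X n).take m = pre X (min m n) := by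
  simp [pre, ← List.map_take, List.take_range]

theorem pre_prefix {m n : ℕ} (h : m ≤ n) : pre X m <+: pre X n := by
  have := pre_take X m n
  rw [min_eq_left h] at this
  rw [← this]
  exact List.take_prefix _ _

theorem pre_getElem? (n i : ℕ) : (pre X n)[i]? = if i < n then some (X i) else none := by
  unfold pre
  by_cases h : i < n
  · simp [h, List.getElem?_range h]
  · simp [h]

theorem prefix_pre {σ : List Bool} {n : ℕ} (h : σ <+: pre X n) : σ = pre X σ.length := by
  have h1 := List.prefix_iff_eq_take.1 h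
  have h2 : σ.length ≤ n := by simpa using h.length_le
  rw [pre_take, min_eq_left h2] at h1
  exact h1

end pre

/-- The continuity statement: `F` computes `f` from finite initial segments of `X`. -/
def Approx (X : ℕ → Bool) (f : ℕ →. ℕ) (F : List Bool × ℕ →. ℕ) : Prop :=
  Partrec F ∧ (∀ σ τ x y, σ <+: τ → y ∈ F (σ, x) → y ∈ F (τ, x)) ∧
    ∀ x y, y ∈ f x ↔ ∃ k, y ∈ F (pre X k, x)

theorem Approx.mono_pre {X : ℕ → Bool} {f : ℕ →. ℕ} {F : List Bool × ℕ →. ℕ}
    (h : Approx X f F) {k l x y : ℕ} (hkl : k ≤ l) (hy : y ∈ F (pre X k, x)) :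
    y ∈ F (pre X l, x) :=
  h.2.1 _ _ _ _ (pre_prefix X hkl) hy

theorem normal_form_nat {X : ℕ → Bool} {f : ℕ →. ℕ} (hf : Nat.RecursiveIn {orc X} f) :
    ∃ F, Approx X f F := by
  induction hf with
  | zero =>
    refine ⟨fun p => Part.some 0, (Computable.const 0).partrec, fun _ _ _ _ _ h => h, ?_⟩
    intro x y
    exact ⟨fun h => ⟨0, h⟩, fun ⟨_, h⟩ => h⟩
  | succ =>
    refine ⟨fun p => Part.some (p.2 + 1), (Computable.succ.comp Computable.snd).partrec,
      fun _ _ _ _ _ h => h, ?_⟩
    intro x y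
    exact ⟨fun h => ⟨0, h⟩, fun ⟨_, h⟩ => h⟩
  | left =>
    refine ⟨fun p => Part.some p.2.unpair.1,
      (Computable.fst.comp (Computable.unpair.comp Computable.snd)).partrec,
      fun _ _ _ _ _ h => h, ?_⟩
    intro x y
    exact ⟨fun h => ⟨0, h⟩, fun ⟨_, h⟩ => h⟩
  | right =>
    refine ⟨fun p => Part.some p.2.unpair.2,
      (Computable.snd.comp (Computable.unpair.comp Computable.snd)).partrec,
      fun _ _ _ _ _ h => h, ?_⟩
    intro x y
    exact ⟨fun h => ⟨0, h⟩, fun ⟨_, h⟩ => h⟩
  | oracle g hg =>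
    rw [Set.mem_singleton_iff] at hg
    subst hg
    refine ⟨fun p => ((p.1[p.2]?).map Bool.toNat : Option ℕ), ?_, ?_, ?_⟩
    · refine Computable.ofOption ?_
      refine Computable.option_map (Computable.list_getElem?.comp Computable.fst Computable.snd) ?_
      exact ((Primrec.dom_bool Bool.toNat).to_comp.comp Computable.snd).to₂
    · rintro σ τ x y ⟨ρ, rfl⟩ h
      simp only [Part.mem_coe, Option.mem_def, Option.map_eq_some_iff] at h ⊢
      obtain ⟨b, hb, rfl⟩ := h
      refine ⟨b, ?_, rfl⟩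
      rw [List.getElem?_append_left]
      · exact hb
      · rw [List.getElem?_eq_some_iff] at hb
        exact hb.1
    · intro x y
      simp only [orc, Part.mem_some_iff, Part.mem_coe, Option.mem_def, Option.map_eq_some_iff,
        pre_getElem?]
      constructor
      · rintro rfl
        exact ⟨x + 1, X x, by simp, rfl⟩
      · rintro ⟨k, b, hb, rfl⟩
        split_ifs at hb
        rw [Option.some.inj hb]
  | pair hf hh ihf ihh =>
    rename_i f h
    obtain ⟨F, hF⟩ := ihf
    obtain ⟨H, hH⟩ := ihh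
    refine ⟨fun p => (F p).bind fun a => (H p).map fun b => Nat.pair a b, ?_, ?_, ?_⟩
    · refine hF.1.bind ?_
      have h1 : Partrec fun q : (List Bool × ℕ) × ℕ => (H q.1).map fun b => Nat.pair q.2 b := by
        refine (hH.1.comp Computable.fst).map ?_
        exact (Primrec₂.natPair.to_comp.comp (Computable.snd.comp Computable.fst)
          Computable.snd).to₂
      exact h1
    · intro σ τ x y hst hy
      simp only [Part.mem_bind_iff, Part.mem_map_iff] at hy ⊢
      obtain ⟨a, ha, b, hb, rfl⟩ := hy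
      exact ⟨a, hF.2.1 _ _ _ _ hst ha, b, hH.2.1 _ _ _ _ hst hb, rfl⟩
    · intro x y
      have e : (Nat.pair <$> f x <*> h x) = (f x).bind fun a => (h x).map fun b => Nat.pair a b := by
        simp [Seq.seq, Part.bind_map]
      change y ∈ (Nat.pair <$> f x <*> h x) ↔ ∃ k, y ∈ (F (pre X k, x)).bind fun a =>
        (H (pre X k, x)).map fun b => Nat.pair a b
      rw [e]
      simp only [Part.mem_bind_iff, Part.mem_map_iff]
      constructor
      · rintro ⟨a, ha, b, hb, rfl⟩
        obtain ⟨k, hk⟩ := (hF.2.2 _ _).1 ha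
        obtain ⟨l, hl⟩ := (hH.2.2 _ _).1 hb
        exact ⟨max k l, a, hF.mono_pre (le_max_left _ _) hk, b,
          hH.mono_pre (le_max_right _ _) hl, rfl⟩
      · rintro ⟨k, a, ha, b, hb, rfl⟩
        exact ⟨a, (hF.2.2 _ _).2 ⟨k, ha⟩, b, (hH.2.2 _ _).2 ⟨k, hb⟩, rfl⟩
  | comp hf hh ihf ihh =>
    rename_i f h
    obtain ⟨F, hF⟩ := ihf
    obtain ⟨H, hH⟩ := ihh
    refine ⟨fun p => (H p).bind fun a => F (p.1, a), ?_, ?_, ?_⟩
    · refine hH.1.bind ?_
      exact Partrec.to₂ (hF.1.comp ((Computable.fst.comp Computable.fst).pair Computable.snd))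
    · intro σ τ x y hst hy
      simp only [Part.mem_bind_iff] at hy ⊢
      obtain ⟨a, ha, hb⟩ := hy
      exact ⟨a, hH.2.1 _ _ _ _ hst ha, hF.2.1 _ _ _ _ hst hb⟩
    · intro x y
      change y ∈ (h x).bind (fun a => f a) ↔
        ∃ k, y ∈ (H (pre X k, x)).bind fun a => F (pre X k, a)
      simp only [Part.mem_bind_iff]
      constructor
      · rintro ⟨a, ha, hb⟩
        obtain ⟨k, hk⟩ := (hH.2.2 _ _).1 ha
        obtain ⟨l, hl⟩ := (hF.2.2 _ _).1 hb
        exact ⟨max k l, a, hH.mono_pre (le_max_left _ _) hk,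
          hF.mono_pre (le_max_right _ _) hl⟩
      · rintro ⟨k, a, ha, hb⟩
        exact ⟨a, (hH.2.2 _ _).2 ⟨k, ha⟩, (hF.2.2 _ _).2 ⟨k, hb⟩⟩
  | prec hf hh ihf ihh =>
    rename_i f h
    obtain ⟨F, hF⟩ := ihf
    obtain ⟨H, hH⟩ := ihh
    let G : List Bool → ℕ → ℕ → Part ℕ := fun σ a n =>
      n.rec (F (σ, a)) (fun y IH => IH.bind fun i => H (σ, Nat.pair a (Nat.pair y i)))
    have hG0 : ∀ σ a, G σ a 0 = F (σ, a) := fun _ _ => rfl
    have hGs : ∀ σ a n, G σ a (n + 1) =
        (G σ a n).bind fun i => H (σ, Nat.pair a (Nat.pair n i)) := fun _ _ _ => rfl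
    have hGm : ∀ σ τ a, σ <+: τ → ∀ n y, y ∈ G σ a n → y ∈ G τ a n := by
      intro σ τ a hst n
      induction n with
      | zero => intro y hy; exact hF.2.1 _ _ _ _ hst hy
      | succ n ih =>
        intro y hy
        rw [hGs, Part.mem_bind_iff] at hy ⊢
        obtain ⟨i, hi, hy⟩ := hy
        exact ⟨i, ih _ hi, hH.2.1 _ _ _ _ hst hy⟩
    refine ⟨fun p => G p.1 p.2.unpair.1 p.2.unpair.2, ?_, ?_, ?_⟩
    · refine (Partrec.nat_rec (α := List Bool × ℕ) (σ := ℕ) (f := fun p => p.2.unpair.2)
        (g := fun p => F (p.1, p.2.unpair.1))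
        (h := fun p z => H (p.1, Nat.pair p.2.unpair.1 (Nat.pair z.1 z.2)))
        (Computable.snd.comp (Computable.unpair.comp Computable.snd))
        (hF.1.comp (Computable.fst.pair (Computable.fst.comp
          (Computable.unpair.comp Computable.snd)))) ?_).of_eq fun p => rfl
      have h1 : Partrec fun q : (List Bool × ℕ) × (ℕ × ℕ) =>
          H (q.1.1, Nat.pair q.1.2.unpair.1 (Nat.pair q.2.1 q.2.2)) := by
        refine hH.1.comp ?_
        refine (Computable.fst.comp Computable.fst).pair ?_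
        refine Primrec₂.natPair.to_comp.comp (Computable.fst.comp (Computable.unpair.comp
          (Computable.snd.comp Computable.fst))) ?_
        exact Primrec₂.natPair.to_comp.comp (Computable.fst.comp Computable.snd)
          (Computable.snd.comp Computable.snd)
      exact h1
    · intro σ τ x y hst hy
      exact hGm _ _ _ hst _ _ hy
    · intro x y
      set a := x.unpair.1
      have key : ∀ n y, (y ∈ (n.rec (f a) (fun y IH => IH >>= fun i =>
          h (Nat.pair a (Nat.pair y i))) : Part ℕ)) ↔ ∃ k, y ∈ G (pre X k) a n := by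
        intro n
        induction n with
        | zero => intro y; exact hF.2.2 _ _
        | succ n ih =>
          intro y
          have e : (Nat.rec (f a) (fun y IH => IH >>= fun i =>
            h (Nat.pair a (Nat.pair y i))) (n + 1) : Part ℕ) =
            (Nat.rec (f a) (fun y IH => IH >>= fun i =>
            h (Nat.pair a (Nat.pair y i))) n : Part ℕ).bind fun i =>
              h (Nat.pair a (Nat.pair n i)) := rfl
          rw [e, Part.mem_bind_iff]
          constructor
          · rintro ⟨i, hi, hy⟩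
            obtain ⟨k, hk⟩ := (ih _).1 hi
            obtain ⟨l, hl⟩ := (hH.2.2 _ _).1 hy
            refine ⟨max k l, ?_⟩
            rw [hGs, Part.mem_bind_iff]
            exact ⟨i, hGm _ _ _ (pre_prefix X (le_max_left _ _)) _ _ hk,
              hH.mono_pre (le_max_right _ _) hl⟩
          · rintro ⟨k, hk⟩
            rw [hGs, Part.mem_bind_iff] at hk
            obtain ⟨i, hi, hy⟩ := hk
            exact ⟨i, (ih _).2 ⟨k, hi⟩, (hH.2.2 _ _).2 ⟨k, hy⟩⟩
      exact key x.unpair.2 y
  | rfind hf ihf =>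
    rename_i f
    obtain ⟨F, hF⟩ := ihf
    have key : ∀ (G : ℕ → Part ℕ) (y : ℕ), (y ∈ Nat.rfind fun n => (G n).map fun m => decide (m = 0)) ↔
        (∃ z ∈ G y, decide (z = 0) = true) ∧ ∀ m, m < y → ∃ z ∈ G m, decide (z = 0) = false := by
      intro G y
      refine (Nat.mem_rfind (p := fun n => (G n).map fun m => decide (m = 0))).trans ?_
      constructor
      · rintro ⟨h1, h2⟩
        refine ⟨?_, fun m hm => ?_⟩
        · simpa [Part.mem_map_iff] using h1
        · have := h2 hm
          simpa [Part.mem_map_iff] using this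
      · rintro ⟨h1, h2⟩
        refine ⟨?_, fun {m} hm => ?_⟩
        · simpa [Part.mem_map_iff] using h1
        · have := h2 m hm
          simpa [Part.mem_map_iff] using this
    refine ⟨fun p => Nat.rfind fun n => (F (p.1, Nat.pair p.2 n)).map fun m => decide (m = 0),
      ?_, ?_, ?_⟩
    · have h1 : Partrec fun q : (List Bool × ℕ) × ℕ =>
          (F (q.1.1, Nat.pair q.1.2 q.2)).map fun m => decide (m = 0) := by
        refine Partrec.map (hF.1.comp ((Computable.fst.comp Computable.fst).pair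
          (Primrec₂.natPair.to_comp.comp (Computable.snd.comp Computable.fst) Computable.snd))) ?_
        exact ((Primrec.eq.decide.comp .id (Primrec.const 0)).to_comp.comp Computable.snd).to₂
      exact Partrec.rfind h1
    · intro σ τ x y hst hy
      rw [key] at hy ⊢
      refine ⟨?_, fun m hm => ?_⟩
      · obtain ⟨z, hz, e⟩ := hy.1
        exact ⟨z, hF.2.1 _ _ _ _ hst hz, e⟩
      · obtain ⟨z, hz, e⟩ := hy.2 m hm
        exact ⟨z, hF.2.1 _ _ _ _ hst hz, e⟩
    · intro x y
      change (y ∈ Nat.rfind fun n => (f (Nat.pair x n)).map fun m => decide (m = 0)) ↔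
        ∃ k, y ∈ Nat.rfind fun n => (F (pre X k, Nat.pair x n)).map fun m => decide (m = 0)
      simp only [key]
      constructor
      · rintro ⟨⟨z, hz, e⟩, h2⟩
        have h3 : ∀ m, ∃ k, m < y → ∃ z ∈ F (pre X k, Nat.pair x m), decide (z = 0) = false := by
          intro m
          by_cases hm : m < y
          · obtain ⟨z, hz, e⟩ := h2 m hm
            obtain ⟨k, hk⟩ := (hF.2.2 _ _).1 hz
            exact ⟨k, fun _ => ⟨z, hk, e⟩⟩
          · exact ⟨0, fun h => absurd h hm⟩
        choose k hk using h3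
        obtain ⟨l, hl⟩ := (hF.2.2 _ _).1 hz
        refine ⟨max l ((Finset.range y).sup k), ⟨z, hF.mono_pre (le_max_left _ _) hl, e⟩, ?_⟩
        intro m hm
        obtain ⟨w, hw, e'⟩ := hk m hm
        refine ⟨w, hF.mono_pre ?_ hw, e'⟩
        exact (Finset.le_sup (f := k) (Finset.mem_range.2 hm)).trans (le_max_right _ _)
      · rintro ⟨k, ⟨z, hz, e⟩, h2⟩
        refine ⟨⟨z, (hF.2.2 _ _).2 ⟨k, hz⟩, e⟩, fun m hm => ?_⟩
        obtain ⟨w, hw, e'⟩ := h2 m hm
        exact ⟨w, (hF.2.2 _ _).2 ⟨k, hw⟩, e'⟩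

end Pool.Agent.H.MP_95c08c_lc
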