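import Mathlib
import Pool.Agent.H.MP_95c08c_lc.Oracle

/-!
Relations that are c.e. in an oracle, and partial functions that are recursive in an oracle.
-/

set_option linter.all false

namespace Pool.Agent.H.MP_95c08c_lc

open Nat.Partrec (Code)

/-- `S` is c.e. in `X`. -/
def CEIn (X : ℕ → Bool) {α : Type} [Primcodable α] (S : α → Prop) : Prop :=
  ∃ R : List Bool × α → Prop, CE R ∧ ∀ a, S a ↔ ∃ k, R (pre X k, a)

section

variable {α β γ : Type} [Primcodable α] [Primcodable β] [Primcodable γ] {X : ℕ → Bool}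

theorem CE.or {R S : α → Prop} (hR : CE R) (hS : CE S) : CE (fun a => R a ∨ S a) := by
  obtain ⟨P, hP, hR⟩ := hR
  obtain ⟨Q, hQ, hS⟩ := hS
  refine ⟨fun x => P x ∨ Q x, hP.or hQ, fun a => ?_⟩
  simp only [hR, hS]
  constructor
  · rintro (⟨n, h⟩ | ⟨n, h⟩)
    exacts [⟨n, Or.inl h⟩, ⟨n, Or.inr h⟩]
  · rintro ⟨n, h | h⟩
    exacts [Or.inl ⟨n, h⟩, Or.inr ⟨n, h⟩]

theorem CEIn.of_eq {S T : α → Prop} (h : CEIn X S) (e : ∀ a, S a ↔ T a) : CEIn X T := by
  obtain ⟨R, hR, hS⟩ := h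
  exact ⟨R, hR, fun a => (e a).symm.trans (hS a)⟩

theorem CEIn.of_ce {S : α → Prop} (h : CE S) : CEIn X S :=
  ⟨fun z => S z.2, h.comp Primrec.snd, fun a => ⟨fun h => ⟨0, h⟩, fun ⟨_, h⟩ => h⟩⟩

theorem CEIn.of_primrec {S : α → Prop} (h : PrimrecPred S) : CEIn X S :=
  CEIn.of_ce (CE.of_primrec h)

theorem CEIn.comp {S : β → Prop} (h : CEIn X S) {f : α → β} (hf : Primrec f) :
    CEIn X (fun a => S (f a)) := by
  obtain ⟨R, hR, hS⟩ := h
  exact ⟨fun z => R (z.1, f z.2), hR.comp (Primrec.fst.pair (hf.comp Primrec.snd)),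
    fun a => hS (f a)⟩

theorem CEIn.and {S T : α → Prop} (hS : CEIn X S) (hT : CEIn X T) :
    CEIn X (fun a => S a ∧ T a) := by
  obtain ⟨R, hR, hS⟩ := hS
  obtain ⟨Q, hQ, hT⟩ := hT
  refine ⟨fun z => ∃ w : ℕ × ℕ, R (z.1.take w.1, z.2) ∧ Q (z.1.take w.2, z.2), ?_, ?_⟩
  · apply CE.exists (R := fun y : (List Bool × α) × (ℕ × ℕ) =>
      R (y.1.1.take y.2.1, y.1.2) ∧ Q (y.1.1.take y.2.2, y.1.2))
    apply CE.and
    · exact hR.comp (f := fun y : (List Bool × α) × (ℕ × ℕ) => (y.1.1.take y.2.1, y.1.2))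
        ((Primrec.list_take.comp (Primrec.fst.comp Primrec.snd)
          (Primrec.fst.comp Primrec.fst)).pair (Primrec.snd.comp Primrec.fst))
    · exact hQ.comp (f := fun y : (List Bool × α) × (ℕ × ℕ) => (y.1.1.take y.2.2, y.1.2))
        ((Primrec.list_take.comp (Primrec.snd.comp Primrec.snd)
          (Primrec.fst.comp Primrec.fst)).pair (Primrec.snd.comp Primrec.fst))
  · intro a
    simp only [hS, hT]
    constructor
    · rintro ⟨⟨k, hk⟩, ⟨l, hl⟩⟩
      refine ⟨max k l, (k, l), ?_, ?_⟩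
      · rwa [pre_take, min_eq_left (le_max_left _ _)]
      · rwa [pre_take, min_eq_left (le_max_right _ _)]
    · rintro ⟨k, ⟨i, j⟩, h1, h2⟩
      simp only [pre_take] at h1 h2
      exact ⟨⟨_, h1⟩, ⟨_, h2⟩⟩

theorem CEIn.or {S T : α → Prop} (hS : CEIn X S) (hT : CEIn X T) :
    CEIn X (fun a => S a ∨ T a) := by
  obtain ⟨R, hR, hS⟩ := hS
  obtain ⟨Q, hQ, hT⟩ := hT
  refine ⟨fun z => R z ∨ Q z, hR.or hQ, fun a => ?_⟩
  simp only [hS, hT]
  constructor
  · rintro (⟨n, h⟩ | ⟨n, h⟩)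
    exacts [⟨n, Or.inl h⟩, ⟨n, Or.inr h⟩]
  · rintro ⟨n, h | h⟩
    exacts [Or.inl ⟨n, h⟩, Or.inr ⟨n, h⟩]

theorem CEIn.ex {S : α × β → Prop} (h : CEIn X S) : CEIn X (fun a => ∃ b, S (a, b)) := by
  obtain ⟨R, hR, hS⟩ := h
  refine ⟨fun z => ∃ b, R (z.1, (z.2, b)), ?_, fun a => ?_⟩
  · apply CE.exists (R := fun y : (List Bool × α) × β => R (y.1.1, (y.1.2, y.2)))
    exact hR.comp (f := fun y : (List Bool × α) × β => (y.1.1, (y.1.2, y.2)))
      ((Primrec.fst.comp Primrec.fst).pair ((Primrec.snd.comp Primrec.fst).pair Primrec.snd))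
  · simp only [hS]
    exact ⟨fun ⟨b, k, h⟩ => ⟨k, b, h⟩, fun ⟨k, b, h⟩ => ⟨b, k, h⟩⟩

/-- Initial segments of the oracle. -/
theorem CEIn.preEq : CEIn X (fun p : ℕ × List Bool => pre X p.1 = p.2) := by
  refine ⟨fun z => z.2.1 ≤ z.1.length ∧ z.1.take z.2.1 = z.2.2, CE.of_primrec ?_, ?_⟩
  · apply PrimrecPred.and
    · exact Primrec.nat_le.comp (Primrec.fst.comp Primrec.snd)
        (Primrec.list_length.comp Primrec.fst)
    · exact Primrec.eq.comp (Primrec.list_take.comp (Primrec.fst.comp Primrec.snd) Primrec.fst)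
        (Primrec.snd.comp Primrec.snd)
  · rintro ⟨k, τ⟩
    simp only [pre_length, pre_take]
    constructor
    · rintro rfl
      exact ⟨k, le_rfl, by simp⟩
    · rintro ⟨l, h1, h2⟩
      rwa [min_eq_left h1] at h2

theorem CEIn.query : CEIn X (fun p : ℕ × Bool => X p.1 = p.2) := by
  refine ⟨fun z => z.1[z.2.1]? = some z.2.2, CE.of_primrec ?_, ?_⟩
  · exact Primrec.eq.comp (Primrec.list_getElem?.comp Primrec.fst (Primrec.fst.comp Primrec.snd))
      (Primrec.option_some.comp (Primrec.snd.comp Primrec.snd))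
  · rintro ⟨k, b⟩
    simp only [pre_getElem?]
    constructor
    · rintro rfl
      exact ⟨k + 1, by simp⟩
    · rintro ⟨l, h⟩
      split_ifs at h
      exact Option.some.inj h

theorem CEIn.graph {f : α →. β} (hf : RecursiveIn {orc X} f) :
    CEIn X (fun p : α × β => p.2 ∈ f p.1) := by
  obtain ⟨F, hF, -, hFX⟩ := normal_form_nat hf
  refine ⟨fun z => Encodable.encode z.2.2 ∈ F (z.1, Encodable.encode z.2.1), ?_, ?_⟩
  · exact (CE.graph hF).comp (f := fun z : List Bool × (α × β) =>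
      ((z.1, Encodable.encode z.2.1), Encodable.encode z.2.2))
      ((Primrec.fst.pair (Primrec.encode.comp (Primrec.fst.comp Primrec.snd))).pair
        (Primrec.encode.comp (Primrec.snd.comp Primrec.snd)))
  · rintro ⟨a, b⟩
    simp only
    rw [← hFX]
    simp only [Encodable.encodek, Part.coe_some, Part.bind_some, Part.mem_map_iff]
    constructor
    · intro h
      exact ⟨b, h, rfl⟩
    · rintro ⟨b', h, e⟩
      exact (Encodable.encode_injective e) ▸ h

end

/-- A total function computable in `X`. -/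
def TotIn (X : ℕ → Bool) (u : ℕ → ℕ) : Prop :=
  Nat.RecursiveIn {orc X} (fun n => Part.some (u n))

section

variable {X : ℕ → Bool} {u v : ℕ → ℕ}

theorem TotIn.of_eq (h : TotIn X u) (e : ∀ n, u n = v n) : TotIn X v := by
  have : u = v := funext e
  rwa [← this]

theorem TotIn.prim (h : Nat.Primrec u) : TotIn X u := Nat.Primrec.recursiveIn h

theorem TotIn.oracle : TotIn X (fun n => (X n).toNat) := Nat.RecursiveIn.oracle _ rfl

theorem TotIn.pair (hu : TotIn X u) (hv : TotIn X v) : TotIn X (fun n => Nat.pair (u n) (v n)) := by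
  refine (Nat.RecursiveIn.pair hu hv).of_eq fun n => ?_
  simp [Seq.seq]

theorem TotIn.comp (hu : TotIn X u) (hv : TotIn X v) : TotIn X (fun n => u (v n)) := by
  refine (Nat.RecursiveIn.comp hu hv).of_eq fun n => ?_
  exact Part.bind_some _ _

theorem TotIn.prec (hu : TotIn X u) (hv : TotIn X v) :
    TotIn X (fun p => (p.unpair.2.rec (u p.unpair.1)
      (fun y i => v (Nat.pair p.unpair.1 (Nat.pair y i))) : ℕ)) := by
  refine (Nat.RecursiveIn.prec hu hv).of_eq fun n => ?_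
  simp only
  generalize n.unpair.1 = a
  generalize n.unpair.2 = m
  induction m with
  | zero => rfl
  | succ m ih =>
    change (Nat.rec (Part.some (u a)) _ m : Part ℕ) >>= _ = _
    rw [ih]
    exact Part.bind_some _ _

end

end Pool.Agent.H.MP_95c08c_lc
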