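import Mathlib
import Pool.Agent.H.MP_95c08c_lc.CEIn

/-!
Selection functions for relations that are c.e. in an oracle; complements of c.e. relations are
c.e. in the halting problem; the zero oracle.
-/

set_option linter.all false

namespace Pool.Agent.H.MP_95c08c_lc

open Nat.Partrec (Code)

section

variable {α β γ : Type} [Primcodable α] [Primcodable β] [Primcodable γ] {X : ℕ → Bool}

/-- Append one bit to a coded string. -/
def appBit (z : ℕ) : ℕ :=
  Encodable.encode (((Encodable.decode (α := List Bool) z.unpair.1).getD []) ++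
    [decide (z.unpair.2 = 1)])

theorem primrec_appBit : Primrec appBit := by
  unfold appBit
  refine Primrec.encode.comp (Primrec.list_append.comp ?_ ?_)
  · exact Primrec.option_getD.comp (Primrec.decode.comp (Primrec.fst.comp Primrec.unpair))
      (Primrec.const [])
  · exact Primrec.list_cons.comp
      (Primrec.eq.comp (Primrec.snd.comp Primrec.unpair) (Primrec.const 1)).decide
      (Primrec.const [])

theorem TotIn.preCode : TotIn X (fun k => Encodable.encode (pre X k)) := by
  have h1 : TotIn X (fun z => appBit (Nat.pair z.unpair.2.unpair.2 (X z.unpair.2.unpair.1).toNat)) := by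
    refine TotIn.comp (TotIn.prim (Primrec.nat_iff.1 primrec_appBit)) ?_
    refine TotIn.pair (TotIn.prim ?_) ?_
    · exact Nat.Primrec.comp .right .right
    · exact TotIn.comp TotIn.oracle (TotIn.prim (Nat.Primrec.comp .left .right))
  have h2 := TotIn.prec (X := X) (u := fun _ => Encodable.encode ([] : List Bool))
    (TotIn.prim (Nat.Primrec.const _)) h1
  have h3 : TotIn X (fun k => Nat.pair 0 k) :=
    TotIn.pair (TotIn.prim (Nat.Primrec.const 0)) (TotIn.prim Nat.Primrec.id)
  refine (TotIn.comp h2 h3).of_eq fun k => ?_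
  simp only [Nat.unpair_pair]
  induction k with
  | zero => simp [pre]
  | succ k ih =>
    simp only [ih]
    rw [pre_succ]
    simp only [appBit, Nat.unpair_pair, Encodable.encodek, Option.getD_some]
    cases X k <;> simp

/-- Selection functions. -/
theorem CEIn.select {R : α × β → Prop} (h : CEIn X R) :
    ∃ g : α →. β, RecursiveIn {orc X} g ∧ (∀ a b, b ∈ g a → R (a, b)) ∧
      (∀ a, (∃ b, R (a, b)) → (g a).Dom) := by
  classical
  obtain ⟨Q, ⟨P, hP, hQ⟩, hR⟩ := h
  -- validity of a coded witness
  let W : ℕ × (ℕ × ℕ) → Prop := fun z =>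
    ∃ a : α, Encodable.decode (α := α) z.1 = some a ∧
      ∃ b : β, Encodable.decode (α := β) z.2.1.unpair.2.unpair.2 = some b ∧
        ∃ σ : List Bool, Encodable.decode (α := List Bool) z.2.2 = some σ ∧
          P ((σ, (a, b)), z.2.1.unpair.2.unpair.1)
  have hW : PrimrecPred W := by
    have h3 : PrimrecPred fun y : (((ℕ × (ℕ × ℕ)) × α) × β) =>
        ∃ σ : List Bool, Encodable.decode (α := List Bool) y.1.1.2.2 = some σ ∧
          P ((σ, (y.1.2, y.2)), y.1.1.2.1.unpair.2.unpair.1) := by
      refine primrecPred_option (Q := fun x : (((ℕ × (ℕ × ℕ)) × α) × β) × List Bool =>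
        P ((x.2, (x.1.1.2, x.1.2)), x.1.1.1.2.1.unpair.2.unpair.1))
        (f := fun y : (((ℕ × (ℕ × ℕ)) × α) × β) =>
          Encodable.decode (α := List Bool) y.1.1.2.2) ?_ ?_
      · refine hP.comp (f := fun x : (((ℕ × (ℕ × ℕ)) × α) × β) × List Bool =>
          ((x.2, (x.1.1.2, x.1.2)), x.1.1.1.2.1.unpair.2.unpair.1)) ?_
        refine (Primrec.snd.pair ((Primrec.snd.comp (Primrec.fst.comp Primrec.fst)).pair
          (Primrec.snd.comp Primrec.fst))).pair ?_
        exact Primrec.fst.comp (Primrec.unpair.comp (Primrec.snd.comp (Primrec.unpair.comp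
          (Primrec.fst.comp (Primrec.snd.comp (Primrec.fst.comp
            (Primrec.fst.comp Primrec.fst)))))))
      · exact Primrec.decode.comp (Primrec.snd.comp (Primrec.snd.comp
          (Primrec.fst.comp Primrec.fst)))
    have h2 : PrimrecPred fun y : ((ℕ × (ℕ × ℕ)) × α) =>
        ∃ b : β, Encodable.decode (α := β) y.1.2.1.unpair.2.unpair.2 = some b ∧
        ∃ σ : List Bool, Encodable.decode (α := List Bool) y.1.2.2 = some σ ∧
          P ((σ, (y.2, b)), y.1.2.1.unpair.2.unpair.1) :=
      primrecPred_option (f := fun y : ((ℕ × (ℕ × ℕ)) × α) =>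
          Encodable.decode (α := β) y.1.2.1.unpair.2.unpair.2) h3
        (Primrec.decode.comp (Primrec.snd.comp (Primrec.unpair.comp (Primrec.snd.comp
          (Primrec.unpair.comp (Primrec.fst.comp (Primrec.snd.comp Primrec.fst)))))))
    exact primrecPred_option (f := fun z : ℕ × (ℕ × ℕ) => Encodable.decode (α := α) z.1) h2
      (Primrec.decode.comp Primrec.fst)
  -- the check function
  let c : ℕ → ℕ := fun z => if W (z.unpair.1.unpair.1, (z.unpair.1.unpair.2, z.unpair.2)) then 0
    else 1
  have hc : Nat.Primrec c := by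
    refine Primrec.nat_iff.1 (Primrec.ite (hW.comp (f := fun z : ℕ =>
      (z.unpair.1.unpair.1, (z.unpair.1.unpair.2, z.unpair.2))) ?_) (Primrec.const 0)
      (Primrec.const 1))
    exact (Primrec.fst.comp (Primrec.unpair.comp (Primrec.fst.comp Primrec.unpair))).pair
      ((Primrec.snd.comp (Primrec.unpair.comp (Primrec.fst.comp Primrec.unpair))).pair
        (Primrec.snd.comp Primrec.unpair))
  have ht : TotIn X (fun z => c (Nat.pair z
      (Encodable.encode (pre X z.unpair.2.unpair.1)))) := by
    refine TotIn.comp (TotIn.prim hc) (TotIn.pair (TotIn.prim Nat.Primrec.id) ?_)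
    exact TotIn.comp TotIn.preCode (TotIn.prim (Nat.Primrec.comp .left .right))
  set t : ℕ → ℕ := fun z => c (Nat.pair z (Encodable.encode (pre X z.unpair.2.unpair.1))) with htd
  have hr := Nat.RecursiveIn.rfind ht
  set H : ℕ →. ℕ := fun a => Nat.rfind fun n => (fun m => decide (m = 0)) <$>
    (Part.some (t (Nat.pair a n)) : Part ℕ) with hH
  have htv : ∀ (a : α) (j : ℕ), t (Nat.pair (Encodable.encode a) j) = 0 ↔
      ∃ b : β, Encodable.decode (α := β) j.unpair.2.unpair.2 = some b ∧
        P ((pre X j.unpair.1, (a, b)), j.unpair.2.unpair.1) := by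
    intro a j
    simp only [htd, c, Nat.unpair_pair, W, Encodable.encodek, Option.some.injEq,
      exists_eq_left', ite_eq_left_iff, one_ne_zero, imp_false, not_not]
  have hHm : ∀ a y, y ∈ H a ↔ t (Nat.pair a y) = 0 ∧ ∀ m < y, t (Nat.pair a m) ≠ 0 := by
    intro a y
    refine (Nat.mem_rfind (p := fun n => (Part.some (t (Nat.pair a n)) : Part ℕ).map
      fun m => decide (m = 0))).trans ?_
    simp only [Part.map_some, Part.mem_some_iff]
    constructor
    · rintro ⟨h1, h2⟩
      exact ⟨by simpa using h1, fun m hm => by simpa using h2 hm⟩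
    · rintro ⟨h1, h2⟩
      exact ⟨by simpa using h1, fun {m} hm => by simpa using h2 m hm⟩
  -- input and output conversions
  have hN : Nat.RecursiveIn {orc X} (fun n : ℕ =>
      (((Encodable.decode (α := α) n).map Encodable.encode : Option ℕ) : Part ℕ)) := by
    have : Partrec (fun n : ℕ =>
      (((Encodable.decode (α := α) n).map Encodable.encode : Option ℕ) : Part ℕ)) := by
      refine Computable.ofOption ?_
      exact (Primrec.option_map Primrec.decode (Primrec.encode.comp Primrec.snd).to₂).to_comp
    exact Nat.Partrec.recursiveIn (Partrec.nat_iff.1 this)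
  have hD : Nat.RecursiveIn {orc X} (fun j : ℕ =>
      (((Encodable.decode (α := β) j.unpair.2.unpair.2).map Encodable.encode : Option ℕ) :
        Part ℕ)) := by
    have : Partrec (fun j : ℕ =>
      (((Encodable.decode (α := β) j.unpair.2.unpair.2).map Encodable.encode : Option ℕ) :
        Part ℕ)) := by
      refine Computable.ofOption ?_
      refine (Primrec.option_map (f := fun j : ℕ =>
        Encodable.decode (α := β) j.unpair.2.unpair.2) (g := fun _ b => Encodable.encode b)
        ?_ (Primrec.encode.comp Primrec.snd).to₂).to_comp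
      exact Primrec.decode.comp (Primrec.snd.comp (Primrec.unpair.comp (Primrec.snd.comp
        Primrec.unpair)))
    exact Nat.Partrec.recursiveIn (Partrec.nat_iff.1 this)
  refine ⟨fun a => (H (Encodable.encode a)).bind fun j =>
    ((Encodable.decode (α := β) j.unpair.2.unpair.2 : Option β) : Part β), ?_, ?_, ?_⟩
  · have h1 := Nat.RecursiveIn.comp hD (Nat.RecursiveIn.comp hr hN)
    refine h1.of_eq fun n => ?_
    change (((((Encodable.decode (α := α) n).map Encodable.encode : Option ℕ) : Part ℕ).bind H).bind
      _) = _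
    cases hn : Encodable.decode (α := α) n with
    | none =>
      simp only [Option.map_none, Part.coe_none]
      rw [Part.bind_none, Part.bind_none, Part.bind_none]
    | some a =>
      simp only [Option.map_some, Part.coe_some]
      rw [Part.bind_some, Part.bind_some, Part.map_bind]
      congr 1
      funext j
      cases Encodable.decode (α := β) j.unpair.2.unpair.2 <;> simp
  · intro a b hb
    simp only [Part.mem_bind_iff, Part.mem_coe, Option.mem_def] at hb
    obtain ⟨j, hj, hb⟩ := hb
    rw [hHm, htv] at hj
    obtain ⟨⟨b', hb', hp⟩, -⟩ := hj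
    rw [hb] at hb'
    obtain rfl := Option.some.inj hb'
    exact (hR _).2 ⟨_, (hQ _).2 ⟨_, hp⟩⟩
  · rintro a ⟨b, hab⟩
    obtain ⟨k, hk⟩ := (hR _).1 hab
    obtain ⟨m, hm⟩ := (hQ _).1 hk
    have hex : ∃ j, t (Nat.pair (Encodable.encode a) j) = 0 := by
      refine ⟨Nat.pair k (Nat.pair m (Encodable.encode b)), ?_⟩
      rw [htv]
      exact ⟨b, by simp, by simpa using hm⟩
    have hj : Nat.find hex ∈ H (Encodable.encode a) := by
      rw [hHm]
      exact ⟨Nat.find_spec hex, fun m hm => Nat.find_min hex hm⟩
    obtain ⟨b', hb', -⟩ := (htv _ _).1 (Nat.find_spec hex)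
    have : b' ∈ (H (Encodable.encode a)).bind fun j =>
        ((Encodable.decode (α := β) j.unpair.2.unpair.2 : Option β) : Part β) := by
      simp only [Part.mem_bind_iff, Part.mem_coe, Option.mem_def]
      exact ⟨_, hj, hb'⟩
    exact Part.dom_iff_mem.2 ⟨_, this⟩

/-- A partial function whose graph is c.e. in `X` is recursive in `X`. -/
theorem recursiveIn_of_ceIn {f : α →. β} (h : CEIn X (fun p : α × β => p.2 ∈ f p.1)) :
    RecursiveIn {orc X} f := by
  obtain ⟨g, hg, h1, h2⟩ := h.select
  refine hg.of_eq fun a => ?_
  ext b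
  constructor
  · exact h1 a b
  · intro hb
    have hd := h2 a ⟨b, hb⟩
    have h3 := h1 a _ (Part.get_mem hd)
    rw [Part.mem_unique hb h3]
    exact Part.get_mem hd

theorem recursiveIn_iff_ceIn {f : α →. β} :
    RecursiveIn {orc X} f ↔ CEIn X (fun p : α × β => p.2 ∈ f p.1) :=
  ⟨CEIn.graph, recursiveIn_of_ceIn⟩

/-- Complements of c.e. relations are c.e. in the halting problem. -/
theorem CE.compl_halt {S : α → Prop} (h : CE S) : CEIn halt (fun a => ¬ S a) := by
  classical
  -- a partial recursive function on `α × ℕ` which converges iff `S a`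
  obtain ⟨g, hg, h1, h2⟩ := CE.uniformize (R := fun z : (α × ℕ) × ℕ => S z.1.1)
    (h.comp (Primrec.fst.comp Primrec.fst))
  obtain ⟨c, hc⟩ := Nat.Partrec.Code.exists_code.1 hg
  have key : ∀ a : α, S a ↔ halt (Encodable.encode (Code.curry c (Encodable.encode a))) = true := by
    intro a
    have e1 : halt (Encodable.encode (Code.curry c (Encodable.encode a))) = true ↔
        (Code.eval (Code.curry c (Encodable.encode a))
          (Encodable.encode (Code.curry c (Encodable.encode a)))).Dom := by
      simp only [halt, decide_eq_true_eq, Denumerable.ofNat_encode]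
    rw [e1, Nat.Partrec.Code.eval_curry, hc]
    simp only
    have e2 : Encodable.decode (α := α × ℕ) (Nat.pair (Encodable.encode a)
        (Encodable.encode (Code.curry c (Encodable.encode a)))) =
        some (a, Encodable.encode (Code.curry c (Encodable.encode a))) := by
      simp
    rw [e2]
    simp only [Part.coe_some, Part.bind_some, Part.map_Dom]
    constructor
    · intro hS
      exact h2 _ ⟨0, hS⟩
    · intro hd
      exact h1 _ _ (Part.get_mem hd)
  have h3 := (CEIn.query (X := halt)).comp (f := fun a : α =>
    (Encodable.encode (Code.curry c (Encodable.encode a)), false))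
    ((Primrec.encode.comp (Nat.Partrec.Code.primrec₂_curry.comp (Primrec.const c)
      Primrec.encode)).pair (Primrec.const false))
  refine h3.of_eq fun a => ?_
  rw [key a]
  simp

theorem CE.deltaTwo {S : α → Prop} (h : CE S) : CEIn halt S := CEIn.of_ce h

end

section zero

variable {α β : Type} [Primcodable α] [Primcodable β]

/-- The zero oracle. -/
def zer : ℕ → Bool := fun _ => false

theorem recursiveIn_zer {f : α →. β} : RecursiveIn {orc zer} f ↔ RecursiveIn ∅ f := by
  constructor
  · intro h
    have h1 : RecursiveIn {fun _ => (Part.some 0 : Part ℕ)} f := h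
    exact (h1.partrec_of_const).recursiveIn
  · intro h
    exact (recursiveIn_empty_iff.1 h).recursiveIn

end zero

end Pool.Agent.H.MP_95c08c_lc
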