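import Mathlib
import Pool.Agent.H.MP_95c08c_lc.Select

/-!
A uniform family of optimal prefix-free machines relative to an oracle, with finite
approximations.
-/

set_option linter.all false

namespace Pool.Agent.H.MP_95c08c_lc

open Nat.Partrec (Code)

namespace Univ

/-- `replicate k true` as a primitive recursive function. -/
theorem primrec_replicate : Primrec fun k : ℕ => List.replicate k true := by
  have h : Primrec fun k : ℕ => (List.range k).map (fun _ => true) :=
    Primrec.list_map Primrec.list_range (Primrec.const true).to₂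
  refine h.of_eq fun k => ?_
  simp

theorem replicate_aux {k k' : ℕ} {u u' : List Bool}
    (h : List.replicate k true ++ false :: u <+: List.replicate k' true ++ false :: u') :
    k = k' ∧ u <+: u' := by
  induction k generalizing k' with
  | zero =>
    cases k' with
    | zero => simpa using h
    | succ k' =>
      simp [List.replicate_succ] at h
  | succ k ih =>
    cases k' with
    | zero => simp [List.replicate_succ] at h
    | succ k' =>
      simp only [List.replicate_succ, List.cons_append, List.cons_prefix_cons, true_and] at h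
      obtain ⟨h1, h2⟩ := ih h
      exact ⟨by omega, h2⟩

/-- Evaluation of the `e`-th code at stage `n` on the string `σ` and the program `p`, with
output `x`. -/
def Stg (z : (ℕ × ℕ) × (List Bool × (List Bool × List Bool))) : Prop :=
  Code.evaln z.1.2 (Denumerable.ofNat Code z.1.1)
    (Encodable.encode (z.2.1, Encodable.encode z.2.2.1)) = some (Encodable.encode z.2.2.2)

theorem primrec_stg : PrimrecPred Stg := by
  refine Primrec.eq.comp
    (f := fun z : (ℕ × ℕ) × (List Bool × (List Bool × List Bool)) =>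
      Code.evaln z.1.2 (Denumerable.ofNat Code z.1.1)
        (Encodable.encode (z.2.1, Encodable.encode z.2.2.1)))
    (g := fun z => some (Encodable.encode z.2.2.2)) ?_ ?_
  · refine Code.primrec_evaln.comp (((Primrec.snd.comp Primrec.fst).pair
      ((Primrec.ofNat Code).comp (Primrec.fst.comp Primrec.fst))).pair ?_)
    exact Primrec.encode.comp ((Primrec.fst.comp Primrec.snd).pair
      (Primrec.encode.comp (Primrec.fst.comp (Primrec.snd.comp Primrec.snd))))
  · exact Primrec.option_some.comp (Primrec.encode.comp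
      (Primrec.snd.comp (Primrec.snd.comp Primrec.snd)))

/-- The event `v` is a valid event for the index `e` and the string `τ` with a program which is
comparable to `p`. -/
def Cmp (z : (ℕ × List Bool × List Bool) × ℕ) : Prop :=
  ∃ w : (List Bool × List Bool) × (ℕ × ℕ),
    Encodable.decode₂ ((List Bool × List Bool) × (ℕ × ℕ)) z.2 = some w ∧
      (w.2.1 ≤ z.1.2.1.length ∧ Stg ((z.1.1, w.2.2), (z.1.2.1.take w.2.1, w.1)) ∧
        (w.1.1 = z.1.2.2.take w.1.1.length ∨ z.1.2.2 = w.1.1.take z.1.2.2.length))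

theorem primrec_cmp : PrimrecPred Cmp := by
  refine primrecPred_option (β := (List Bool × List Bool) × (ℕ × ℕ))
      (f := fun z : (ℕ × List Bool × List Bool) × ℕ =>
        Encodable.decode₂ ((List Bool × List Bool) × (ℕ × ℕ)) z.2)
      (Q := fun y : ((ℕ × List Bool × List Bool) × ℕ) × ((List Bool × List Bool) × (ℕ × ℕ)) =>
        (y.2.2.1 ≤ y.1.1.2.1.length ∧ Stg ((y.1.1.1, y.2.2.2), (y.1.1.2.1.take y.2.2.1, y.2.1)) ∧
        (y.2.1.1 = y.1.1.2.2.take y.2.1.1.length ∨ y.1.1.2.2 = y.2.1.1.take y.1.1.2.2.length))) ?_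
      (Primrec.decode₂.comp Primrec.snd)
  have q0 : Primrec fun y : ((ℕ × List Bool × List Bool) × ℕ) ×
      ((List Bool × List Bool) × (ℕ × ℕ)) => y.1.1.1 :=
    Primrec.fst.comp (Primrec.fst.comp Primrec.fst)
  have q1 : Primrec fun y : ((ℕ × List Bool × List Bool) × ℕ) ×
      ((List Bool × List Bool) × (ℕ × ℕ)) => y.1.1.2.1 :=
    Primrec.fst.comp (Primrec.snd.comp (Primrec.fst.comp Primrec.fst))
  have q2 : Primrec fun y : ((ℕ × List Bool × List Bool) × ℕ) ×
      ((List Bool × List Bool) × (ℕ × ℕ)) => y.1.1.2.2 :=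
    Primrec.snd.comp (Primrec.snd.comp (Primrec.fst.comp Primrec.fst))
  have q3 : Primrec fun y : ((ℕ × List Bool × List Bool) × ℕ) ×
      ((List Bool × List Bool) × (ℕ × ℕ)) => y.2.1.1 :=
    Primrec.fst.comp (Primrec.fst.comp Primrec.snd)
  have q4 : Primrec fun y : ((ℕ × List Bool × List Bool) × ℕ) ×
      ((List Bool × List Bool) × (ℕ × ℕ)) => y.2.1 :=
    Primrec.fst.comp Primrec.snd
  have q5 : Primrec fun y : ((ℕ × List Bool × List Bool) × ℕ) ×
      ((List Bool × List Bool) × (ℕ × ℕ)) => y.2.2.1 :=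
    Primrec.fst.comp (Primrec.snd.comp Primrec.snd)
  have q6 : Primrec fun y : ((ℕ × List Bool × List Bool) × ℕ) ×
      ((List Bool × List Bool) × (ℕ × ℕ)) => y.2.2.2 :=
    Primrec.snd.comp (Primrec.snd.comp Primrec.snd)
  refine PrimrecPred.and ?_ (PrimrecPred.and ?_ (PrimrecPred.or ?_ ?_))
  · exact Primrec.nat_le.comp q5 (Primrec.list_length.comp q1)
  · exact primrec_stg.comp ((q0.pair q6).pair ((Primrec.list_take.comp q5 q1).pair q4))
  · exact Primrec.eq.comp q3 (Primrec.list_take.comp (Primrec.list_length.comp q3) q2)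
  · exact Primrec.eq.comp q2 (Primrec.list_take.comp (Primrec.list_length.comp q2) q3)

theorem cmp_iff {e : ℕ} {τ p : List Bool} {v : ℕ} : Cmp ((e, τ, p), v) ↔
    ∃ p' x' k n, v = Encodable.encode ((p', x'), (k, n)) ∧ k ≤ τ.length ∧
      Stg ((e, n), (τ.take k, (p', x'))) ∧ (p' <+: p ∨ p <+: p') := by
  simp only [Cmp, Encodable.decode₂_eq_some]
  constructor
  · rintro ⟨⟨⟨p', x'⟩, k, n⟩, h1, h2, h3, h4⟩
    refine ⟨p', x', k, n, h1.symm, h2, h3, ?_⟩
    simpa only [List.prefix_iff_eq_take] using h4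
  · rintro ⟨p', x', k, n, rfl, h2, h3, h4⟩
    refine ⟨((p', x'), (k, n)), rfl, h2, h3, ?_⟩
    simpa only [List.prefix_iff_eq_take] using h4

theorem le_code (p x : List Bool) (k n : ℕ) : k ≤ Encodable.encode ((p, x), (k, n)) := by
  have h1 : k ≤ Nat.pair k n := Nat.left_le_pair _ _
  have h2 : Nat.pair k n ≤ Nat.pair (Encodable.encode (p, x)) (Nat.pair k n) :=
    Nat.right_le_pair _ _
  have h3 : Encodable.encode ((p, x), (k, n)) =
    Nat.pair (Encodable.encode (p, x)) (Nat.pair k n) := rfl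
  rw [h3]
  exact h1.trans h2

theorem take_eq {σ τ : List Bool} (h : σ <+: τ) {k : ℕ} (hk : k ≤ σ.length) :
    τ.take k = σ.take k := by
  obtain ⟨ρ, rfl⟩ := h
  rw [List.take_append_of_le_length hk]

theorem cmp_mono {e : ℕ} {σ τ p : List Bool} {v : ℕ} (h : σ <+: τ) (hv : v ≤ σ.length) :
    Cmp ((e, τ, p), v) ↔ Cmp ((e, σ, p), v) := by
  simp only [cmp_iff]
  constructor
  · rintro ⟨p', x', k, n, rfl, h2, h3, h4⟩
    have hk : k ≤ σ.length := (le_code _ _ _ _).trans hv
    rw [take_eq h hk] at h3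
    exact ⟨p', x', k, n, rfl, hk, h3, h4⟩
  · rintro ⟨p', x', k, n, rfl, h2, h3, h4⟩
    have hk : k ≤ σ.length := (le_code _ _ _ _).trans hv
    rw [← take_eq h hk] at h3
    exact ⟨p', x', k, n, rfl, hk.trans h.length_le, h3, h4⟩

/-- The event `((p, x), (k, n))` is accepted for the index `e` and the string `τ`. -/
def Acc (z : (ℕ × List Bool) × ((List Bool × List Bool) × (ℕ × ℕ))) : Prop :=
  Encodable.encode z.2 ≤ z.1.2.length ∧ Stg ((z.1.1, z.2.2.2), (z.1.2.take z.2.2.1, z.2.1)) ∧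
    ¬ ∃ v < Encodable.encode z.2, Cmp ((z.1.1, z.1.2, z.2.1.1), v)

theorem primrec_acc : PrimrecPred Acc := by
  have q0 : Primrec fun z : (ℕ × List Bool) × ((List Bool × List Bool) × (ℕ × ℕ)) => z.1.1 :=
    Primrec.fst.comp Primrec.fst
  have q1 : Primrec fun z : (ℕ × List Bool) × ((List Bool × List Bool) × (ℕ × ℕ)) => z.1.2 :=
    Primrec.snd.comp Primrec.fst
  have q2 : Primrec fun z : (ℕ × List Bool) × ((List Bool × List Bool) × (ℕ × ℕ)) => z.2.1 :=
    Primrec.fst.comp Primrec.snd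
  have q3 : Primrec fun z : (ℕ × List Bool) × ((List Bool × List Bool) × (ℕ × ℕ)) => z.2.2.1 :=
    Primrec.fst.comp (Primrec.snd.comp Primrec.snd)
  have q4 : Primrec fun z : (ℕ × List Bool) × ((List Bool × List Bool) × (ℕ × ℕ)) => z.2.2.2 :=
    Primrec.snd.comp (Primrec.snd.comp Primrec.snd)
  refine PrimrecPred.and ?_ (PrimrecPred.and ?_ (PrimrecPred.not ?_))
  · exact Primrec.nat_le.comp (Primrec.encode.comp Primrec.snd) (Primrec.list_length.comp q1)
  · exact primrec_stg.comp ((q0.pair q4).pair ((Primrec.list_take.comp q3 q1).pair q2))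
  · exact (primrecPred_exists_lt primrec_cmp).comp
      (f := fun z : (ℕ × List Bool) × ((List Bool × List Bool) × (ℕ × ℕ)) =>
        ((z.1.1, z.1.2, z.2.1.1), Encodable.encode z.2))
      ((q0.pair (q1.pair (Primrec.fst.comp q2))).pair (Primrec.encode.comp Primrec.snd))

theorem acc_mono {e : ℕ} {σ τ p x : List Bool} {k n : ℕ} (h : σ <+: τ)
    (ha : Acc ((e, σ), ((p, x), (k, n)))) : Acc ((e, τ), ((p, x), (k, n))) := by
  obtain ⟨h1, h2, h3⟩ := ha
  simp only at h1 h2 h3
  refine ⟨h1.trans h.length_le, ?_, ?_⟩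
  · simp only
    rw [take_eq h ((le_code p x k n).trans h1)]
    exact h2
  · simp only
    rintro ⟨v, hv, hc⟩
    exact h3 ⟨v, hv, (cmp_mono h (hv.le.trans h1)).1 hc⟩

theorem acc_unique {e : ℕ} {τ p x p' x' : List Bool} {k n k' n' : ℕ}
    (ha : Acc ((e, τ), ((p, x), (k, n)))) (hb : Acc ((e, τ), ((p', x'), (k', n'))))
    (hp : p <+: p') : p = p' ∧ x = x' := by
  obtain ⟨h1, h2, h3⟩ := ha
  obtain ⟨h1', h2', h3'⟩ := hb
  simp only at h1 h2 h3 h1' h2' h3'
  rcases lt_trichotomy (Encodable.encode ((p, x), (k, n))) (Encodable.encode ((p', x'), (k', n')))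
    with h | h | h
  · exact absurd ⟨_, h, cmp_iff.2 ⟨p, x, k, n, rfl, (le_code _ _ _ _).trans h1, h2, Or.inl hp⟩⟩ h3'
  · have h4 := Encodable.encode_injective h
    simp only [Prod.mk.injEq] at h4
    exact h4.1
  · exact absurd ⟨_, h, cmp_iff.2 ⟨p', x', k', n', rfl, (le_code _ _ _ _).trans h1', h2',
      Or.inr hp⟩⟩ h3

/-- The universal relation. -/
def URel (z : List Bool × (List Bool × List Bool)) : Prop :=
  ∃ w : (ℕ × List Bool) × (ℕ × ℕ), z.2.1 = List.replicate w.1.1 true ++ false :: w.1.2 ∧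
    Acc ((w.1.1, z.1), ((w.1.2, z.2.2), w.2))

theorem urel_iff {τ q x : List Bool} : URel (τ, (q, x)) ↔ ∃ e p k n,
    q = List.replicate e true ++ false :: p ∧ Acc ((e, τ), ((p, x), (k, n))) := by
  constructor
  · rintro ⟨⟨⟨e, p⟩, k, n⟩, h1, h2⟩
    exact ⟨e, p, k, n, h1, h2⟩
  · rintro ⟨e, p, k, n, h1, h2⟩
    exact ⟨((e, p), (k, n)), h1, h2⟩

theorem ce_urel : CE URel := by
  apply CE.exists (β := (ℕ × List Bool) × (ℕ × ℕ))
    (R := fun y : (List Bool × (List Bool × List Bool)) × ((ℕ × List Bool) × (ℕ × ℕ)) =>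
      y.1.2.1 = List.replicate y.2.1.1 true ++ false :: y.2.1.2 ∧
        Acc ((y.2.1.1, y.1.1), ((y.2.1.2, y.1.2.2), y.2.2)))
  apply CE.of_primrec
  have q0 : Primrec fun y : (List Bool × (List Bool × List Bool)) × ((ℕ × List Bool) × (ℕ × ℕ)) =>
      y.2.1.1 := Primrec.fst.comp (Primrec.fst.comp Primrec.snd)
  have q1 : Primrec fun y : (List Bool × (List Bool × List Bool)) × ((ℕ × List Bool) × (ℕ × ℕ)) =>
      y.2.1.2 := Primrec.snd.comp (Primrec.fst.comp Primrec.snd)
  have q2 : Primrec fun y : (List Bool × (List Bool × List Bool)) × ((ℕ × List Bool) × (ℕ × ℕ)) =>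
      y.1.1 := Primrec.fst.comp Primrec.fst
  have q3 : Primrec fun y : (List Bool × (List Bool × List Bool)) × ((ℕ × List Bool) × (ℕ × ℕ)) =>
      y.1.2.1 := Primrec.fst.comp (Primrec.snd.comp Primrec.fst)
  have q4 : Primrec fun y : (List Bool × (List Bool × List Bool)) × ((ℕ × List Bool) × (ℕ × ℕ)) =>
      y.1.2.2 := Primrec.snd.comp (Primrec.snd.comp Primrec.fst)
  have q5 : Primrec fun y : (List Bool × (List Bool × List Bool)) × ((ℕ × List Bool) × (ℕ × ℕ)) =>
      y.2.2 := Primrec.snd.comp Primrec.snd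
  refine PrimrecPred.and ?_ ?_
  · exact Primrec.eq.comp q3 (Primrec.list_append.comp (primrec_replicate.comp q0)
      (Primrec.list_cons.comp (Primrec.const false) q1))
  · exact primrec_acc.comp (f := fun y : (List Bool × (List Bool × List Bool)) ×
        ((ℕ × List Bool) × (ℕ × ℕ)) => ((y.2.1.1, y.1.1), ((y.2.1.2, y.1.2.2), y.2.2)))
      ((q0.pair q2).pair ((q1.pair q4).pair q5))

theorem urel_mono {σ τ : List Bool} {z : List Bool × List Bool} (h : σ <+: τ)
    (hz : URel (σ, z)) : URel (τ, z) := by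
  obtain ⟨q, x⟩ := z
  rw [urel_iff] at hz ⊢
  obtain ⟨e, p, k, n, h1, h2⟩ := hz
  exact ⟨e, p, k, n, h1, acc_mono h h2⟩

theorem urel_unique {τ q x q' x' : List Bool} (h : URel (τ, (q, x))) (h' : URel (τ, (q', x')))
    (hq : q <+: q') : q = q' ∧ x = x' := by
  rw [urel_iff] at h h'
  obtain ⟨e, p, k, n, rfl, h2⟩ := h
  obtain ⟨e', p', k', n', rfl, h2'⟩ := h'
  obtain ⟨rfl, hp⟩ := replicate_aux hq
  obtain ⟨rfl, rfl⟩ := acc_unique h2 h2' hp
  exact ⟨rfl, rfl⟩

theorem urel_unique' {X : ℕ → Bool} {k k' : ℕ} {q x q' x' : List Bool}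
    (h : URel (pre X k, (q, x))) (h' : URel (pre X k', (q', x')))
    (hq : q <+: q') : q = q' ∧ x = x' :=
  urel_unique (urel_mono (pre_prefix X (le_max_left k k')) h)
    (urel_mono (pre_prefix X (le_max_right k k')) h') hq

theorem exists_index {F : List Bool × ℕ →. ℕ} (hF : Partrec F) :
    ∃ e : ℕ, ∀ σ p x, Encodable.encode x ∈ F (σ, Encodable.encode p) ↔
      ∃ n, Stg ((e, n), (σ, (p, x))) := by
  obtain ⟨c, hc⟩ := Code.exists_code.1 hF
  refine ⟨Encodable.encode c, fun σ p x => ?_⟩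
  unfold Stg
  simp only [Denumerable.ofNat_encode]
  have h1 : (Encodable.encode x ∈ F (σ, Encodable.encode p)) ↔
      Encodable.encode x ∈ Code.eval c (Encodable.encode (σ, Encodable.encode p)) := by
    rw [hc]
    simp only [Encodable.encodek, Part.coe_some, Part.bind_some, Part.mem_map_iff]
    constructor
    · intro h
      exact ⟨Encodable.encode x, h, rfl⟩
    · rintro ⟨b', h, e⟩
      have : b' = Encodable.encode x := e
      exact this ▸ h
  rw [h1, Code.evaln_complete]
  rfl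

end Univ

open Univ in
/-- A uniform family of optimal prefix-free machines relative to an oracle. -/
theorem exists_universal : ∃ U : List Bool × (List Bool × List Bool) → Prop, CE U ∧
    (∀ σ τ z, σ <+: τ → U (σ, z) → U (τ, z)) ∧
    ∀ X : ℕ → Bool, ∃ V : Machine, Optimal {orc X} V ∧
      ∀ q x, x ∈ V q ↔ ∃ k, U (pre X k, (q, x)) := by
  classical
  refine ⟨URel, ce_urel, fun σ τ z h hz => urel_mono h hz, fun X => ?_⟩
  have hce : CEIn X (fun z : List Bool × List Bool => ∃ k, URel (pre X k, z)) :=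
    ⟨URel, ce_urel, fun z => Iff.rfl⟩
  obtain ⟨V, hV, h1, h2⟩ := hce.select
  have hVU : ∀ q x, x ∈ V q ↔ ∃ k, URel (pre X k, (q, x)) := by
    intro q x
    refine ⟨h1 q x, fun h => ?_⟩
    have h3 := h2 q ⟨x, h⟩
    obtain ⟨k, hk⟩ := h
    obtain ⟨l, hl⟩ := h1 q _ (Part.get_mem h3)
    have h4 := (urel_unique' hk hl (List.prefix_refl q)).2
    rw [h4]
    exact Part.get_mem h3
  refine ⟨V, ⟨hV, ?_, fun N hN hNpf => ?_⟩, hVU⟩
  · intro r r' hr hr' h
    obtain ⟨k, hk⟩ := h1 r _ (Part.get_mem hr)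
    obtain ⟨l, hl⟩ := h1 r' _ (Part.get_mem hr')
    exact (urel_unique' hk hl h).1
  · obtain ⟨F, hF, hFm, hFX⟩ := normal_form_nat hN
    have hNF : ∀ p x, x ∈ N p ↔ ∃ k, Encodable.encode x ∈ F (pre X k, Encodable.encode p) := by
      intro p x
      rw [← hFX]
      simp only [Encodable.encodek, Part.coe_some, Part.bind_some, Part.mem_map_iff]
      constructor
      · intro h
        exact ⟨x, h, rfl⟩
      · rintro ⟨b', h, e⟩
        exact (Encodable.encode_injective e) ▸ h
    obtain ⟨e, he⟩ := exists_index hF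
    refine ⟨e + 1, fun p x hx => ⟨List.replicate e true ++ false :: p, ?_, ?_⟩⟩
    · rw [hVU]
      -- valid events comparable to `p`
      have hex : ∃ v, ∃ p' x' k n, v = Encodable.encode ((p', x'), (k, n)) ∧
          Stg ((e, n), (pre X k, (p', x'))) ∧ (p' <+: p ∨ p <+: p') := by
        obtain ⟨k, hk⟩ := (hNF p x).1 hx
        obtain ⟨n, hn⟩ := (he _ _ _).1 hk
        exact ⟨_, p, x, k, n, rfl, hn, Or.inl (List.prefix_refl p)⟩
      obtain ⟨p', x', k, n, hv, hn, hc⟩ := Nat.find_spec hex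
      have hx' : x' ∈ N p' := (hNF _ _).2 ⟨k, (he _ _ _).2 ⟨n, hn⟩⟩
      have hp : p' = p := by
        rcases hc with h3 | h3
        · exact hNpf p' p (Part.dom_iff_mem.2 ⟨_, hx'⟩) (Part.dom_iff_mem.2 ⟨_, hx⟩) h3
        · exact (hNpf p p' (Part.dom_iff_mem.2 ⟨_, hx⟩) (Part.dom_iff_mem.2 ⟨_, hx'⟩) h3).symm
      subst hp
      have hxx : x' = x := Part.mem_unique hx' hx
      subst hxx
      refine ⟨Encodable.encode ((p', x'), (k, n)), urel_iff.2 ⟨e, p', k, n, rfl, ?_, ?_, ?_⟩⟩
      · simp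
      · simp only [pre_take]
        rw [min_eq_left (le_code _ _ _ _)]
        exact hn
      · simp only
        rintro ⟨v, hv1, hv2⟩
        rw [← hv] at hv1
        obtain ⟨p'', x'', k', n', hv3, hk', hs, hc'⟩ := cmp_iff.1 hv2
        rw [pre_take, min_eq_left (by simpa using hk')] at hs
        exact Nat.find_min hex hv1 ⟨p'', x'', k', n', hv3, hs, hc'⟩
    · simp
      omega

end Pool.Agent.H.MP_95c08c_lc
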