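import Mathlib
import Pool.Agent.H.MP_95c08c_lc.Defs

/-!
Sums of dyadic weights and the Kraft inequality.
-/

set_option linter.all false

namespace Pool.Agent.H.MP_95c08c_lc

/-- The total weight of a list of lengths. -/
noncomputable def wsum (L : List ℕ) : ℝ := (L.map (fun k => ((2:ℝ)⁻¹)^k)).sum

@[simp] theorem wsum_nil : wsum [] = 0 := by simp [wsum]

@[simp] theorem wsum_cons (k : ℕ) (L : List ℕ) : wsum (k :: L) = ((2:ℝ)⁻¹)^k + wsum L := by
  simp [wsum]

@[simp] theorem wsum_append (L M : List ℕ) : wsum (L ++ M) = wsum L + wsum M := by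
  simp [wsum]

theorem wsum_nonneg (L : List ℕ) : 0 ≤ wsum L := by
  induction L with
  | nil => simp
  | cons k L ih => rw [wsum_cons]; positivity

theorem wsum_map_add (c : ℕ) (L : List ℕ) :
    wsum (L.map (fun k => k + c)) = ((2:ℝ)⁻¹)^c * wsum L := by
  induction L with
  | nil => simp
  | cons k L ih => rw [List.map_cons, wsum_cons, wsum_cons, ih, pow_add]; ring

theorem primrec_pow : Primrec₂ (fun a b : ℕ => a ^ b) :=
  Primrec₂.unpaired'.1 Nat.Primrec.pow

theorem primrec_sum : Primrec (fun L : List ℕ => L.sum) := by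
  have h : Primrec (fun L : List ℕ => L.foldl (fun a b => a + b) 0) := by
    refine Primrec.list_foldl (α := List ℕ) (β := ℕ) (σ := ℕ) (f := fun x => x)
      (g := fun _ => 0) (h := fun _ z => z.1 + z.2) .id (Primrec.const 0) ?_
    exact (Primrec.nat_add.comp (Primrec.fst.comp Primrec.snd) (Primrec.snd.comp Primrec.snd)).to₂
  refine h.of_eq fun L => ?_
  rw [List.sum_eq_foldl]

/-- Scaled total weight. -/
def nsum (D : ℕ) (L : List ℕ) : ℕ := (L.map (fun k => 2 ^ (D - k))).sum

theorem primrec_nsum : Primrec₂ nsum := by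
  unfold nsum
  have h : Primrec (fun z : ℕ × List ℕ => (z.2.map (fun k => 2 ^ (z.1 - k))).sum) := ?_
  · exact h.to₂
  refine primrec_sum.comp ?_
  refine Primrec.list_map (f := fun z : ℕ × List ℕ => z.2) (g := fun z k => 2 ^ (z.1 - k))
    Primrec.snd ?_
  exact (primrec_pow.comp (Primrec.const 2) (Primrec.nat_sub.comp
    (Primrec.fst.comp Primrec.fst) Primrec.snd)).to₂

theorem nsum_eq {D : ℕ} {L : List ℕ} (h : ∀ k ∈ L, k ≤ D) :
    (nsum D L : ℝ) = 2 ^ D * wsum L := by
  induction L with
  | nil => simp [nsum]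
  | cons k L ih =>
    have h1 : nsum D (k :: L) = 2 ^ (D - k) + nsum D L := by simp [nsum]
    rw [h1, wsum_cons, mul_add, Nat.cast_add, ih (fun j hj => h j (List.mem_cons_of_mem _ hj))]
    congr 1
    have hk : k ≤ D := h k List.mem_cons_self
    push_cast
    rw [inv_pow, ← div_eq_mul_inv, eq_div_iff (by positivity), ← pow_add]
    congr 1
    omega

theorem primrecPred_wsum_le :
    PrimrecPred (fun z : List ℕ × List ℕ => wsum z.1 ≤ wsum z.2) := by
  have hD : Primrec (fun z : List ℕ × List ℕ => z.1.sum + z.2.sum) :=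
    Primrec.nat_add.comp (primrec_sum.comp Primrec.fst) (primrec_sum.comp Primrec.snd)
  have h : PrimrecPred (fun z : List ℕ × List ℕ =>
      nsum (z.1.sum + z.2.sum) z.1 ≤ nsum (z.1.sum + z.2.sum) z.2) :=
    Primrec.nat_le.comp (primrec_nsum.comp hD Primrec.fst) (primrec_nsum.comp hD Primrec.snd)
  refine h.of_eq fun z => ?_
  obtain ⟨L, M⟩ := z
  simp only
  have h1 : (nsum (L.sum + M.sum) L : ℝ) = 2 ^ (L.sum + M.sum) * wsum L :=
    nsum_eq fun k hk => (List.single_le_sum (fun _ _ => Nat.zero_le _) k hk).trans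
      (Nat.le_add_right _ _)
  have h2 : (nsum (L.sum + M.sum) M : ℝ) = 2 ^ (L.sum + M.sum) * wsum M :=
    nsum_eq fun k hk => (List.single_le_sum (fun _ _ => Nat.zero_le _) k hk).trans
      (Nat.le_add_left _ _)
  rw [← Nat.cast_le (α := ℝ), h1, h2]
  exact mul_le_mul_iff_right₀ (by positivity)

theorem primrecPred_wsum_lt :
    PrimrecPred (fun z : List ℕ × List ℕ => wsum z.1 < wsum z.2) := by
  have h := (primrecPred_wsum_le.comp (Primrec.snd.pair Primrec.fst)).not
  refine h.of_eq fun z => ?_
  simp

/-- A prefix-free finite set of nonempty strings is uniquely decodable. -/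
theorem uniquelyDecodable_of_prefixFree {S : Set (List Bool)} (h0 : [] ∉ S)
    (h : ∀ p ∈ S, ∀ q ∈ S, p <+: q → p = q) : InformationTheory.UniquelyDecodable S := by
  intro L₁
  induction L₁ with
  | nil =>
    intro L₂ _ h2 e
    cases L₂ with
    | nil => rfl
    | cons q L =>
      exfalso
      have : q = [] := by
        have : q ++ L.flatten = [] := by simpa using e.symm
        exact (List.append_eq_nil_iff.1 this).1
      exact h0 (this ▸ h2 q List.mem_cons_self)
  | cons p L ih =>
    intro L₂ h1 h2 e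
    cases L₂ with
    | nil =>
      exfalso
      have : p = [] := by
        have : p ++ L.flatten = [] := by simpa using e
        exact (List.append_eq_nil_iff.1 this).1
      exact h0 (this ▸ h1 p List.mem_cons_self)
    | cons q M =>
      rw [List.flatten_cons, List.flatten_cons] at e
      have hpq : p = q := by
        rcases List.prefix_or_prefix_of_prefix (l₃ := p ++ L.flatten) (List.prefix_append _ _)
          (e ▸ List.prefix_append q M.flatten) with h3 | h3
        · exact h p (h1 p List.mem_cons_self) q (h2 q List.mem_cons_self) h3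
        · exact (h q (h2 q List.mem_cons_self) p (h1 p List.mem_cons_self) h3).symm
      subst hpq
      rw [ih M (fun w hw => h1 w (List.mem_cons_of_mem _ hw))
        (fun w hw => h2 w (List.mem_cons_of_mem _ hw)) (List.append_cancel_left e)]

/-- The Kraft inequality. -/
theorem kraft_set {S : Set (List Bool)} (h : ∀ p ∈ S, ∀ q ∈ S, p <+: q → p = q)
    (F : Finset (List Bool)) (hF : ∀ p ∈ F, p ∈ S) :
    ∑ p ∈ F, ((2:ℝ)⁻¹)^p.length ≤ 1 := by
  by_cases h0 : [] ∈ F
  · have h1 : F = {[]} := by
      ext p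
      simp only [Finset.mem_singleton]
      constructor
      · intro hp
        exact (h [] (hF _ h0) p (hF _ hp) List.nil_prefix).symm
      · rintro rfl; exact h0
    rw [h1]; simp
  · have h1 := InformationTheory.kraft_mcmillan_inequality (S := F)
      (uniquelyDecodable_of_prefixFree (S := (F : Set (List Bool))) (by simpa using h0)
        (fun p hp q hq => h p (hF _ hp) q (hF _ hq)))
    simpa using h1

theorem kraft {V : Machine} (hV : IsPrefixFree V) (F : Finset (List Bool))
    (hF : ∀ p ∈ F, (V p).Dom) : ∑ p ∈ F, ((2:ℝ)⁻¹)^p.length ≤ 1 :=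
  kraft_set (S := {p | (V p).Dom}) (fun p hp q hq => hV p q hp hq) F hF

end Pool.Agent.H.MP_95c08c_lc
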