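import Mathlib
import Pool.Agent.H.MP_95c08c_lc.Select
import Pool.Agent.H.MP_95c08c_lc.Weights
import Pool.Agent.H.MP_95c08c_lc.Strings

/-!
Lists of tokens, their binary codes and their costs; iteration of a step which is computable
in an oracle.
-/

set_option linter.all false

namespace Pool.Agent.H.MP_95c08c_lc

/-- A token is either a separator or a pair consisting of a program and a string. -/
abbrev Tok := Option (List Bool × List Bool)

/-- The block of a token. -/
def blk (t : Tok) : List Bool := List.replicate (Encodable.encode t) true ++ [false]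

/-- The binary code of a list of tokens. -/
def enc (l : List Tok) : List Bool := l.flatMap blk

/-- The lengths of the programs of the tokens of a list. -/
def lens (l : List Tok) : List ℕ := l.filterMap (fun t => t.map (fun z => z.1.length))

/-- The cost of a list of tokens. -/
noncomputable def cost (l : List Tok) : ℝ := wsum (lens l)

@[simp] theorem enc_nil : enc [] = [] := rfl

theorem enc_cons (t : Tok) (l : List Tok) : enc (t :: l) = blk t ++ enc l := by simp [enc]

theorem enc_append (l m : List Tok) : enc (l ++ m) = enc l ++ enc m := by simp [enc]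

theorem enc_prefix {l m : List Tok} (h : l <+: m) : enc l <+: enc m := by
  obtain ⟨k, rfl⟩ := h
  rw [enc_append]
  exact List.prefix_append _ _

theorem blk_prefix {t u : Tok} {σ τ : List Bool} (h : blk t ++ σ <+: blk u ++ τ) :
    t = u ∧ σ <+: τ := by
  have key : ∀ m n : ℕ, (List.replicate m true ++ [false]) ++ σ <+:
      (List.replicate n true ++ [false]) ++ τ → m = n ∧ σ <+: τ := by
    intro m
    induction m with
    | zero =>
      intro n h
      cases n with
      | zero => simpa using h
      | succ n => simp [List.replicate_succ] at h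
    | succ m ih =>
      intro n h
      cases n with
      | zero => simp [List.replicate_succ] at h
      | succ n =>
        simp only [List.replicate_succ, List.cons_append, List.cons_prefix_cons, true_and] at h
        obtain ⟨h1, h2⟩ := ih n h
        exact ⟨by rw [h1], h2⟩
  obtain ⟨h1, h2⟩ := key _ _ h
  exact ⟨Encodable.encode_injective h1, h2⟩

theorem enc_prefix_enc {l m : List Tok} (h : enc l <+: enc m) : l <+: m := by
  induction l generalizing m with
  | nil => exact List.nil_prefix
  | cons t l ih =>
    cases m with
    | nil =>
      exfalso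
      rw [enc_cons] at h
      have := h.length_le
      simp [blk] at this
    | cons u m =>
      rw [enc_cons, enc_cons] at h
      obtain ⟨rfl, h2⟩ := blk_prefix h
      rw [List.cons_prefix_cons]
      exact ⟨rfl, ih h2⟩

theorem length_le_enc (l : List Tok) : l.length ≤ (enc l).length := by
  induction l with
  | nil => simp
  | cons t l ih =>
    rw [enc_cons]
    simp only [List.length_cons, List.length_append, blk, List.length_replicate]
    simp only [List.length_nil]
    omega

@[simp] theorem cost_nil : cost [] = 0 := by simp [cost, lens]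

@[simp] theorem cost_cons_none (l : List Tok) : cost (none :: l) = cost l := by
  simp [cost, lens]

@[simp] theorem cost_cons_some (z : List Bool × List Bool) (l : List Tok) :
    cost (some z :: l) = ((2:ℝ)⁻¹)^z.1.length + cost l := by
  simp [cost, lens]

@[simp] theorem cost_append (l m : List Tok) : cost (l ++ m) = cost l + cost m := by
  simp [cost, lens]

theorem cost_nonneg (l : List Tok) : 0 ≤ cost l := wsum_nonneg _

/-- Distinct tokens of a list are paid for in its cost. -/
theorem sum_le_cost (l : List Tok) (F : Finset (List Bool × List Bool))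
    (hF : ∀ t ∈ F, (some t : Tok) ∈ l) :
    ∑ t ∈ F, ((2:ℝ)⁻¹)^t.1.length ≤ cost l := by
  classical
  induction l generalizing F with
  | nil =>
    have : F = ∅ := by
      rw [Finset.eq_empty_iff_forall_notMem]
      intro t ht
      simpa using hF t ht
    simp [this]
  | cons t l ih =>
    cases t with
    | none =>
      rw [cost_cons_none]
      refine ih F fun t ht => ?_
      simpa using hF t ht
    | some z =>
      rw [cost_cons_some]
      by_cases hz : z ∈ F
      · rw [← Finset.add_sum_erase F _ hz]
        refine add_le_add le_rfl (ih _ fun t ht => ?_)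
        rw [Finset.mem_erase] at ht
        have := hF t ht.2
        simp only [List.mem_cons, Option.some.injEq] at this
        exact this.resolve_left ht.1
      · have h1 := ih F fun t ht => by
          have := hF t ht
          simp only [List.mem_cons, Option.some.injEq] at this
          exact this.resolve_left (fun h => hz (h ▸ ht))
        have : (0:ℝ) ≤ ((2:ℝ)⁻¹)^z.1.length := by positivity
        linarith

theorem primrec_replicate_true : Primrec (fun n : ℕ => List.replicate n true) := by
  have h : Primrec (fun n : ℕ => (List.range n).map (fun _ => true)) :=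
    Primrec.list_map Primrec.list_range (Primrec.const true).to₂
  refine h.of_eq fun n => ?_
  rw [List.map_const', List.length_range]

theorem primrec_blk : Primrec blk := by
  unfold blk
  exact Primrec.list_append.comp (primrec_replicate_true.comp Primrec.encode)
    (Primrec.const [false])

theorem primrec_enc : Primrec enc := by
  unfold enc
  exact Primrec.list_flatMap Primrec.id (primrec_blk.comp Primrec.snd).to₂

theorem primrec_lens : Primrec lens := by
  unfold lens
  refine Primrec.listFilterMap Primrec.id ?_
  have h : Primrec (fun z : List Tok × Tok => z.2.map (fun y => y.1.length)) :=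
    Primrec.option_map Primrec.snd
      (Primrec.list_length.comp (Primrec.fst.comp Primrec.snd)).to₂
  exact h.to₂

theorem primrecPred_cost_le : PrimrecPred (fun z : List Tok × ℕ => cost z.1 ≤ ((2:ℝ)⁻¹)^z.2) := by
  have h := primrecPred_wsum_le.comp (f := fun z : List Tok × ℕ => (lens z.1, [z.2]))
    ((primrec_lens.comp Primrec.fst).pair (Primrec.list_cons.comp Primrec.snd (Primrec.const [])))
  refine h.of_eq fun z => ?_
  simp [cost]

/-- The infinite sequence coded by a growing sequence of lists of tokens. -/
def limSeq (L : ℕ → List Tok) : ℕ → Bool := fun i => ((enc (L (i + 1)))[i]?).getD false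

section limSeq

variable {L : ℕ → List Tok} (hL : ∀ n, L n <+: L (n + 1)) (hlen : ∀ n, n ≤ (L n).length)

include hL in
theorem L_mono {m n : ℕ} (h : m ≤ n) : L m <+: L n := by
  induction n, h using Nat.le_induction with
  | base => exact List.prefix_rfl
  | succ n _ ih => exact ih.trans (hL n)

include hL hlen in
theorem enc_eq_pre (n : ℕ) : enc (L n) = pre (limSeq L) (enc (L n)).length := by
  apply List.ext_getElem?
  intro i
  rw [pre_getElem?]
  by_cases hi : i < (enc (L n)).length
  · rw [if_pos hi]
    have h1 : i < (enc (L (i + 1))).length :=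
      (Nat.lt_succ_self i).trans_le ((hlen (i + 1)).trans (length_le_enc _))
    have h2 : (enc (L n))[i]? = (enc (L (i + 1)))[i]? := by
      rcases le_total n (i + 1) with h | h
      · obtain ⟨k, hk⟩ := enc_prefix (L_mono hL h)
        rw [← hk, List.getElem?_append_left hi]
      · obtain ⟨k, hk⟩ := enc_prefix (L_mono hL h)
        rw [← hk, List.getElem?_append_left h1]
    rw [h2]
    simp only [limSeq]
    rw [List.getElem?_eq_getElem h1]
    simp
  · rw [if_neg hi]
    exact List.getElem?_eq_none (not_lt.1 hi)

include hL hlen in
theorem pre_prefix_enc (k : ℕ) : pre (limSeq L) k <+: enc (L k) := by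
  rw [enc_eq_pre hL hlen k]
  exact pre_prefix _ ((hlen k).trans (length_le_enc _))

include hL hlen in
theorem prefix_of_enc {l : List Tok} {k : ℕ} (h : enc l = pre (limSeq L) k) :
    l <+: L k := by
  apply enc_prefix_enc
  rw [h]
  exact pre_prefix_enc hL hlen k

end limSeq

/-- Iteration of a step whose graph is c.e. in `X`. -/
theorem totIn_iterate {σ : Type} [Primcodable σ] {X : ℕ → Bool} {R : (ℕ × σ) × σ → Prop}
    (hR : CEIn X R) {f : ℕ × σ → σ} (hf : ∀ z y, R (z, y) ↔ y = f z) {s : ℕ → σ}
    (hs : ∀ n, s (n + 1) = f (n, s n)) : TotIn X (fun n => Encodable.encode (s n)) := by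
  classical
  let v : ℕ → ℕ := fun k => (Encodable.decode (α := ℕ × σ) k).elim 0 (fun z => Encodable.encode (f z))
  have hv : CEIn X (fun p : ℕ × ℕ => p.2 = v p.1) := by
    have h1 : CEIn X (fun p : ℕ × ℕ => ∃ w : (ℕ × σ) × σ,
        Encodable.decode (α := ℕ × σ) p.1 = some w.1 ∧ p.2 = Encodable.encode w.2 ∧ R w) := by
      apply CEIn.ex (S := fun y : (ℕ × ℕ) × ((ℕ × σ) × σ) =>
        Encodable.decode (α := ℕ × σ) y.1.1 = some y.2.1 ∧ y.1.2 = Encodable.encode y.2.2 ∧ R y.2)
      refine CEIn.and (CEIn.of_primrec ?_) (CEIn.and (CEIn.of_primrec ?_) (hR.comp Primrec.snd))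
      · exact Primrec.eq.comp (Primrec.decode.comp (Primrec.fst.comp Primrec.fst))
          (Primrec.option_some.comp (Primrec.fst.comp Primrec.snd))
      · exact Primrec.eq.comp (Primrec.snd.comp Primrec.fst)
          (Primrec.encode.comp (Primrec.snd.comp Primrec.snd))
    have h2 : CEIn X (fun p : ℕ × ℕ => Encodable.decode (α := ℕ × σ) p.1 = none ∧ p.2 = 0) := by
      refine CEIn.of_primrec (PrimrecPred.and ?_ ?_)
      · exact Primrec.eq.comp (Primrec.decode.comp Primrec.fst) (Primrec.const none)
      · exact Primrec.eq.comp Primrec.snd (Primrec.const 0)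
    refine (h1.or h2).of_eq ?_
    rintro ⟨k, y⟩
    simp only [v]
    cases hk : Encodable.decode (α := ℕ × σ) k with
    | none => simp
    | some z =>
      simp only [Option.some.injEq, reduceCtorEq, false_and, or_false, Option.elim_some]
      constructor
      · rintro ⟨⟨z', y'⟩, rfl, rfl, h⟩
        rw [(hf _ _).1 h]
      · rintro rfl
        exact ⟨(z, f z), rfl, rfl, (hf _ _).2 rfl⟩
  have hv' : TotIn X v := by
    have h1 : RecursiveIn {orc X} (fun n : ℕ => (Part.some (v n) : Part ℕ)) := by
      refine recursiveIn_of_ceIn (hv.of_eq ?_)
      rintro ⟨k, y⟩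
      simp
    exact RecursiveIn.iff_nat.1 h1
  have h2 := TotIn.prec (X := X) (u := fun _ => Encodable.encode (s 0))
    (v := fun z => v (Nat.pair z.unpair.2.unpair.1 z.unpair.2.unpair.2))
    (TotIn.prim (Nat.Primrec.const _)) (hv'.comp (TotIn.pair
      (TotIn.prim (Nat.Primrec.comp .left .right)) (TotIn.prim (Nat.Primrec.comp .right .right))))
  have h3 : TotIn X (fun k => Nat.pair 0 k) :=
    TotIn.pair (TotIn.prim (Nat.Primrec.const 0)) (TotIn.prim Nat.Primrec.id)
  refine (TotIn.comp h2 h3).of_eq fun k => ?_
  simp only [Nat.unpair_pair]
  induction k with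
  | zero => rfl
  | succ k ih =>
    simp only [ih, hs]
    have : Encodable.decode (α := ℕ × σ) (Nat.pair k (Encodable.encode (s k))) = some (k, s k) := by
      simp
    simp only [v, this, Option.elim_some]

end Pool.Agent.H.MP_95c08c_lc
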