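import Mathlib
import Pool.Agent.H.MP_95c08c_lc.Select
import Pool.Agent.H.MP_95c08c_lc.Weights

/-!
The Kraft-Chaitin (machine existence) theorem relative to an oracle, by Shannon-Fano-Elias coding.
-/

set_option linter.all false

namespace Pool.Agent.H.MP_95c08c_lc

/-- The number with binary representation `p`. -/
def num (p : List Bool) : ℕ := p.foldl (fun a b => 2 * a + b.toNat) 0

theorem num_nil : num [] = 0 := rfl

theorem num_append_singleton (p : List Bool) (b : Bool) :
    num (p ++ [b]) = 2 * num p + b.toNat := by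
  simp [num, List.foldl_append]

theorem primrec_num : Primrec num := by
  unfold num
  refine Primrec.list_foldl (α := List Bool) (β := Bool) (σ := ℕ) (f := fun x => x)
    (g := fun _ => 0) (h := fun _ z => 2 * z.1 + z.2.toNat) .id (Primrec.const 0) ?_
  have h1 : Primrec (fun z : List Bool × (ℕ × Bool) => 2 * z.2.1 + z.2.2.toNat) := by
    refine Primrec.nat_add.comp (Primrec.nat_mul.comp (Primrec.const 2)
      (Primrec.fst.comp Primrec.snd)) ?_
    exact (Primrec.dom_bool Bool.toNat).comp (Primrec.snd.comp Primrec.snd)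
  exact h1

theorem exists_num {l n : ℕ} (h : n < 2 ^ l) : ∃ p : List Bool, p.length = l ∧ num p = n := by
  induction l generalizing n with
  | zero =>
    refine ⟨[], rfl, ?_⟩
    rw [num_nil]
    simp at h
    exact h.symm
  | succ l ih =>
    obtain ⟨p, h1, h2⟩ := ih (n := n / 2) (by rw [pow_succ] at h; omega)
    by_cases h3 : n % 2 = 1
    · refine ⟨p ++ [true], by simp [h1], ?_⟩
      rw [num_append_singleton, h2, Bool.toNat_true]
      omega
    · refine ⟨p ++ [false], by simp [h1], ?_⟩
      rw [num_append_singleton, h2, Bool.toNat_false]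
      omega

theorem num_append (p q : List Bool) :
    num p * 2 ^ q.length ≤ num (p ++ q) ∧ num (p ++ q) < (num p + 1) * 2 ^ q.length := by
  induction q using List.reverseRecOn with
  | nil => simp
  | append_singleton q b ih =>
    rw [← List.append_assoc, num_append_singleton, List.length_append, List.length_singleton,
      pow_succ]
    have := Bool.toNat_le b
    obtain ⟨h1, h2⟩ := ih
    constructor
    · nlinarith
    · nlinarith

theorem num_injective {p q : List Bool} (hl : p.length = q.length) (h : num p = num q) :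
    p = q := by
  induction p using List.reverseRecOn generalizing q with
  | nil =>
    have : q = [] := List.length_eq_zero_iff.1 hl.symm
    exact this.symm
  | append_singleton p b ih =>
    induction q using List.reverseRecOn with
    | nil => simp at hl
    | append_singleton q' b' _ =>
      rw [num_append_singleton, num_append_singleton] at h
      have h2 := Bool.toNat_le b
      have h3 := Bool.toNat_le b'
      have hb : b.toNat = b'.toNat := by omega
      have hn : num p = num q' := by omega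
      have hbb : b = b' := by
        cases b <;> cases b' <;> simp_all
      rw [hbb, ih (by simpa using hl) hn]

/-- `p` is the code of length `l` for the dyadic number `2^-c * wsum L`. -/
def IsCode (c : ℕ) (L : List ℕ) (l : ℕ) (p : List Bool) : Prop :=
  p.length = l ∧ ((2:ℝ)⁻¹)^c * wsum L ≤ num p * ((2:ℝ)⁻¹)^l ∧
    num p * ((2:ℝ)⁻¹)^l < ((2:ℝ)⁻¹)^c * wsum L + ((2:ℝ)⁻¹)^l

theorem wsum_range_map (n k : ℕ) :
    wsum ((List.range n).map (fun _ => k)) = n * ((2:ℝ)⁻¹)^k := by
  induction n with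
  | zero => simp
  | succ n ih => rw [List.range_succ, List.map_append, wsum_append, ih]; simp; ring

theorem primrecPred_isCode (c : ℕ) :
    PrimrecPred (fun z : List ℕ × (ℕ × List Bool) => IsCode c z.1 z.2.1 z.2.2) := by
  have hA : Primrec (fun z : List ℕ × (ℕ × List Bool) => z.1.map (fun k => k + c)) :=
    Primrec.list_map (f := fun z : List ℕ × (ℕ × List Bool) => z.1) (g := fun _ k => k + c)
      Primrec.fst (Primrec.nat_add.comp Primrec.snd (Primrec.const c)).to₂
  have hB : Primrec (fun z : List ℕ × (ℕ × List Bool) =>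
      (List.range (num z.2.2)).map (fun _ => z.2.1)) :=
    Primrec.list_map (f := fun z : List ℕ × (ℕ × List Bool) => List.range (num z.2.2))
      (g := fun z _ => z.2.1)
      (Primrec.list_range.comp (primrec_num.comp (Primrec.snd.comp Primrec.snd)))
      ((Primrec.fst.comp Primrec.snd).comp Primrec.fst).to₂
  have h1 : PrimrecPred (fun z : List ℕ × (ℕ × List Bool) => z.2.2.length = z.2.1) :=
    Primrec.eq.comp (Primrec.list_length.comp (Primrec.snd.comp Primrec.snd))
      (Primrec.fst.comp Primrec.snd)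
  have h2 := primrecPred_wsum_le.comp (hA.pair hB)
  have h3 := primrecPred_wsum_lt.comp (hB.pair
    (Primrec.list_cons.comp (Primrec.fst.comp Primrec.snd) hA))
  refine (h1.and (h2.and h3)).of_eq fun z => ?_
  simp only [IsCode, wsum_map_add, wsum_range_map, wsum_cons]
  rw [add_comm (((2:ℝ)⁻¹)^z.2.1)]

theorem IsCode.unique {c : ℕ} {L : List ℕ} {l : ℕ} {p q : List Bool} (hp : IsCode c L l p)
    (hq : IsCode c L l q) : p = q := by
  obtain ⟨h1, h2, h3⟩ := hp
  obtain ⟨h1', h2', h3'⟩ := hq
  refine num_injective (h1.trans h1'.symm) ?_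
  have hl : (0:ℝ) < ((2:ℝ)⁻¹)^l := by positivity
  have h4 : (num p : ℝ) < num q + 1 := by
    have : (num p : ℝ) * ((2:ℝ)⁻¹)^l < (num q + 1) * ((2:ℝ)⁻¹)^l := by linarith
    exact lt_of_mul_lt_mul_right this hl.le
  have h5 : (num q : ℝ) < num p + 1 := by
    have : (num q : ℝ) * ((2:ℝ)⁻¹)^l < (num p + 1) * ((2:ℝ)⁻¹)^l := by linarith
    exact lt_of_mul_lt_mul_right this hl.le
  have h6 : num p < num q + 1 := by exact_mod_cast h4
  have h7 : num q < num p + 1 := by exact_mod_cast h5
  omega

theorem exists_isCode {c r : ℕ} {L : List ℕ} (h : wsum L + ((2:ℝ)⁻¹)^r ≤ 2 ^ c) :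
    ∃ p, IsCode c L (r + c + 1) p := by
  set a : ℝ := ((2:ℝ)⁻¹)^c * wsum L with ha
  set l := r + c + 1 with hl
  have ha0 : 0 ≤ a := mul_nonneg (by positivity) (wsum_nonneg L)
  have hlp : (0:ℝ) < ((2:ℝ)⁻¹)^l := by positivity
  have hll : ((2:ℝ)⁻¹)^l * 2^l = 1 := by
    rw [inv_pow]; exact inv_mul_cancel₀ (by positivity)
  have hcc : ((2:ℝ)⁻¹)^c * 2^c = 1 := by
    rw [inv_pow]; exact inv_mul_cancel₀ (by positivity)
  have h1 : a + 2 * ((2:ℝ)⁻¹)^l ≤ 1 := by
    have h2 := mul_le_mul_of_nonneg_left h (show (0:ℝ) ≤ ((2:ℝ)⁻¹)^c by positivity)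
    rw [hcc, mul_add, ← pow_add] at h2
    have h3 : 2 * ((2:ℝ)⁻¹)^l = ((2:ℝ)⁻¹)^(c + r) := by
      rw [hl, pow_succ, add_comm r c]; ring
    rw [h3]; exact h2
  have h4 : a * 2 ^ l + 2 ≤ 2 ^ l := by
    have := mul_le_mul_of_nonneg_right h1 (show (0:ℝ) ≤ 2^l by positivity)
    have h5 : 2 * ((2:ℝ)⁻¹)^l * 2^l = 2 := by rw [mul_assoc, hll, mul_one]
    rw [add_mul, one_mul, h5] at this
    exact this
  set n := ⌈a * 2 ^ l⌉₊ with hn
  have h5 : (n : ℝ) < a * 2 ^ l + 1 := Nat.ceil_lt_add_one (by positivity)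
  have h6 : a * 2 ^ l ≤ n := Nat.le_ceil _
  have h7 : n < 2 ^ l := by
    have : (n : ℝ) < 2 ^ l := by linarith
    exact_mod_cast this
  obtain ⟨p, hp1, hp2⟩ := exists_num h7
  refine ⟨p, hp1, ?_, ?_⟩
  · rw [hp2]
    have := mul_le_mul_of_nonneg_right h6 hlp.le
    rw [mul_assoc, mul_comm (2^l : ℝ), hll, mul_one] at this
    exact this
  · rw [hp2]
    have := mul_lt_mul_of_pos_right h5 hlp
    rw [add_mul, mul_assoc, mul_comm (2^l : ℝ), hll, mul_one, one_mul] at this
    exact this

/-- Prefixes of codes have larger intervals. -/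
theorem num_prefix {p q : List Bool} (h : p <+: q) :
    num p * ((2:ℝ)⁻¹)^p.length ≤ num q * ((2:ℝ)⁻¹)^q.length ∧
      num q * ((2:ℝ)⁻¹)^q.length < (num p + 1) * ((2:ℝ)⁻¹)^p.length := by
  obtain ⟨s, rfl⟩ := h
  obtain ⟨h1, h2⟩ := num_append p s
  have h1' : (num p : ℝ) * 2 ^ s.length ≤ num (p ++ s) := by exact_mod_cast h1
  have h2' : (num (p ++ s) : ℝ) < (num p + 1) * 2 ^ s.length := by exact_mod_cast h2
  have hss : ((2:ℝ)⁻¹)^s.length * 2^s.length = 1 := by
    rw [inv_pow]; exact inv_mul_cancel₀ (by positivity)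
  have hp : (0:ℝ) < ((2:ℝ)⁻¹)^p.length := by positivity
  have hs : (0:ℝ) < ((2:ℝ)⁻¹)^s.length := by positivity
  rw [List.length_append, pow_add]
  constructor
  · calc (num p : ℝ) * ((2:ℝ)⁻¹)^p.length
        = (num p * 2 ^ s.length) * (((2:ℝ)⁻¹)^p.length * ((2:ℝ)⁻¹)^s.length) := by
          rw [mul_mul_mul_comm, mul_comm ((2:ℝ)^s.length), hss, mul_one]
      _ ≤ _ := mul_le_mul_of_nonneg_right h1' (by positivity)
  · calc (num (p ++ s) : ℝ) * (((2:ℝ)⁻¹)^p.length * ((2:ℝ)⁻¹)^s.length)
        < ((num p + 1) * 2 ^ s.length) * (((2:ℝ)⁻¹)^p.length * ((2:ℝ)⁻¹)^s.length) :=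
          mul_lt_mul_of_pos_right h2' (by positivity)
      _ = _ := by
          rw [mul_mul_mul_comm, mul_comm ((2:ℝ)^s.length), hss, mul_one]

section main

variable {γ : Type} [Primcodable γ]

open Classical in
/-- The token announced by the event with number `v`, seen with the string `τ`. -/
noncomputable def ev (P : (List Bool × γ) × ℕ → Prop) (τ : List Bool) (v : ℕ) : Option γ :=
  (Encodable.decode (α := γ × (ℕ × ℕ)) v).bind fun e =>
    if P (((τ.take v).take e.2.1, e.1), e.2.2) then some e.1 else none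

theorem primrec_ev {P : (List Bool × γ) × ℕ → Prop} (hP : PrimrecPred P) : Primrec₂ (ev P) := by
  classical
  have hQ : PrimrecPred (fun z : (List Bool × ℕ) × (γ × (ℕ × ℕ)) =>
      P (((z.1.1.take z.1.2).take z.2.2.1, z.2.1), z.2.2.2)) := by
    refine hP.comp (f := fun z : (List Bool × ℕ) × (γ × (ℕ × ℕ)) =>
      (((z.1.1.take z.1.2).take z.2.2.1, z.2.1), z.2.2.2)) ?_
    refine Primrec.pair (Primrec.pair ?_ (Primrec.fst.comp Primrec.snd))
      (Primrec.snd.comp (Primrec.snd.comp Primrec.snd))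
    exact Primrec.list_take.comp (Primrec.fst.comp (Primrec.snd.comp Primrec.snd))
      (Primrec.list_take.comp (Primrec.snd.comp Primrec.fst) (Primrec.fst.comp Primrec.fst))
  have h : Primrec (fun a : List Bool × ℕ => (Encodable.decode (α := γ × (ℕ × ℕ)) a.2).bind fun e =>
      if P (((a.1.take a.2).take e.2.1, e.1), e.2.2) then some e.1 else none) :=
    Primrec.option_bind (f := fun a : List Bool × ℕ => Encodable.decode (α := γ × (ℕ × ℕ)) a.2)
      (g := fun (a : List Bool × ℕ) (e : γ × (ℕ × ℕ)) =>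
        if P (((a.1.take a.2).take e.2.1, e.1), e.2.2) then some e.1 else none)
      (Primrec.decode.comp Primrec.snd)
      (Primrec.to₂ (Primrec.ite hQ (Primrec.option_some.comp (Primrec.fst.comp Primrec.snd))
        (Primrec.const none)))
  refine h.of_eq fun a => ?_
  unfold ev
  rfl

open Classical in
/-- The token announced for the first time by the event with number `v`. -/
noncomputable def gv (P : (List Bool × γ) × ℕ → Prop) (τ : List Bool) (v : ℕ) : Option γ :=
  if ∃ v' < v, ev P τ v' = ev P τ v then none else ev P τ v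

theorem primrec_gv {P : (List Bool × γ) × ℕ → Prop} (hP : PrimrecPred P) : Primrec₂ (gv P) := by
  classical
  have h1 : PrimrecPred (fun z : ((List Bool × ℕ) × ℕ) => ev P z.1.1 z.2 = ev P z.1.1 z.1.2) :=
    Primrec.eq.comp ((primrec_ev hP).comp (Primrec.fst.comp Primrec.fst) Primrec.snd)
      ((primrec_ev hP).comp (Primrec.fst.comp Primrec.fst) (Primrec.snd.comp Primrec.fst))
  have h2 : PrimrecPred (fun a : List Bool × ℕ => ∃ v' < a.2, ev P a.1 v' = ev P a.1 a.2) :=
    (primrecPred_exists_lt (P := fun z : ((List Bool × ℕ) × ℕ) =>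
      ev P z.1.1 z.2 = ev P z.1.1 z.1.2) h1).comp
      (f := fun a : List Bool × ℕ => (a, a.2)) (Primrec.id.pair Primrec.snd)
  have h3 := Primrec.ite h2 (Primrec.const (none : Option γ)) (primrec_ev hP)
  exact h3

/-- The lengths requested by the events below `v`. -/
noncomputable def Lv (P : (List Bool × γ) × ℕ → Prop) (r : γ → ℕ) (τ : List Bool) (v : ℕ) :
    List ℕ :=
  (List.range v).filterMap (fun v' => (gv P τ v').map r)

theorem primrec_Lv {P : (List Bool × γ) × ℕ → Prop} (hP : PrimrecPred P) {r : γ → ℕ}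
    (hr : Primrec r) : Primrec₂ (Lv P r) := by
  have h : Primrec (fun a : List Bool × ℕ =>
      (List.range a.2).filterMap (fun v' => (gv P a.1 v').map r)) :=
    Primrec.listFilterMap (f := fun a : List Bool × ℕ => List.range a.2)
      (g := fun (a : List Bool × ℕ) (v' : ℕ) => (gv P a.1 v').map r)
      (Primrec.list_range.comp Primrec.snd)
      (Primrec.to₂ (Primrec.option_map (f := fun z : (List Bool × ℕ) × ℕ => gv P z.1.1 z.2)
        (g := fun _ t => r t)
        ((primrec_gv hP).comp (Primrec.fst.comp Primrec.fst) Primrec.snd)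
        (hr.comp Primrec.snd).to₂))
  exact h

variable {X : ℕ → Bool} {P : (List Bool × γ) × ℕ → Prop}

theorem ev_pre {k v : ℕ} (h : v ≤ k) : ev P (pre X k) v = ev P (pre X v) v := by
  unfold ev
  rw [pre_take, pre_take, min_eq_left h, min_self]

theorem gv_pre {k v : ℕ} (h : v ≤ k) : gv P (pre X k) v = gv P (pre X v) v := by
  have h1 : ∀ v' < v, ev P (pre X k) v' = ev P (pre X v) v' := by
    intro v' hv'
    rw [ev_pre (hv'.le.trans h), ev_pre hv'.le]
  have h2 : (∃ v' < v, ev P (pre X k) v' = ev P (pre X k) v) ↔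
      (∃ v' < v, ev P (pre X v) v' = ev P (pre X v) v) := by
    rw [ev_pre h]
    constructor
    · rintro ⟨v', hv', h3⟩
      exact ⟨v', hv', by rw [← h1 v' hv', h3]⟩
    · rintro ⟨v', hv', h3⟩
      exact ⟨v', hv', by rw [h1 v' hv', h3]⟩
  unfold gv
  rw [ev_pre h]
  rw [ev_pre h] at h2
  by_cases h4 : ∃ v' < v, ev P (pre X v) v' = ev P (pre X v) v
  · rw [if_pos h4, if_pos (h2.2 h4)]
  · rw [if_neg h4, if_neg (fun h5 => h4 (h2.1 h5))]

theorem Lv_pre {r : γ → ℕ} {k v : ℕ} (h : v ≤ k) : Lv P r (pre X k) v = Lv P r (pre X v) v := by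
  unfold Lv
  refine List.filterMap_congr fun v' hv' => ?_
  have hv : v' < v := List.mem_range.1 hv'
  rw [gv_pre (hv.le.trans h), gv_pre hv.le]

theorem gv_eq_some {v : ℕ} {t : γ} (h : gv P (pre X v) v = some t) :
    ev P (pre X v) v = some t ∧ ∀ v' < v, ev P (pre X v') v' ≠ some t := by
  unfold gv at h
  split_ifs at h with h1
  refine ⟨h, fun v' hv' h2 => h1 ⟨v', hv', ?_⟩⟩
  rw [ev_pre hv'.le, h2, h]

theorem gv_inj {v v' : ℕ} {t : γ} (h : gv P (pre X v) v = some t)
    (h' : gv P (pre X v') v' = some t) : v = v' := by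
  rcases lt_trichotomy v v' with h1 | h1 | h1
  · exact absurd (gv_eq_some h).1 ((gv_eq_some h').2 v h1)
  · exact h1
  · exact absurd (gv_eq_some h').1 ((gv_eq_some h).2 v' h1)

theorem exists_gv {v : ℕ} {t : γ} (h : ev P (pre X v) v = some t) :
    ∃ v, gv P (pre X v) v = some t := by
  classical
  have hex : ∃ v, ev P (pre X v) v = some t := ⟨v, h⟩
  refine ⟨Nat.find hex, ?_⟩
  have h1 := Nat.find_spec hex
  unfold gv
  rw [if_neg]
  · exact h1
  · rintro ⟨v', hv', h2⟩
    refine Nat.find_min hex hv' ?_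
    rw [ev_pre hv'.le, h1] at h2
    exact h2

theorem Lv_succ {r : γ → ℕ} (v : ℕ) :
    Lv P r (pre X (v + 1)) (v + 1) =
      Lv P r (pre X v) v ++ ((gv P (pre X v) v).map r).toList := by
  rw [← Lv_pre (X := X) (P := P) (r := r) (Nat.le_succ v)]
  unfold Lv
  rw [List.range_succ, List.filterMap_append]
  congr 1
  have h1 : gv P (pre X (v + 1)) v = gv P (pre X v) v := gv_pre (Nat.le_succ v)
  simp only [List.filterMap_cons, List.filterMap_nil, h1]
  cases gv P (pre X v) v <;> simp

end main

/-- The Kraft-Chaitin theorem. -/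
theorem kc {γ : Type} [Primcodable γ] {X : ℕ → Bool} {T : γ → Prop} (hT : CEIn X T)
    {r : γ → ℕ} {x : γ → List Bool} (hr : Primrec r) (hx : Primrec x) (c : ℕ)
    (hsum : ∀ F : Finset γ, (∀ t ∈ F, T t) → ∑ t ∈ F, ((2:ℝ)⁻¹)^(r t) ≤ 2^c) :
    ∃ N : Machine, RecursiveIn {orc X} N ∧ IsPrefixFree N ∧
      ∀ t, T t → ∃ p, x t ∈ N p ∧ p.length = r t + c + 1 := by
  classical
  obtain ⟨R, ⟨P, hP, hR⟩, hTR⟩ := hT
  have hTP : ∀ t, T t ↔ ∃ k m, P ((pre X k, t), m) := by
    intro t
    rw [hTR]
    simp only [hR]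
  -- events announce elements of `T`
  have evT : ∀ v t, ev P (pre X v) v = some t → T t := by
    intro v t h
    unfold ev at h
    rw [Option.bind_eq_some_iff] at h
    obtain ⟨e, he, h⟩ := h
    split_ifs at h with h1
    obtain rfl := Option.some.inj h
    rw [pre_take, pre_take] at h1
    exact (hTP _).2 ⟨_, _, h1⟩
  have Tev : ∀ t, T t → ∃ v, gv P (pre X v) v = some t := by
    intro t ht
    obtain ⟨k, m, h⟩ := (hTP t).1 ht
    refine exists_gv (v := Encodable.encode (t, (k, m))) ?_
    unfold ev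
    rw [Encodable.encodek, Option.bind_some, pre_take, pre_take, min_self]
    have h1 : k ≤ Encodable.encode (t, (k, m)) := by
      rw [Encodable.encode_prod_val, Encodable.encode_prod_val]
      exact (Nat.left_le_pair _ _).trans (Nat.right_le_pair _ _)
    simp only
    rw [min_eq_left h1, if_pos h]
  -- the weights
  have hfin : ∀ v, ∃ F : Finset γ, (∀ t ∈ F, ∃ v' < v, gv P (pre X v') v' = some t) ∧
      wsum (Lv P r (pre X v) v) = ∑ t ∈ F, ((2:ℝ)⁻¹)^(r t) := by
    intro v
    induction v with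
    | zero =>
      refine ⟨∅, by simp, ?_⟩
      simp [Lv]
    | succ v ih =>
      obtain ⟨F, hF1, hF2⟩ := ih
      rw [Lv_succ, wsum_append, hF2]
      cases hg : gv P (pre X v) v with
      | none =>
        refine ⟨F, fun t ht => ?_, by simp⟩
        obtain ⟨v', hv', h⟩ := hF1 t ht
        exact ⟨v', hv'.trans (Nat.lt_succ_self v), h⟩
      | some t =>
        have htF : t ∉ F := by
          intro ht
          obtain ⟨v', hv', h⟩ := hF1 t ht
          exact hv'.ne (gv_inj h hg)
        refine ⟨insert t F, fun s hs => ?_, ?_⟩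
        · rcases Finset.mem_insert.1 hs with rfl | hs
          · exact ⟨v, Nat.lt_succ_self v, hg⟩
          · obtain ⟨v', hv', h⟩ := hF1 s hs
            exact ⟨v', hv'.trans (Nat.lt_succ_self v), h⟩
        · rw [Finset.sum_insert htF]
          simp
          ring
  have hbound : ∀ v, wsum (Lv P r (pre X v) v) ≤ 2 ^ c := by
    intro v
    obtain ⟨F, hF1, hF2⟩ := hfin v
    rw [hF2]
    refine hsum F fun t ht => ?_
    obtain ⟨v', -, h⟩ := hF1 t ht
    exact evT _ _ (gv_eq_some h).1
  have hstep : ∀ v t, gv P (pre X v) v = some t →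
      wsum (Lv P r (pre X (v+1)) (v+1)) = wsum (Lv P r (pre X v) v) + ((2:ℝ)⁻¹)^(r t) := by
    intro v t h
    rw [Lv_succ, wsum_append, h]
    simp
  have hmono : ∀ v w, v ≤ w → wsum (Lv P r (pre X v) v) ≤ wsum (Lv P r (pre X w) w) := by
    intro v w hvw
    induction w, hvw using Nat.le_induction with
    | base => exact le_rfl
    | succ w _ ih =>
      refine ih.trans ?_
      rw [Lv_succ, wsum_append]
      exact le_add_of_nonneg_right (wsum_nonneg _)
  -- the relation
  let G : List Bool × List Bool → Prop := fun z => ∃ v t, gv P (pre X v) v = some t ∧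
    IsCode c (Lv P r (pre X v) v) (r t + c + 1) z.1 ∧ z.2 = x t
  -- the half-open interval of an event
  have hint : ∀ v t p, gv P (pre X v) v = some t →
      IsCode c (Lv P r (pre X v) v) (r t + c + 1) p →
      ((2:ℝ)⁻¹)^c * wsum (Lv P r (pre X v) v) ≤ num p * ((2:ℝ)⁻¹)^p.length ∧
      (num p + 1) * ((2:ℝ)⁻¹)^p.length < ((2:ℝ)⁻¹)^c * wsum (Lv P r (pre X (v+1)) (v+1)) := by
    rintro v t p hg ⟨h1, h2, h3⟩
    rw [h1]
    refine ⟨h2, ?_⟩
    rw [hstep v t hg, mul_add, ← pow_add]
    have h4 : 2 * ((2:ℝ)⁻¹)^(r t + c + 1) = ((2:ℝ)⁻¹)^(c + r t) := by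
      rw [pow_succ, add_comm (r t) c]; ring
    rw [← h4]
    linarith
  have key : ∀ v t p v' t' q, gv P (pre X v) v = some t →
      IsCode c (Lv P r (pre X v) v) (r t + c + 1) p → gv P (pre X v') v' = some t' →
      IsCode c (Lv P r (pre X v') v') (r t' + c + 1) q → p <+: q → v = v' := by
    intro v t p v' t' q hg hp hg' hq hpq
    obtain ⟨a1, a2⟩ := hint v t p hg hp
    obtain ⟨b1, b2⟩ := hint v' t' q hg' hq
    obtain ⟨c1, c2⟩ := num_prefix hpq
    have hq0 : (0:ℝ) < ((2:ℝ)⁻¹)^q.length := by positivity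
    have hc0 : (0:ℝ) < ((2:ℝ)⁻¹)^c := by positivity
    rcases lt_trichotomy v v' with h | h | h
    · exfalso
      have h1 := mul_le_mul_of_nonneg_left (hmono (v+1) v' h) hc0.le
      linarith
    · exact h
    · exfalso
      have h1 := mul_le_mul_of_nonneg_left (hmono (v'+1) v h) hc0.le
      have h2 : (num q : ℝ) * ((2:ℝ)⁻¹)^q.length < (num q + 1) * ((2:ℝ)⁻¹)^q.length := by
        rw [add_mul]; linarith
      linarith
  have key2 : ∀ p q y z, G (p, y) → G (q, z) → p <+: q → p = q ∧ y = z := by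
    rintro p q y z ⟨v, t, hg, hp, hy⟩ ⟨v', t', hg', hq, hz⟩ hpq
    simp only at hp hq hy hz
    obtain rfl := key v t p v' t' q hg hp hg' hq hpq
    rw [hg] at hg'
    obtain rfl := Option.some.inj hg'
    exact ⟨hp.unique hq, hy.trans hz.symm⟩
  let N : Machine := fun p => ⟨∃ y, G (p, y), fun h => h.choose⟩
  have hN : ∀ p y, y ∈ N p ↔ G (p, y) := by
    intro p y
    constructor
    · rintro ⟨h, rfl⟩
      exact h.choose_spec
    · intro h
      have hd : ∃ y, G (p, y) := ⟨y, h⟩
      exact ⟨hd, (key2 p p _ _ hd.choose_spec h (List.prefix_refl p)).2⟩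
  refine ⟨N, ?_, ?_, ?_⟩
  · apply recursiveIn_of_ceIn
    have hG : CEIn X G := by
      refine ⟨fun y => ∃ v : ℕ, v ≤ y.1.length ∧ ∃ t, gv P y.1 v = some t ∧
        (IsCode c (Lv P r y.1 v) (r t + c + 1) y.2.1 ∧ y.2.2 = x t), ?_, ?_⟩
      · apply CE.exists (R := fun z : (List Bool × (List Bool × List Bool)) × ℕ =>
          z.2 ≤ z.1.1.length ∧ ∃ t, gv P z.1.1 z.2 = some t ∧
            (IsCode c (Lv P r z.1.1 z.2) (r t + c + 1) z.1.2.1 ∧ z.1.2.2 = x t))
        apply CE.of_primrec
        refine PrimrecPred.and ?_ ?_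
        · exact Primrec.nat_le.comp Primrec.snd
            (Primrec.list_length.comp (Primrec.fst.comp Primrec.fst))
        · refine primrecPred_option (Q := fun w : ((List Bool × (List Bool × List Bool)) × ℕ) × γ =>
            IsCode c (Lv P r w.1.1.1 w.1.2) (r w.2 + c + 1) w.1.1.2.1 ∧ w.1.1.2.2 = x w.2)
            (f := fun z : (List Bool × (List Bool × List Bool)) × ℕ => gv P z.1.1 z.2) ?_ ?_
          · refine PrimrecPred.and ?_ ?_
            · refine (primrecPred_isCode c).comp
                (f := fun w : ((List Bool × (List Bool × List Bool)) × ℕ) × γ =>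
                  (Lv P r w.1.1.1 w.1.2, (r w.2 + c + 1, w.1.1.2.1))) ?_
              refine Primrec.pair ?_ (Primrec.pair ?_ ?_)
              · exact (primrec_Lv hP hr).comp
                  (Primrec.fst.comp (Primrec.fst.comp Primrec.fst))
                  (Primrec.snd.comp Primrec.fst)
              · exact Primrec.succ.comp (Primrec.nat_add.comp (hr.comp Primrec.snd)
                  (Primrec.const c))
              · exact Primrec.fst.comp (Primrec.snd.comp (Primrec.fst.comp Primrec.fst))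
            · exact Primrec.eq.comp
                (Primrec.snd.comp (Primrec.snd.comp (Primrec.fst.comp Primrec.fst)))
                (hx.comp Primrec.snd)
          · exact (primrec_gv hP).comp (Primrec.fst.comp Primrec.fst) Primrec.snd
      · rintro ⟨p, y⟩
        simp only [G]
        constructor
        · rintro ⟨v, t, h1, h2, h3⟩
          exact ⟨v, v, by simp, t, h1, h2, h3⟩
        · rintro ⟨k, v, hv, t, h1, h2, h3⟩
          rw [pre_length] at hv
          rw [gv_pre hv] at h1
          rw [Lv_pre hv] at h2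
          exact ⟨v, t, h1, h2, h3⟩
    exact hG.of_eq fun z => (hN z.1 z.2).symm
  · intro p q hp hq hpq
    exact (key2 p q _ _ hp.choose_spec hq.choose_spec hpq).1
  · intro t ht
    obtain ⟨v, hv⟩ := Tev t ht
    obtain ⟨p, hp⟩ := exists_isCode (c := c) (r := r t) (L := Lv P r (pre X v) v)
      (by rw [← hstep v t hv]; exact hbound (v + 1))
    exact ⟨p, (hN _ _).2 ⟨v, t, hv, hp, rfl⟩, hp.1⟩

end Pool.Agent.H.MP_95c08c_lc
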