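import Mathlib
import Pool.Agent.H.MP_95c08c_lc.KC
import Pool.Agent.H.MP_95c08c_lc.Strings

/-!
Consequences of the Kraft-Chaitin theorem: descriptions exist, and a criterion for K-triviality
relative to an oracle.
-/

set_option linter.all false

namespace Pool.Agent.H.MP_95c08c_lc

section

variable {X : ℕ → Bool}

theorem complexity_le {M : Machine} {p x : List Bool} (h : x ∈ M p) :
    complexity M x ≤ p.length := Nat.sInf_le ⟨p, h, rfl⟩

theorem complexity_spec {M : Machine} {x : List Bool} (h : ∃ p, x ∈ M p) :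
    ∃ p, x ∈ M p ∧ p.length = complexity M x := by
  obtain ⟨p, hp⟩ := h
  exact Nat.sInf_mem (s := {k | ∃ p, x ∈ M p ∧ p.length = k}) ⟨p.length, p, hp, rfl⟩

/-- A finite sum of different powers of `1/2`. -/
theorem sum_half_pow_le {ι : Type} (F : Finset ι) (f : ι → ℕ) (hf : Set.InjOn f F) :
    ∑ t ∈ F, ((2:ℝ)⁻¹)^(f t) ≤ 2 := by
  classical
  have h1 : ∑ t ∈ F, ((2:ℝ)⁻¹)^(f t) = ∑ n ∈ F.image f, ((2:ℝ)⁻¹)^n :=
    (Finset.sum_image hf).symm
  rw [h1]
  have h2 : Summable (fun n : ℕ => ((2:ℝ)⁻¹)^n) :=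
    summable_geometric_of_lt_one (by norm_num) (by norm_num)
  have h3 : ∑ n ∈ F.image f, ((2:ℝ)⁻¹)^n ≤ ∑' n : ℕ, ((2:ℝ)⁻¹)^n :=
    h2.sum_le_tsum _ (fun n _ => by positivity)
  rw [tsum_geometric_of_lt_one (by norm_num) (by norm_num)] at h3
  norm_num at h3 ⊢
  exact h3

theorem exists_description {V : Machine} (hV : Optimal {orc X} V) (x : List Bool) :
    ∃ p, x ∈ V p := by
  obtain ⟨N, hN, hNp, h⟩ := kc (γ := List Bool) (X := X) (T := fun _ => True)
    (CEIn.of_primrec (PrimrecPred.of_eq (Primrec.eq.comp (Primrec.const 0) (Primrec.const 0))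
      (by simp)))
    (r := Encodable.encode) (x := id) Primrec.encode Primrec.id 1 (fun F _ => by
      have := sum_half_pow_le F (Encodable.encode : List Bool → ℕ)
        (Encodable.encode_injective.injOn)
      simpa using this)
  obtain ⟨p, hp, -⟩ := h x trivial
  obtain ⟨c, hc⟩ := hV.2.2 N hN hNp
  obtain ⟨q, hq, -⟩ := hc p x hp
  exact ⟨q, hq⟩

theorem kTrivialRel_of_tokens {γ : Type} [Primcodable γ] {A : ℕ → Bool}
    {T : γ → Prop} (hT : CEIn X T)
    {r : γ → ℕ} {x : γ → List Bool} (hr : Primrec r) (hx : Primrec x) (c : ℕ)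
    (hsum : ∀ F : Finset γ, (∀ t ∈ F, T t) → ∑ t ∈ F, ((2:ℝ)⁻¹)^(r t) ≤ 2^c)
    {V : Machine} (hV : Optimal {orc X} V)
    (h : ∀ q n, natStr n ∈ V q → ∃ t, T t ∧ r t = q.length ∧ x t = pre A n) :
    KTrivialRel {orc X} A := by
  refine ⟨⟨V, hV⟩, fun V' hV' => ?_⟩
  obtain ⟨N, hN, hNp, hNT⟩ := kc hT hr hx c hsum
  obtain ⟨c1, h1⟩ := hV.2.2 V' hV'.1 hV'.2.1
  obtain ⟨c2, h2⟩ := hV'.2.2 N hN hNp
  refine ⟨c1 + c + 1 + c2, fun n => ?_⟩
  obtain ⟨q', hq', hl'⟩ := complexity_spec (exists_description hV' (natStr n))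
  obtain ⟨q, hq, hl⟩ := h1 _ _ hq'
  obtain ⟨t, hTt, hrt, hxt⟩ := h q n hq
  obtain ⟨p, hp, hpl⟩ := hNT t hTt
  obtain ⟨p', hp', hpl'⟩ := h2 _ _ hp
  rw [hxt] at hp'
  have := complexity_le hp'
  omega

theorem optimal_zer {V : Machine} : Optimal {orc zer} V ↔ Optimal ∅ V := by
  simp only [Optimal, recursiveIn_zer]

theorem kTrivial_iff_zer {A : ℕ → Bool} : KTrivial A ↔ KTrivialRel {orc zer} A := by
  simp only [KTrivial, KTrivialRel, optimal_zer]

end

end Pool.Agent.H.MP_95c08c_lc
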