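import Mathlib
import Pool.Agent.H.MP_95c08c_lc.Select
import Pool.Agent.H.MP_95c08c_lc.Strings
import Pool.Agent.H.MP_95c08c_lc.Weights
import Pool.Agent.H.MP_95c08c_lc.Universal
import Pool.Agent.H.MP_95c08c_lc.Triv

/-!
There is a noncomputable c.e. K-trivial set (cost function construction).
-/

set_option linter.all false

namespace Pool.Agent.H.MP_95c08c_lc

open Nat.Partrec (Code)

namespace CEK

/-- An event: a program, the number it describes, and a witness. -/
abbrev Ev : Type := (List Bool × ℕ) × ℕ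

/-- One term of the cost list. -/
noncomputable def item (P : Ev → Prop) [DecidablePred P] (x k : ℕ) : Option ℕ :=
  (Encodable.decode₂ Ev k).bind fun v => if P v ∧ x < v.1.2 then some v.1.1.length else none

/-- The list of the lengths of the programs of the events below `w` for numbers above `x`. -/
noncomputable def costL (P : Ev → Prop) [DecidablePred P] (x w : ℕ) : List ℕ :=
  (List.range w).filterMap (item P x)

/-- `e` may act at `w`. -/
def Good (P : Ev → Prop) [DecidablePred P] (e w : ℕ) : Prop :=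
  Code.evaln w (Denumerable.ofNat Code e) (Nat.pair e w.unpair.1) = some 0 ∧
    wsum (costL P (Nat.pair e w.unpair.1) w) ≤ wsum [e]

/-- `e` acts at `w`. -/
def Acts (P : Ev → Prop) [DecidablePred P] (e w : ℕ) : Prop :=
  Good P e w ∧ ¬ ∃ w' < w, Good P e w'

/-- The set enumerated by the stage `w`. -/
def InA (P : Ev → Prop) [DecidablePred P] (w x : ℕ) : Prop :=
  ∃ w' < w + 1, Acts P x.unpair.1 w' ∧ w'.unpair.1 = x.unpair.2

/-- The set. -/
def InAll (P : Ev → Prop) [DecidablePred P] (x : ℕ) : Prop :=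
  ∃ w, Acts P x.unpair.1 w ∧ w.unpair.1 = x.unpair.2

section primrec

variable {P : Ev → Prop} [DecidablePred P]

theorem primrec_costL (hP : PrimrecPred P) : Primrec₂ (costL P) := by
  unfold costL
  have h : Primrec (fun z : ℕ × ℕ => (List.range z.2).filterMap (item P z.1)) := by
    refine Primrec.listFilterMap (f := fun z : ℕ × ℕ => List.range z.2)
      (g := fun z k => item P z.1 k) (Primrec.list_range.comp Primrec.snd) ?_
    unfold item
    have h1 : Primrec (fun y : (ℕ × ℕ) × ℕ => (Encodable.decode₂ Ev y.2).bind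
        fun v => if P v ∧ y.1.1 < v.1.2 then some v.1.1.length else none) := by
      refine Primrec.option_bind (f := fun y : (ℕ × ℕ) × ℕ => Encodable.decode₂ Ev y.2)
        (g := fun y v => if P v ∧ y.1.1 < v.1.2 then some v.1.1.length else none)
        (Primrec.decode₂.comp Primrec.snd) ?_
      have hc : PrimrecPred (fun u : ((ℕ × ℕ) × ℕ) × Ev => P u.2 ∧ u.1.1.1 < u.2.1.2) := by
        refine PrimrecPred.and (hP.comp Primrec.snd) ?_
        exact Primrec.nat_lt.comp (Primrec.fst.comp (Primrec.fst.comp Primrec.fst))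
          (Primrec.snd.comp (Primrec.fst.comp Primrec.snd))
      have hs : Primrec (fun u : ((ℕ × ℕ) × ℕ) × Ev => some u.2.1.1.length) :=
        Primrec.option_some.comp (Primrec.list_length.comp
          (Primrec.fst.comp (Primrec.fst.comp Primrec.snd)))
      have hi : Primrec (fun u : ((ℕ × ℕ) × ℕ) × Ev =>
          if P u.2 ∧ u.1.1.1 < u.2.1.2 then some u.2.1.1.length else none) :=
        Primrec.ite hc hs (Primrec.const none)
      exact hi.to₂
    exact h1.to₂
  exact h.to₂

theorem primrec_good (hP : PrimrecPred P) : PrimrecPred (fun z : ℕ × ℕ => Good P z.1 z.2) := by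
  have hx : Primrec (fun z : ℕ × ℕ => Nat.pair z.1 z.2.unpair.1) :=
    Primrec₂.natPair.comp Primrec.fst (Primrec.fst.comp (Primrec.unpair.comp Primrec.snd))
  refine PrimrecPred.and ?_ ?_
  · refine Primrec.eq.comp ?_ (Primrec.const (some 0))
    exact Code.primrec_evaln.comp ((Primrec.snd.pair ((Primrec.ofNat Code).comp Primrec.fst)).pair hx)
  · refine primrecPred_wsum_le.comp (f := fun z : ℕ × ℕ =>
      (costL P (Nat.pair z.1 z.2.unpair.1) z.2, [z.1])) ?_
    exact ((primrec_costL hP).comp hx Primrec.snd).pair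
      (Primrec.list_cons.comp Primrec.fst (Primrec.const []))

theorem primrec_acts (hP : PrimrecPred P) : PrimrecPred (fun z : ℕ × ℕ => Acts P z.1 z.2) :=
  (primrec_good hP).and (primrecPred_exists_lt (primrec_good hP)).not

theorem primrec_inA (hP : PrimrecPred P) : PrimrecPred (fun z : ℕ × ℕ => InA P z.1 z.2) := by
  have h1 : PrimrecPred (fun y : ℕ × ℕ => Acts P y.1.unpair.1 y.2 ∧ y.2.unpair.1 = y.1.unpair.2) := by
    refine PrimrecPred.and ?_ ?_
    · exact (primrec_acts hP).comp (f := fun y : ℕ × ℕ => (y.1.unpair.1, y.2))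
        ((Primrec.fst.comp (Primrec.unpair.comp Primrec.fst)).pair Primrec.snd)
    · exact Primrec.eq.comp (Primrec.fst.comp (Primrec.unpair.comp Primrec.snd))
        (Primrec.snd.comp (Primrec.unpair.comp Primrec.fst))
  exact (primrecPred_exists_lt h1).comp (f := fun z : ℕ × ℕ => (z.2, z.1 + 1))
    (Primrec.snd.pair (Primrec.succ.comp Primrec.fst))

theorem ce_inAll (hP : PrimrecPred P) : CE (InAll P) := by
  refine ⟨fun y => Acts P y.1.unpair.1 y.2 ∧ y.2.unpair.1 = y.1.unpair.2, ?_, fun a => Iff.rfl⟩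
  refine PrimrecPred.and ?_ ?_
  · exact (primrec_acts hP).comp (f := fun y : ℕ × ℕ => (y.1.unpair.1, y.2))
      ((Primrec.fst.comp (Primrec.unpair.comp Primrec.fst)).pair Primrec.snd)
  · exact Primrec.eq.comp (Primrec.fst.comp (Primrec.unpair.comp Primrec.snd))
      (Primrec.snd.comp (Primrec.unpair.comp Primrec.fst))

end primrec

theorem acts_unique {P : Ev → Prop} [DecidablePred P] {e w w' : ℕ} (h : Acts P e w)
    (h' : Acts P e w') : w = w' := by
  rcases lt_trichotomy w w' with h1 | h1 | h1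
  · exact absurd ⟨w, h1, h.1⟩ h'.2
  · exact h1
  · exact absurd ⟨w', h1, h'.1⟩ h.2

theorem inA_inAll {P : Ev → Prop} [DecidablePred P] {w x : ℕ} (h : InA P w x) : InAll P x := by
  obtain ⟨w', -, h1⟩ := h
  exact ⟨w', h1⟩

/-- The cost as a finite sum. -/
theorem wsum_costL (P : Ev → Prop) [DecidablePred P] (x w : ℕ) :
    wsum (costL P x w) = ∑ v ∈ ((Finset.range w).preimage Encodable.encode
      (Encodable.encode_injective (α := Ev)).injOn).filter (fun v : Ev => P v ∧ x < v.1.2),
        ((2:ℝ)⁻¹)^v.1.1.length := by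
  have h1 : wsum (costL P x w) = ∑ k ∈ Finset.range w, wsum ((item P x k).toList) := by
    unfold costL
    induction w with
    | zero => simp
    | succ w ih =>
      rw [List.range_succ, List.filterMap_append, wsum_append, ih, Finset.sum_range_succ]
      cases h : item P x w <;> simp [h]
  rw [h1, Finset.sum_filter]
  rw [← Finset.sum_preimage (Encodable.encode (α := Ev)) (Finset.range w)
    (Encodable.encode_injective (α := Ev)).injOn (fun k => wsum ((item P x k).toList))]
  · refine Finset.sum_congr rfl fun v _ => ?_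
    simp only [item, Encodable.encodek₂, Option.bind_some]
    split_ifs <;> simp
  · intro k hk hr
    have : Encodable.decode₂ Ev k = none := by
      by_contra h
      obtain ⟨v, hv⟩ := Option.ne_none_iff_exists'.1 h
      exact hr ⟨v, Encodable.decode₂_eq_some.1 hv⟩
    simp [item, this]

/-- A bound for finite sums over events below `w` above `x`. -/
theorem sum_le_cost (P : Ev → Prop) [DecidablePred P] (x w : ℕ) (F : Finset Ev)
    (hF : ∀ v ∈ F, P v ∧ x < v.1.2 ∧ Encodable.encode v < w) :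
    ∑ v ∈ F, ((2:ℝ)⁻¹)^v.1.1.length ≤ wsum (costL P x w) := by
  rw [wsum_costL]
  refine Finset.sum_le_sum_of_subset_of_nonneg ?_ fun v _ _ => by positivity
  intro v hv
  obtain ⟨h1, h2, h3⟩ := hF v hv
  simp only [Finset.mem_filter, Finset.mem_preimage, Finset.mem_range]
  exact ⟨h3, h1, h2⟩

/-- The limit of the costs is zero. -/
theorem cost_small (P : Ev → Prop) [DecidablePred P]
    (hK : ∀ F : Finset Ev, (∀ v ∈ F, P v) → ∑ v ∈ F, ((2:ℝ)⁻¹)^v.1.1.length ≤ 1) (e : ℕ) :
    ∃ k, ∀ w, wsum (costL P (Nat.pair e k) w) ≤ wsum [e] := by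
  classical
  have hs : Summable (fun v : Ev => if P v then ((2:ℝ)⁻¹)^v.1.1.length else 0) := by
    refine summable_of_sum_le (c := 1) (fun v => by positivity) fun u => ?_
    rw [← Finset.sum_filter]
    exact hK _ fun v hv => (Finset.mem_filter.1 hv).2
  obtain ⟨s, hs⟩ := summable_iff_vanishing_norm.1 hs (((2:ℝ)⁻¹)^e) (by positivity)
  refine ⟨s.sup (fun v => v.1.2), fun w => ?_⟩
  have hk : ∀ v ∈ s, v.1.2 ≤ Nat.pair e (s.sup (fun v => v.1.2)) := fun v hv =>
    (Finset.le_sup (f := fun v : Ev => v.1.2) hv).trans (Nat.right_le_pair _ _)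
  set x := Nat.pair e (s.sup (fun v => v.1.2)) with hx
  rw [wsum_costL]
  set t := ((Finset.range w).preimage Encodable.encode
      (Encodable.encode_injective (α := Ev)).injOn).filter (fun v : Ev => P v ∧ x < v.1.2) with ht
  have hd : Disjoint t s := by
    rw [Finset.disjoint_left]
    intro v hv hvs
    have h1 := (Finset.mem_filter.1 hv).2.2
    exact absurd h1 (not_lt.2 (hk v hvs))
  have h2 := hs t hd
  have h3 : ∑ v ∈ t, (if P v then ((2:ℝ)⁻¹)^v.1.1.length else 0) =
      ∑ v ∈ t, ((2:ℝ)⁻¹)^v.1.1.length := by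
    refine Finset.sum_congr rfl fun v hv => ?_
    rw [if_pos (Finset.mem_filter.1 hv).2.1]
  rw [h3] at h2
  have h4 := (le_abs_self _).trans h2.le
  simpa using h4

/-- Noncomputability. -/
theorem not_computable (P : Ev → Prop) [DecidablePred P]
    (hK : ∀ F : Finset Ev, (∀ v ∈ F, P v) → ∑ v ∈ F, ((2:ℝ)⁻¹)^v.1.1.length ≤ 1)
    {A : ℕ → Bool} (hA : ∀ x, A x = true ↔ InAll P x) : ¬ Computable A := by
  classical
  intro hc
  have h1 : Computable (fun n => (A n).toNat) :=
    (Primrec.to_comp (Primrec.dom_bool Bool.toNat)).comp hc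
  obtain ⟨c, hc'⟩ := Code.exists_code.1 (Partrec.nat_iff.1 h1.partrec)
  have hce : ∀ n, (A n).toNat ∈ Code.eval c n := by
    intro n; rw [hc']; exact Part.mem_some _
  set e := Encodable.encode c with he
  have hof : Denumerable.ofNat Code e = c := Denumerable.ofNat_encode c
  by_cases hg : ∃ w, Good P e w
  · have hw : Acts P e (Nat.find hg) := ⟨Nat.find_spec hg, by
      rintro ⟨w', h1, h2⟩; exact Nat.find_min hg h1 h2⟩
    set w := Nat.find hg
    have hin : A (Nat.pair e w.unpair.1) = true := by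
      rw [hA]
      exact ⟨w, by simpa using hw, by simp⟩
    have h2 := hw.1.1
    rw [hof] at h2
    have h3 : 0 ∈ Code.eval c (Nat.pair e w.unpair.1) := Code.evaln_complete.2 ⟨w, h2⟩
    have h4 := Part.mem_unique h3 (hce _)
    rw [hin] at h4
    simp at h4
  · obtain ⟨k, hk⟩ := cost_small P hK e
    have hnot : A (Nat.pair e k) = false := by
      rw [← Bool.not_eq_true, hA]
      rintro ⟨w, h1, -⟩
      rw [Nat.unpair_pair] at h1
      exact hg ⟨w, h1.1⟩
    have h2 := hce (Nat.pair e k)
    rw [hnot] at h2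
    obtain ⟨t, ht⟩ := Code.evaln_complete.1 h2
    refine hg ⟨Nat.pair k t, ?_, ?_⟩
    · rw [hof, Nat.unpair_pair]
      exact Code.evaln_mono (Nat.right_le_pair k t) ht
    · rw [Nat.unpair_pair]
      exact hk _

/-- Tokens: an event at its own stage, or an event at a later stage at which something acts. -/
abbrev Tok : Type := Option (ℕ × ℕ) × Ev

/-- Valid tokens. -/
def TokOk (P : Ev → Prop) [DecidablePred P] (t : Tok) : Prop :=
  P t.2 ∧ ∀ z : ℕ × ℕ, t.1 = some z → Acts P z.1 z.2 ∧ Encodable.encode t.2 < z.2 ∧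
    Nat.pair z.1 z.2.unpair.1 < t.2.1.2

/-- The stage of a token. -/
def stage (t : Tok) : ℕ := (t.1.map Prod.snd).getD (Encodable.encode t.2)

theorem primrec_stage : Primrec stage :=
  Primrec.option_getD.comp
    (Primrec.option_map (f := fun t : Tok => t.1) (g := fun _ z => z.2) Primrec.fst
      (Primrec.snd.comp Primrec.snd).to₂)
    (Primrec.encode.comp Primrec.snd)

theorem primrec_tokOk {P : Ev → Prop} [DecidablePred P] (hP : PrimrecPred P) :
    PrimrecPred (TokOk P) := by
  have h1 : PrimrecPred (fun y : Tok × (ℕ × ℕ) => ¬ (Acts P y.2.1 y.2.2 ∧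
      Encodable.encode y.1.2 < y.2.2 ∧ Nat.pair y.2.1 y.2.2.unpair.1 < y.1.2.1.2)) := by
    refine PrimrecPred.not (PrimrecPred.and ?_ (PrimrecPred.and ?_ ?_))
    · exact (primrec_acts hP).comp (f := fun y : Tok × (ℕ × ℕ) => (y.2.1, y.2.2)) 
        ((Primrec.fst.comp Primrec.snd).pair (Primrec.snd.comp Primrec.snd))
    · exact Primrec.nat_lt.comp (Primrec.encode.comp (Primrec.snd.comp Primrec.fst))
        (Primrec.snd.comp Primrec.snd)
    · refine Primrec.nat_lt.comp (Primrec₂.natPair.comp (Primrec.fst.comp Primrec.snd)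
        (Primrec.fst.comp (Primrec.unpair.comp (Primrec.snd.comp Primrec.snd)))) ?_
      exact Primrec.snd.comp (Primrec.fst.comp (Primrec.snd.comp Primrec.fst))
  have h2 := (primrecPred_option h1 (f := fun t : Tok => t.1) Primrec.fst).not
  refine ((hP.comp (Primrec.snd (α := Option (ℕ × ℕ)) (β := Ev))).and h2).of_eq fun t => ?_
  unfold TokOk
  constructor
  · rintro ⟨h3, h4⟩
    refine ⟨h3, fun z hz => ?_⟩
    by_contra h5
    exact h4 ⟨z, hz, h5⟩
  · rintro ⟨h3, h4⟩
    refine ⟨h3, ?_⟩
    rintro ⟨z, hz, h5⟩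
    exact h5 (h4 z hz)

theorem sum_half_le (F : Finset ℕ) : ∑ i ∈ F, ((2:ℝ)⁻¹)^i ≤ 2 := by
  have h := tsum_geometric_two
  have h1 : Summable (fun n : ℕ => ((2:ℝ)⁻¹)^n) :=
    summable_geometric_of_lt_one (by norm_num) (by norm_num)
  have h2 := h1.sum_le_tsum F (fun i _ => by positivity)
  simp only [one_div] at h
  rwa [h] at h2

/-- The total weight of the tokens. -/
theorem tok_weight (P : Ev → Prop) [DecidablePred P]
    (hK : ∀ F : Finset Ev, (∀ v ∈ F, P v) → ∑ v ∈ F, ((2:ℝ)⁻¹)^v.1.1.length ≤ 1)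
    (F : Finset Tok) (hF : ∀ t ∈ F, TokOk P t) :
    ∑ t ∈ F, ((2:ℝ)⁻¹)^t.2.1.1.length ≤ 2^2 := by
  classical
  let φ : Option (ℕ × ℕ) → ℕ := fun o => match o with
    | none => 0
    | some z => z.1 + 1
  rw [← Finset.sum_fiberwise_of_maps_to (s := F) (t := F.image Prod.fst) (g := Prod.fst)
    (fun t ht => Finset.mem_image_of_mem _ ht)]
  have h1 : ∀ o ∈ F.image Prod.fst,
      ∑ t ∈ F with t.1 = o, ((2:ℝ)⁻¹)^t.2.1.1.length ≤ 2 * ((2:ℝ)⁻¹)^(φ o) := by
    intro o ho
    have hinj : Set.InjOn Prod.snd ((F.filter fun t => t.1 = o : Finset Tok) : Set Tok) := by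
      intro t ht t' ht' h
      simp only [Finset.coe_filter, Set.mem_ofPred_eq] at ht ht'
      exact Prod.ext (ht.2.trans ht'.2.symm) h
    have h2 : ∑ t ∈ F with t.1 = o, ((2:ℝ)⁻¹)^t.2.1.1.length =
        ∑ v ∈ (F.filter fun t => t.1 = o).image Prod.snd, ((2:ℝ)⁻¹)^v.1.1.length := by
      rw [Finset.sum_image hinj]
    rw [h2]
    cases o with
    | none =>
      refine (hK _ ?_).trans (by simp [φ])
      intro v hv
      simp only [Finset.mem_image, Finset.mem_filter] at hv
      obtain ⟨t, ⟨ht, -⟩, rfl⟩ := hv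
      exact (hF t ht).1
    | some z =>
      obtain ⟨e, w⟩ := z
      have hact : Acts P e w := by
        simp only [Finset.mem_image] at ho
        obtain ⟨t, ht, h3⟩ := ho
        exact ((hF t ht).2 (e, w) h3).1
      refine (sum_le_cost P (Nat.pair e w.unpair.1) w _ ?_).trans ?_
      · intro v hv
        simp only [Finset.mem_image, Finset.mem_filter] at hv
        obtain ⟨t, ⟨ht, h3⟩, rfl⟩ := hv
        obtain ⟨h4, h5⟩ := hF t ht
        obtain ⟨-, h6, h7⟩ := h5 _ h3
        exact ⟨h4, h7, h6⟩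
      · refine hact.1.2.trans ?_
        simp only [wsum_cons, wsum_nil, add_zero, φ, pow_succ]
        apply le_of_eq
        ring
  refine (Finset.sum_le_sum h1).trans ?_
  rw [← Finset.mul_sum]
  have hinj : Set.InjOn φ ((F.image Prod.fst : Finset (Option (ℕ × ℕ))) : Set (Option (ℕ × ℕ))) := by
    intro o ho o' ho' h
    simp only [Finset.coe_image, Set.mem_image, Finset.mem_coe] at ho ho'
    obtain ⟨t, ht, rfl⟩ := ho
    obtain ⟨t', ht', rfl⟩ := ho'
    cases h1 : t.1 with
    | none =>
      cases h2 : t'.1 with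
      | none => rfl
      | some z => rw [h1, h2] at h; simp [φ] at h
    | some z =>
      cases h2 : t'.1 with
      | none => rw [h1, h2] at h; simp [φ] at h
      | some z' =>
        rw [h1, h2] at h
        have h3 : z.1 = z'.1 := by simpa [φ] using h
        have h4 := ((hF t ht).2 z h1).1
        have h5 := ((hF t' ht').2 z' h2).1
        rw [h3] at h4
        have h6 := acts_unique h4 h5
        rw [show z = z' from Prod.ext h3 h6]
  have h2 : ∑ o ∈ F.image Prod.fst, ((2:ℝ)⁻¹)^(φ o) = ∑ i ∈ (F.image Prod.fst).image φ, ((2:ℝ)⁻¹)^i := by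
    rw [Finset.sum_image hinj]
  rw [h2]
  have := sum_half_le ((F.image Prod.fst).image φ)
  linarith

/-- Every event has a token carrying the right string. -/
theorem exists_tok (P : Ev → Prop) [DecidablePred P] (v : Ev) (hv : P v) :
    ∃ o, TokOk P (o, v) ∧ ∀ x < v.1.2, (InA P (stage (o, v)) x ↔ InAll P x) := by
  classical
  let D : Set ℕ := {w | Encodable.encode v < w ∧ ∃ e < v.1.2, Acts P e w ∧ Nat.pair e w.unpair.1 < v.1.2}
  have hfin : D.Finite := by
    refine Set.Finite.subset (s := ⋃ e ∈ Finset.range v.1.2, {w | Acts P e w}) ?_ ?_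
    · refine Set.Finite.biUnion (Finset.finite_toSet _) fun e _ => ?_
      exact Set.Subsingleton.finite fun w hw w' hw' => acts_unique hw hw'
    · rintro w ⟨-, e, he, h1, -⟩
      simp only [Set.mem_iUnion]
      exact ⟨e, Finset.mem_range.2 he, h1⟩
  have key : ∀ s, Encodable.encode v ≤ s → (∀ w ∈ D, w ≤ s) → ∀ x < v.1.2,
      (InA P s x ↔ InAll P x) := by
    intro s hs hD x hx
    refine ⟨inA_inAll, ?_⟩
    rintro ⟨w, h1, h2⟩
    refine ⟨w, ?_, h1, h2⟩
    by_contra h3
    have h4 : s < w := by omega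
    have h5 : w ∈ D := by
      refine ⟨hs.trans_lt h4, x.unpair.1, (Nat.unpair_left_le x).trans_lt hx, h1, ?_⟩
      rw [h2, Nat.pair_unpair]
      exact hx
    exact absurd (hD w h5) (not_le.2 h4)
  rcases D.eq_empty_or_nonempty with hD | hD
  · refine ⟨none, ⟨hv, fun z hz => by simp at hz⟩, ?_⟩
    exact key _ le_rfl (by simp [hD])
  · obtain ⟨w, hw, hmax⟩ := Set.exists_max_image D id hfin hD
    obtain ⟨h1, e, he, h2, h3⟩ := hw
    refine ⟨some (e, w), ⟨hv, ?_⟩, ?_⟩
    · intro z hz
      obtain rfl := Option.some.inj hz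
      exact ⟨h2, h1, h3⟩
    · exact key w h1.le hmax

end CEK

/-- There is a noncomputable c.e. K-trivial set. -/
theorem exists_ce_kTrivial : ∃ A : ℕ → Bool, KTrivial A ∧ REPred (fun n => A n = true) ∧
    ¬ Computable A := by
  classical
  obtain ⟨U, -, -, hU⟩ := exists_universal
  obtain ⟨V, hV, -⟩ := hU zer
  have hVp : Partrec V := recursiveIn_empty_iff.1 (recursiveIn_zer.1 hV.1)
  have hR : CE (fun z : List Bool × ℕ => natStr z.2 ∈ V z.1) :=
    (CE.graph hVp).comp (f := fun z : List Bool × ℕ => (z.1, natStr z.2))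
      (Primrec.fst.pair (primrec_natStr.comp Primrec.snd))
  obtain ⟨P, hP, hPR, hPu⟩ := hR.unique_witness
  have hK : ∀ F : Finset CEK.Ev, (∀ v ∈ F, P v) → ∑ v ∈ F, ((2:ℝ)⁻¹)^v.1.1.length ≤ 1 := by
    intro F hF
    have hinj : Set.InjOn (fun v : CEK.Ev => v.1.1) (F : Set CEK.Ev) := by
      rintro ⟨⟨p, m⟩, n⟩ hv ⟨⟨p', m'⟩, n'⟩ hv' h
      simp only at h
      subst h
      have h1 := hF _ hv
      have h2 := hF _ hv'
      have h3 := (hPR (p, m)).2 ⟨n, h1⟩
      have h4 := (hPR (p, m')).2 ⟨n', h2⟩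
      have h5 : m = m' := natStr_injective (Part.mem_unique h3 h4)
      subst h5
      rw [hPu _ _ _ h1 h2]
    have h1 := kraft hV.2.1 (F.image (fun v : CEK.Ev => v.1.1)) (by
      intro p hp
      simp only [Finset.mem_image] at hp
      obtain ⟨v, hv, rfl⟩ := hp
      exact Part.dom_iff_mem.2 ⟨_, (hPR v.1).2 ⟨v.2, hF v hv⟩⟩)
    rwa [Finset.sum_image hinj] at h1
  have hA : ∀ x, (fun x => decide (CEK.InAll P x)) x = true ↔ CEK.InAll P x := fun x => by simp
  refine ⟨fun x => decide (CEK.InAll P x), ?_, ?_, CEK.not_computable P hK hA⟩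
  · rw [kTrivial_iff_zer]
    have hx : Primrec (fun t : CEK.Tok => (List.range t.2.1.2).map
        (fun x => decide (CEK.InA P (CEK.stage t) x))) := by
      refine Primrec.list_map (f := fun t : CEK.Tok => List.range t.2.1.2)
        (g := fun t x => decide (CEK.InA P (CEK.stage t) x)) ?_ ?_
      · exact Primrec.list_range.comp (Primrec.snd.comp (Primrec.fst.comp Primrec.snd))
      · have h1 := (CEK.primrec_inA hP).comp (f := fun y : CEK.Tok × ℕ => (CEK.stage y.1, y.2))
          ((CEK.primrec_stage.comp Primrec.fst).pair Primrec.snd)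
        exact h1.decide.to₂
    refine kTrivialRel_of_tokens (X := zer) (T := CEK.TokOk P)
      (CEIn.of_primrec (CEK.primrec_tokOk hP)) (r := fun t => t.2.1.1.length)
      (x := fun t => (List.range t.2.1.2).map (fun x => decide (CEK.InA P (CEK.stage t) x)))
      ?_ hx 2 (CEK.tok_weight P hK) hV ?_
    · exact Primrec.list_length.comp (Primrec.fst.comp (Primrec.fst.comp Primrec.snd))
    · intro q n hq
      obtain ⟨k, hk⟩ := (hPR (q, n)).1 hq
      obtain ⟨o, ho, hs⟩ := CEK.exists_tok P ((q, n), k) hk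
      refine ⟨(o, ((q, n), k)), ho, rfl, ?_⟩
      unfold pre
      refine List.map_congr_left fun x hx' => ?_
      simp only [List.mem_range] at hx'
      simp only [hs x hx']
  · obtain ⟨g, hg, h1, h2⟩ := CE.uniformize (R := fun z : ℕ × ℕ => CEK.InAll P z.1)
      ((CEK.ce_inAll hP).comp Primrec.fst)
    refine (Partrec.dom_re hg).of_eq fun n => ?_
    simp only [decide_eq_true_eq]
    exact ⟨fun h => h1 n _ (Part.get_mem h), fun h => h2 n ⟨0, h⟩⟩

end Pool.Agent.H.MP_95c08c_lc
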