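import Mathlib
import Pool.Agent.H.MP_95c08c_lc.CE
import Pool.Agent.H.MP_95c08c_lc.Oracle

/-!
Paths through computably enumerable sets of strings of bounded width are computable.
-/

set_option linter.all false

namespace Pool.Agent.H.MP_95c08c_lc

namespace Narrow

open Filter

/-- The list of all strings of length `n`. -/
def allStr : ℕ → List (List Bool)
  | 0 => [[]]
  | n + 1 => (allStr n).flatMap (fun σ => [σ ++ [false], σ ++ [true]])

theorem mem_allStr {n : ℕ} {σ : List Bool} : σ ∈ allStr n ↔ σ.length = n := by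
  induction n generalizing σ with
  | zero => simp [allStr]
  | succ n ih =>
    simp only [allStr, List.mem_flatMap, List.mem_cons, List.not_mem_nil, or_false]
    constructor
    · rintro ⟨τ, hτ, rfl | rfl⟩ <;> simp [ih.1 hτ]
    · intro h
      rcases List.eq_nil_or_concat σ with h0 | ⟨τ, b, rfl⟩
      · subst h0; simp at h
      · refine ⟨τ, ih.2 (by simpa using h), ?_⟩
        cases b <;> simp

theorem nodup_allStr (n : ℕ) : (allStr n).Nodup := by
  induction n with
  | zero => simp [allStr]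
  | succ n ih =>
    rw [allStr, List.nodup_flatMap]
    refine ⟨fun σ _ => by simp, ?_⟩
    refine List.Pairwise.imp (R := fun σ τ => σ ≠ τ) ?_ ih
    intro σ τ h
    simp only [Function.onFun, List.disjoint_left, List.mem_cons, List.not_mem_nil, or_false]
    rintro ρ (rfl | rfl) (h1 | h1)
    · exact h (List.append_inj_left' h1 rfl)
    · exact h (List.append_inj_left' h1 rfl)
    · exact h (List.append_inj_left' h1 rfl)
    · exact h (List.append_inj_left' h1 rfl)

theorem primrec_allStr : Primrec allStr := by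
  have h1 : Primrec (fun L : List (List Bool) =>
      L.flatMap (fun σ => [σ ++ [false], σ ++ [true]])) := by
    refine Primrec.list_flatMap (f := fun L : List (List Bool) => L)
      (g := fun _ σ => [σ ++ [false], σ ++ [true]]) .id ?_
    exact Primrec.to₂ (Primrec.list_cons.comp
      (Primrec.list_append.comp Primrec.snd (Primrec.const [false]))
      (Primrec.list_cons.comp (Primrec.list_append.comp Primrec.snd (Primrec.const [true]))
        (Primrec.const [])))
  have h2 := Primrec.nat_rec₁ (f := fun (_ : ℕ) (L : List (List Bool)) =>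
    L.flatMap (fun σ => [σ ++ [false], σ ++ [true]])) [[]] (h1.comp Primrec.snd).to₂
  refine h2.of_eq fun n => ?_
  induction n with
  | zero => rfl
  | succ n ih => rw [allStr, ← ih]

theorem closed_pre (Q : List Bool → Prop) (m : ℕ) : IsClosed {Z : ℕ → Bool | Q (pre Z m)} := by
  have h1 : Continuous (fun (Z : ℕ → Bool) (i : Fin m) => Z i) :=
    continuous_pi fun i => continuous_apply _
  have h2 : IsClosed {u : Fin m → Bool | Q (List.ofFn u)} := (Set.toFinite _).isClosed
  have h3 := h2.preimage h1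
  have h4 : ∀ Z : ℕ → Bool, pre Z m = List.ofFn (fun i : Fin m => Z i) := by
    intro Z
    apply List.ext_getElem
    · simp
    · intro i h1 h2
      simp [pre]
  have h5 : {Z : ℕ → Bool | Q (pre Z m)} =
      (fun (Z : ℕ → Bool) (i : Fin m) => Z i) ⁻¹' {u : Fin m → Bool | Q (List.ofFn u)} := by
    ext Z
    simp only [Set.mem_setOf_eq, Set.mem_preimage, h4]
  rw [h5]
  exact h3

theorem ne_pre {Z Z' : ℕ → Bool} (h : Z ≠ Z') : ∀ᶠ n in atTop, pre Z n ≠ pre Z' n := by
  obtain ⟨i, hi⟩ := Function.ne_iff.1 h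
  filter_upwards [eventually_gt_atTop i] with n hn e
  have h1 : (pre Z n)[i]? = (pre Z' n)[i]? := by rw [e]
  rw [pre_getElem?, pre_getElem?, if_pos hn, if_pos hn] at h1
  exact hi (Option.some.inj h1)

/-- There are at least `j` strings of length `m` in `S`. -/
def Big (S : List Bool → Prop) (j m : ℕ) : Prop :=
  ∃ F : Finset (List Bool), (∀ σ ∈ F, S σ ∧ σ.length = m) ∧ j ≤ F.card

theorem exists_k {S : List Bool → Prop} (w : ℕ)
    (hw : ∀ m (F : Finset (List Bool)), (∀ σ ∈ F, S σ ∧ σ.length = m) → F.card ≤ w) :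
    ∃ k m0, (∃ᶠ m in atTop, Big S k m) ∧ ∀ m, m0 ≤ m → ¬ Big S (k + 1) m := by
  by_contra hcon
  push Not at hcon
  have h1 : ∀ k, ∃ᶠ m in atTop, Big S k m := by
    intro k
    induction k with
    | zero => exact Eventually.frequently (Eventually.of_forall fun m => ⟨∅, by simp, by simp⟩)
    | succ k ih =>
      rw [frequently_atTop]
      intro a
      obtain ⟨m, hm, hb⟩ := hcon k a ih
      exact ⟨m, hm, hb⟩
  obtain ⟨m, F, hF, hc⟩ := (h1 (w + 1)).exists
  have := hw m F hF
  omega

/-- The compactness statement. -/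
theorem exists_level {S : List Bool → Prop} (I : Set ℕ) (A : ℕ → Bool) (n1 : ℕ)
    (hiso : ∀ Z : ℕ → Bool, (∀ m ∈ I, S (pre Z m)) → pre Z n1 = pre A n1 → Z = A) (x : ℕ) :
    ∃ M, n1 ≤ M ∧ x < M ∧ ∀ σ : List Bool, σ.length = M → σ.take n1 = pre A n1 →
      (∀ m ∈ I, m ≤ M → S (σ.take m)) → σ[x]? = some (A x) := by
  by_contra hcon
  push Not at hcon
  let Q : ℕ → List Bool → Prop := fun M τ => τ.take n1 = pre A n1 ∧ τ[x]? ≠ some (A x) ∧
    ∀ m ∈ I, m ≤ M → S (τ.take m)
  let C : ℕ → Set (ℕ → Bool) := fun M => {Z | Q M (pre Z (M + n1 + x + 1))}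
  have hpre : ∀ (Z : ℕ → Bool) (m n : ℕ), m ≤ n → (pre Z n).take m = pre Z m := by
    intro Z m n h
    rw [pre_take, min_eq_left h]
  have hC : ∀ M, C M = {Z | pre Z n1 = pre A n1 ∧ Z x ≠ A x ∧ ∀ m ∈ I, m ≤ M → S (pre Z m)} := by
    intro M
    ext Z
    simp only [C, Q, Set.mem_setOf_eq, pre_getElem?]
    rw [hpre _ _ _ (by omega), if_pos (by omega)]
    constructor
    · rintro ⟨h1, h2, h3⟩
      refine ⟨h1, fun e => h2 (by rw [e]), fun m hm hmM => ?_⟩
      have := h3 m hm hmM
      rwa [hpre _ _ _ (by omega)] at this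
    · rintro ⟨h1, h2, h3⟩
      refine ⟨h1, fun e => h2 (Option.some.inj e), fun m hm hmM => ?_⟩
      rw [hpre _ _ _ (by omega)]
      exact h3 m hm hmM
  have hne : ∀ M, (C M).Nonempty := by
    intro M
    obtain ⟨σ, h1, h2, h3, h4⟩ := hcon (M + n1 + x + 1) (by omega) (by omega)
    refine ⟨fun i => σ.getD i false, ?_⟩
    have h5 : ∀ m, m ≤ M + n1 + x + 1 → pre (fun i => σ.getD i false) m = σ.take m := by
      intro m hm
      apply List.ext_getElem
      · simp [h1, hm]
      · intro i hi hi'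
        have h6 : i < m := by simpa using hi
        have h7 : i < σ.length := by omega
        simp [pre, List.getElem?_eq_getElem h7]
    show Q M (pre (fun i => σ.getD i false) (M + n1 + x + 1))
    rw [h5 _ le_rfl, ← h1, List.take_length]
    exact ⟨h2, h4, fun m hm hmM => h3 m hm (by omega)⟩
  have hmono : ∀ M, C (M + 1) ⊆ C M := by
    intro M Z hZ
    rw [hC] at hZ ⊢
    exact ⟨hZ.1, hZ.2.1, fun m hm hmM => hZ.2.2 m hm (by omega)⟩
  have hcl : ∀ M, IsClosed (C M) := fun M => closed_pre _ _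
  obtain ⟨Z, hZ⟩ := IsCompact.nonempty_iInter_of_sequence_nonempty_isCompact_isClosed C hmono hne
    (hcl 0).isCompact hcl
  have hZ' : ∀ M, Z ∈ C M := fun M => Set.mem_iInter.1 hZ M
  have h0 := hZ' 0
  rw [hC] at h0
  refine h0.2.1 (congrFun (hiso Z (fun m hm => ?_) h0.1) x)
  have h1 := hZ' m
  rw [hC] at h1
  exact h1.2.2 m hm le_rfl

end Narrow

open Narrow Filter in
theorem computable_of_narrow {S : List Bool → Prop} (hS : CE S) (w : ℕ)
    (hw : ∀ m (F : Finset (List Bool)), (∀ σ ∈ F, S σ ∧ σ.length = m) → F.card ≤ w)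
    (A : ℕ → Bool) (hA : ∀ m, S (pre A m)) : Computable A := by
  classical
  obtain ⟨k, m0, hk, hm0⟩ := exists_k w hw
  obtain ⟨P, hP, hSP⟩ := hS
  let I : Set ℕ := {m | m0 ≤ m ∧ Big S k m}
  have hI : ∃ᶠ m in atTop, m ∈ I := by
    have := hk.and_eventually (eventually_ge_atTop m0)
    exact this.mono fun m hm => ⟨hm.2, hm.1⟩
  let PP : Set (ℕ → Bool) := {Z | ∀ m ∈ I, S (pre Z m)}
  have hfin : PP.Finite := by
    by_contra hinf
    obtain ⟨t, ht, htc⟩ := Set.Infinite.exists_subset_card_eq hinf (w + 1)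
    have h1 : ∀ᶠ n in atTop, ∀ Z ∈ t, ∀ Z' ∈ t, Z ≠ Z' → pre Z n ≠ pre Z' n := by
      rw [eventually_all_finset]
      intro Z _
      rw [eventually_all_finset]
      intro Z' _
      by_cases h : Z = Z'
      · exact Eventually.of_forall fun n h' => absurd h h'
      · exact (ne_pre h).mono fun n hn _ => hn
    obtain ⟨m, hm, hm'⟩ := (hI.and_eventually h1).exists
    have h2 := hw m (t.image fun Z => pre Z m) (by
      intro σ hσ
      obtain ⟨Z, hZ, rfl⟩ := Finset.mem_image.1 hσ
      exact ⟨ht hZ m hm, by simp⟩)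
    rw [Finset.card_image_of_injOn, htc] at h2
    · omega
    · intro Z hZ Z' hZ' e
      by_contra hne
      exact hm' Z hZ Z' hZ' hne e
  obtain ⟨n1, hn1⟩ : ∃ n1, ∀ Z ∈ PP, Z ≠ A → pre Z n1 ≠ pre A n1 := by
    have h1 : ∀ᶠ n in atTop, ∀ Z ∈ PP, Z ≠ A → pre Z n ≠ pre A n := by
      rw [eventually_all_finite hfin]
      intro Z _
      by_cases h : Z = A
      · exact Eventually.of_forall fun n h' => absurd h h'
      · exact (ne_pre h).mono fun n hn _ => hn
    exact h1.exists
  have hlev := exists_level (S := S) I A n1 (fun Z hZ he => by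
    by_contra h
    exact hn1 Z hZ h he)
  let SS : List Bool × ℕ → Prop := fun z => ∃ n < z.2, P (z.1, n)
  have hSS : PrimrecPred SS := primrecPred_exists_lt hP
  have hSSS : ∀ σ s, SS (σ, s) → S σ := by
    rintro σ s ⟨n, _, h⟩
    exact (hSP σ).2 ⟨n, h⟩
  let fil : ℕ → ℕ → List (List Bool) := fun m s => (allStr m).filter (fun σ => decide (SS (σ, s)))
  have hfil : Primrec₂ fil := by
    have h1 : PrimrecRel (fun (σ : List Bool) (s : ℕ) => SS (σ, s)) := hSS.comp
      (f := fun z : List Bool × ℕ => (z.1, z.2)) (Primrec.fst.pair Primrec.snd)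
    have h2 := h1.listFilter
    exact (h2.comp (primrec_allStr.comp Primrec.fst) Primrec.snd).to₂
  have hfmem : ∀ m s σ, σ ∈ fil m s ↔ σ.length = m ∧ SS (σ, s) := by
    intro m s σ
    simp only [fil, List.mem_filter, mem_allStr, decide_eq_true_eq]
  have hfnd : ∀ m s, (fil m s).Nodup := fun m s => (nodup_allStr m).filter _
  -- a complete level contains all strings of `S`
  have hfull : ∀ m s, m0 ≤ m → k ≤ (fil m s).length → ∀ σ, S σ → σ.length = m → SS (σ, s) := by
    intro m s hm hc σ hσ hl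
    by_contra hn
    refine hm0 m hm ⟨insert σ (fil m s).toFinset, ?_, ?_⟩
    · intro τ hτ
      rcases Finset.mem_insert.1 hτ with rfl | h
      · exact ⟨hσ, hl⟩
      · have h1 := (hfmem m s τ).1 (List.mem_toFinset.1 h)
        exact ⟨hSSS _ _ h1.2, h1.1⟩
    · rw [Finset.card_insert_of_notMem, List.toFinset_card_of_nodup (hfnd m s)]
      · omega
      · rw [List.mem_toFinset, hfmem]
        exact fun h => hn h.2
  let Q : List Bool × ℕ → Prop := fun z =>
    ∀ m ∈ List.range (z.1.length + 1), m0 ≤ m → k ≤ (fil m z.2).length → SS (z.1.take m, z.2)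
  have hQ : PrimrecPred Q := by
    have h1 : PrimrecRel (fun (m : ℕ) (z : List Bool × ℕ) =>
        m0 ≤ m → k ≤ (fil m z.2).length → SS (z.1.take m, z.2)) := by
      have e1 : PrimrecPred (fun y : ℕ × (List Bool × ℕ) => m0 ≤ y.1) :=
        Primrec.nat_le.comp (Primrec.const m0) Primrec.fst
      have e2 : PrimrecPred (fun y : ℕ × (List Bool × ℕ) => k ≤ (fil y.1 y.2.2).length) :=
        Primrec.nat_le.comp (Primrec.const k) (Primrec.list_length.comp
          (hfil.comp Primrec.fst (Primrec.snd.comp Primrec.snd)))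
      have e3 : PrimrecPred (fun y : ℕ × (List Bool × ℕ) => SS (y.2.1.take y.1, y.2.2)) :=
        hSS.comp ((Primrec.list_take.comp Primrec.fst (Primrec.fst.comp Primrec.snd)).pair
          (Primrec.snd.comp Primrec.snd))
      have e4 := (e1.not.or e2.not).or e3
      refine PrimrecPred.of_eq e4 fun y => ?_
      show ((¬ m0 ≤ y.1 ∨ ¬ k ≤ (fil y.1 y.2.2).length) ∨ SS (y.2.1.take y.1, y.2.2)) ↔
        (m0 ≤ y.1 → k ≤ (fil y.1 y.2.2).length → SS (y.2.1.take y.1, y.2.2))
      tauto
    exact h1.forall_mem_list.comp (Primrec.list_range.comp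
      (Primrec.succ.comp (Primrec.list_length.comp Primrec.fst))) Primrec.id
  let G : (ℕ × Bool) × (ℕ × ℕ) → Prop := fun z => n1 ≤ z.2.1 ∧
    ∀ σ ∈ allStr z.2.1, σ.take n1 = pre A n1 → Q (σ, z.2.2) → σ[z.1.1]? = some z.1.2
  have hG : PrimrecPred G := by
    have h1 : PrimrecRel (fun (σ : List Bool) (z : (ℕ × Bool) × (ℕ × ℕ)) =>
        σ.take n1 = pre A n1 → Q (σ, z.2.2) → σ[z.1.1]? = some z.1.2) := by
      have e1 : PrimrecPred (fun y : List Bool × ((ℕ × Bool) × (ℕ × ℕ)) =>
          y.1.take n1 = pre A n1) :=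
        Primrec.eq.comp (Primrec.list_take.comp (Primrec.const n1) Primrec.fst) (Primrec.const _)
      have e2 : PrimrecPred (fun y : List Bool × ((ℕ × Bool) × (ℕ × ℕ)) =>
          Q (y.1, y.2.2.2)) :=
        hQ.comp (Primrec.fst.pair (Primrec.snd.comp (Primrec.snd.comp Primrec.snd)))
      have e3 : PrimrecPred (fun y : List Bool × ((ℕ × Bool) × (ℕ × ℕ)) =>
          y.1[y.2.1.1]? = some y.2.1.2) :=
        Primrec.eq.comp (Primrec.list_getElem?.comp Primrec.fst
          (Primrec.fst.comp (Primrec.fst.comp Primrec.snd)))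
          (Primrec.option_some.comp (Primrec.snd.comp (Primrec.fst.comp Primrec.snd)))
      have e4 := (e1.not.or e2.not).or e3
      refine PrimrecPred.of_eq e4 fun y => ?_
      show ((¬ y.1.take n1 = pre A n1 ∨ ¬ Q (y.1, y.2.2.2)) ∨ y.1[y.2.1.1]? = some y.2.1.2) ↔
        (y.1.take n1 = pre A n1 → Q (y.1, y.2.2.2) → y.1[y.2.1.1]? = some y.2.1.2)
      tauto
    have h2 : PrimrecPred (fun z : (ℕ × Bool) × (ℕ × ℕ) => n1 ≤ z.2.1) :=
      Primrec.nat_le.comp (Primrec.const n1) (Primrec.fst.comp Primrec.snd)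
    exact h2.and (h1.forall_mem_list.comp (primrec_allStr.comp
      (Primrec.fst.comp Primrec.snd)) Primrec.id)
  obtain ⟨g, hg, hg1, hg2⟩ := (CE.exists (CE.of_primrec hG)).uniformize
  -- soundness
  have hsound : ∀ x b, (∃ z, G ((x, b), z)) → b = A x := by
    rintro x b ⟨⟨M, s⟩, h1, h2⟩
    have h3 := h2 (pre A M) (mem_allStr.2 (by simp)) (by rw [pre_take, min_eq_left h1]) (by
      intro m hm hm1 hm2
      have hm' : m ≤ M := by simpa [Nat.lt_succ_iff] using hm
      show SS ((pre A M).take m, s)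
      rw [pre_take, min_eq_left hm']
      exact hfull m s hm1 hm2 _ (hA m) (by simp))
    simp only [pre_getElem?] at h3
    split_ifs at h3
    exact (Option.some.inj h3).symm
  -- completeness
  have hcompl : ∀ x, ∃ z, G ((x, A x), z) := by
    intro x
    obtain ⟨M, hM1, hM2, hM3⟩ := hlev x
    have h1 : ∀ᶠ s in atTop, ∀ m ∈ Finset.range (M + 1), ∀ σ ∈ (allStr m).toFinset,
        S σ → SS (σ, s) := by
      rw [eventually_all_finset]
      intro m _
      rw [eventually_all_finset]
      intro σ _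
      by_cases hσ : S σ
      · obtain ⟨t, ht⟩ := (hSP σ).1 hσ
        filter_upwards [eventually_gt_atTop t] with s hs _
        exact ⟨t, hs, ht⟩
      · exact Eventually.of_forall fun s h => absurd h hσ
    obtain ⟨s, hs⟩ := h1.exists
    refine ⟨(M, s), hM1, ?_⟩
    intro σ hσ hσ1 hσQ
    have hl : σ.length = M := mem_allStr.1 hσ
    refine hM3 σ hl hσ1 fun m hm hmM => ?_
    have h2 : SS (σ.take m, s) := by
      refine hσQ m (by simp only [List.mem_range]; omega) hm.1 ?_
      obtain ⟨F, hF, hFc⟩ := hm.2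
      have h3 : F ⊆ (fil m s).toFinset := by
        intro τ hτ
        rw [List.mem_toFinset, hfmem]
        refine ⟨(hF τ hτ).2, hs m (by simp only [Finset.mem_range]; omega) τ ?_ (hF τ hτ).1⟩
        rw [List.mem_toFinset, mem_allStr]
        exact (hF τ hτ).2
      have h4 := Finset.card_le_card h3
      rw [List.toFinset_card_of_nodup (hfnd m s)] at h4
      exact hFc.trans h4
    exact hSSS _ _ h2
  refine Partrec.of_eq hg fun x => ?_
  have hd := hg2 x ⟨A x, hcompl x⟩
  have h1 := Part.get_mem hd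
  have h2 := hsound _ _ (hg1 _ _ h1)
  have h3 : A x ∈ g x := h2 ▸ h1
  exact Part.eq_some_iff.2 h3

end Pool.Agent.H.MP_95c08c_lc
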