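import Mathlib
import Pool.Agent.H.MP_95c08c_lc.Blocks

/-!
The computations that are attacked by a requirement, and families of extensions of small cost
with pairwise different outputs.
-/

set_option linter.all false

namespace Pool.Agent.H.MP_95c08c_lc

open Nat.Partrec (Code)

section general

variable {α β : Type} [Primcodable α] [Primcodable β]

theorem CE.forall_mem {R : α × β → Prop} (h : CE R) :
    CE (fun z : α × List β => ∀ b ∈ z.2, R (z.1, b)) := by
  classical
  obtain ⟨P, hP, hR⟩ := h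
  have h1 : PrimrecPred fun x : (α × β) × ℕ => ∃ n < x.2, P (x.1, n) := primrecPred_exists_lt hP
  have h2 : PrimrecRel (fun (b : β) (y : α × ℕ) => ∃ n < y.2, P ((y.1, b), n)) :=
    h1.comp (f := fun z : β × (α × ℕ) => ((z.2.1, z.1), z.2.2))
      (((Primrec.fst.comp Primrec.snd).pair Primrec.fst).pair (Primrec.snd.comp Primrec.snd))
  have h3 := h2.forall_mem_list
  refine ⟨fun y => ∀ b ∈ y.1.2, ∃ n < y.2, P ((y.1.1, b), n), ?_, ?_⟩
  · exact h3.comp (Primrec.snd.comp Primrec.fst) ((Primrec.fst.comp Primrec.fst).pair Primrec.snd)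
  · rintro ⟨a, l⟩
    simp only [hR]
    constructor
    · intro h
      induction l with
      | nil => exact ⟨0, by simp⟩
      | cons b l ih =>
        obtain ⟨N, hN⟩ := ih fun c hc => h c (List.mem_cons_of_mem _ hc)
        obtain ⟨n, hn⟩ := h b List.mem_cons_self
        refine ⟨max N (n + 1), fun c hc => ?_⟩
        rcases List.mem_cons.1 hc with rfl | hc
        · exact ⟨n, (Nat.lt_succ_self n).trans_le (le_max_right _ _), hn⟩
        · obtain ⟨k, hk, hP⟩ := hN c hc
          exact ⟨k, hk.trans_le (le_max_left _ _), hP⟩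
    · rintro ⟨N, hN⟩ b hb
      obtain ⟨n, -, h⟩ := hN b hb
      exact ⟨n, h⟩

theorem primrecPred_mem : PrimrecPred (fun z : α × List α => z.1 ∈ z.2) := by
  have h1 : PrimrecRel (fun a b : α => a = b) := Primrec.eq
  have h2 := h1.exists_mem_list
  refine (h2.comp Primrec.snd Primrec.fst).of_eq fun z => ?_
  simp

theorem primrecPred_nodup : PrimrecPred (fun l : List α => l.Nodup) := by
  classical
  have h0 : PrimrecRel (fun (j : ℕ) (y : ℕ × List α) => y.2[j]? ≠ y.2[y.1]?) := by
    refine PrimrecPred.not ?_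
    exact Primrec.eq.comp
      (Primrec.list_getElem?.comp (Primrec.snd.comp Primrec.snd) Primrec.fst)
      (Primrec.list_getElem?.comp (Primrec.snd.comp Primrec.snd) (Primrec.fst.comp Primrec.snd))
  have h1 : PrimrecRel (fun (n : ℕ) (y : ℕ × List α) => ∀ j < n, y.2[j]? ≠ y.2[y.1]?) :=
    (h0.forall_mem_list.comp (Primrec.list_range.comp Primrec.fst) Primrec.snd).of_eq (by simp)
  have h2 : PrimrecRel (fun (i : ℕ) (l : List α) => ∀ j < i, l[j]? ≠ l[i]?) :=
    h1.comp (f := fun z : ℕ × List α => z.1) Primrec.fst Primrec.id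
  have h3 : PrimrecRel (fun (n : ℕ) (l : List α) => ∀ i < n, ∀ j < i, l[j]? ≠ l[i]?) :=
    (h2.forall_mem_list.comp (Primrec.list_range.comp Primrec.fst) Primrec.snd).of_eq (by simp)
  have h4 : PrimrecPred (fun l : List α => ∀ i < l.length, ∀ j < i, l[j]? ≠ l[i]?) :=
    h3.comp Primrec.list_length Primrec.id
  refine h4.of_eq fun l => ?_
  rw [List.nodup_iff_getElem?_ne_getElem?]
  constructor
  · intro h i j hij hj
    exact h j hj i hij
  · intro h i hi j hj
    exact h j i hj hi

end general

/-- The computation with index `e` and oracle string `σ` produces the string `ρ` from its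
length. -/
def Psi (z : ℕ × List Bool × List Bool) : Prop :=
  Encodable.encode z.2.2 ∈
    (Denumerable.ofNat Code z.1).eval (Encodable.encode (z.2.1, z.2.2.length))

theorem ce_psi : CE Psi := by
  refine ⟨fun y => Nat.Partrec.Code.evaln y.2 (Denumerable.ofNat Code y.1.1)
    (Encodable.encode (y.1.2.1, y.1.2.2.length)) = some (Encodable.encode y.1.2.2), ?_, ?_⟩
  · refine Primrec.eq.comp
      (f := fun y : (ℕ × List Bool × List Bool) × ℕ => Nat.Partrec.Code.evaln y.2
        (Denumerable.ofNat Code y.1.1) (Encodable.encode (y.1.2.1, y.1.2.2.length)))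
      (g := fun y => some (Encodable.encode y.1.2.2)) ?_ ?_
    · refine Nat.Partrec.Code.primrec_evaln.comp ((Primrec.snd.pair ?_).pair ?_)
      · exact (Primrec.ofNat Code).comp (Primrec.fst.comp Primrec.fst)
      · exact Primrec.encode.comp ((Primrec.fst.comp (Primrec.snd.comp Primrec.fst)).pair
          (Primrec.list_length.comp (Primrec.snd.comp (Primrec.snd.comp Primrec.fst))))
    · exact Primrec.option_some.comp (Primrec.encode.comp (Primrec.snd.comp
        (Primrec.snd.comp Primrec.fst)))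
  · intro z
    unfold Psi
    rw [Nat.Partrec.Code.evaln_complete]
    rfl

/-- The extension `a` of `l` costs at most `2^{-r}`, and with it the computation
with index `r.unpair.1` produces `ρ`. -/
def Ext (z : (ℕ × List Tok) × (List Tok × List Bool)) : Prop :=
  cost z.2.1 ≤ ((2:ℝ)⁻¹)^z.1.1 ∧ Psi (z.1.1.unpair.1, enc (z.1.2 ++ z.2.1), z.2.2)

theorem ce_ext : CE Ext := by
  refine CE.and (CE.of_primrec ?_) ?_
  · exact primrecPred_cost_le.comp (f := fun z : (ℕ × List Tok) × (List Tok × List Bool) =>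
      (z.2.1, z.1.1)) ((Primrec.fst.comp Primrec.snd).pair (Primrec.fst.comp Primrec.fst))
  · exact ce_psi.comp (f := fun z : (ℕ × List Tok) × (List Tok × List Bool) =>
      (z.1.1.unpair.1, enc (z.1.2 ++ z.2.1), z.2.2))
      ((Primrec.fst.comp (Primrec.unpair.comp (Primrec.fst.comp Primrec.fst))).pair
        ((primrec_enc.comp (Primrec.list_append.comp (Primrec.snd.comp Primrec.fst)
          (Primrec.fst.comp Primrec.snd))).pair (Primrec.snd.comp Primrec.snd)))

/-- There are more than `w (r.unpair.2)` extensions of `l` of cost at most `2^{-r}` with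
pairwise different outputs of the same length. -/
def Split (w : ℕ → ℕ) (z : ℕ × List Tok) : Prop :=
  ∃ y : List (List Tok × List Bool) × ℕ, (y.1.length = w z.1.unpair.2 + 1 ∧
    (y.1.map Prod.snd).Nodup ∧ ∀ u ∈ y.1, u.2.length = y.2) ∧ ∀ u ∈ y.1, Ext (z, u)

theorem ce_split {w : ℕ → ℕ} (hw : Primrec w) : CE (Split w) := by
  classical
  unfold Split
  apply CE.exists (R := fun x : (ℕ × List Tok) × (List (List Tok × List Bool) × ℕ) =>
    (x.2.1.length = w x.1.1.unpair.2 + 1 ∧
    (x.2.1.map Prod.snd).Nodup ∧ ∀ u ∈ x.2.1, u.2.length = x.2.2) ∧ ∀ u ∈ x.2.1, Ext (x.1, u))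
  refine CE.and (CE.of_primrec (PrimrecPred.and ?_ (PrimrecPred.and ?_ ?_))) ?_
  · refine Primrec.eq.comp (f := fun x : (ℕ × List Tok) × (List (List Tok × List Bool) × ℕ) =>
      x.2.1.length) (g := fun x => w x.1.1.unpair.2 + 1) ?_ ?_
    · exact Primrec.list_length.comp (Primrec.fst.comp Primrec.snd)
    · exact Primrec.succ.comp (hw.comp (Primrec.snd.comp (Primrec.unpair.comp
        (Primrec.fst.comp Primrec.fst))))
  · refine primrecPred_nodup.comp (f := fun x : (ℕ × List Tok) ×
      (List (List Tok × List Bool) × ℕ) => x.2.1.map Prod.snd) ?_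
    exact Primrec.list_map (Primrec.fst.comp Primrec.snd) (Primrec.snd.comp Primrec.snd).to₂
  · have h1 : PrimrecRel (fun (u : List Tok × List Bool) (m : ℕ) => u.2.length = m) :=
      Primrec.eq.comp (Primrec.list_length.comp (Primrec.snd.comp Primrec.fst)) Primrec.snd
    exact h1.forall_mem_list.comp (Primrec.fst.comp Primrec.snd) (Primrec.snd.comp Primrec.snd)
  · exact ce_ext.forall_mem.comp (f := fun x : (ℕ × List Tok) ×
      (List (List Tok × List Bool) × ℕ) => (x.1, x.2.1))
      (Primrec.fst.pair (Primrec.fst.comp Primrec.snd))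

/-- If there is no splitting family, then the sets of possible outputs are small. -/
theorem card_le_of_not_split {w : ℕ → ℕ} {z : ℕ × List Tok} (h : ¬ Split w z) (m : ℕ)
    (F : Finset (List Bool)) (hF : ∀ σ ∈ F, (∃ a, Ext (z, (a, σ))) ∧ σ.length = m) :
    F.card ≤ w z.1.unpair.2 := by
  classical
  by_contra hc
  push Not at hc
  obtain ⟨G, hGF, hG⟩ := Finset.exists_subset_card_eq (Nat.succ_le_of_lt hc)
  have h1 : ∀ σ : List Bool, ∃ a, σ ∈ G → Ext (z, (a, σ)) := by
    intro σ
    by_cases hσ : σ ∈ G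
    · obtain ⟨⟨a, ha⟩, -⟩ := hF σ (hGF hσ)
      exact ⟨a, fun _ => ha⟩
    · exact ⟨[], fun h => absurd h hσ⟩
  choose a ha using h1
  apply h
  refine ⟨(G.toList.map (fun σ => (a σ, σ)), m), ⟨?_, ?_, ?_⟩, ?_⟩
  · simpa using hG
  · simp only [List.map_map]
    have : (Prod.snd ∘ fun σ => (a σ, σ)) = (id : List Bool → List Bool) := rfl
    rw [this, List.map_id]
    exact G.nodup_toList
  · intro u hu
    simp only [List.mem_map, Finset.mem_toList] at hu
    obtain ⟨σ, hσ, rfl⟩ := hu
    exact (hF σ (hGF hσ)).2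
  · intro u hu
    simp only [List.mem_map, Finset.mem_toList] at hu
    obtain ⟨σ, hσ, rfl⟩ := hu
    exact ha σ hσ

/-- A splitting family has a member whose output avoids a small set. -/
theorem exists_avoid {w : ℕ → ℕ} {S : ℕ × List Bool → Prop}
    (hcard : ∀ c m (F : Finset (List Bool)), (∀ σ ∈ F, S (c, σ) ∧ σ.length = m) → F.card ≤ w c)
    {z : ℕ × List Tok} (h : Split w z) :
    ∃ a ρ, Ext (z, (a, ρ)) ∧ ¬ S (z.1.unpair.2, ρ) := by
  classical
  obtain ⟨⟨L, m⟩, ⟨h1, h2, h3⟩, h4⟩ := h
  by_contra hc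
  push Not at hc
  have h5 := hcard z.1.unpair.2 m (L.map Prod.snd).toFinset (by
    intro σ hσ
    simp only [List.mem_toFinset, List.mem_map] at hσ
    obtain ⟨u, hu, rfl⟩ := hσ
    exact ⟨hc u.1 u.2 (h4 u hu), h3 u hu⟩)
  rw [List.toFinset_card_of_nodup h2, List.length_map] at h5
  simp only at h1 h5
  rw [h1] at h5
  exact absurd h5 (by simp)

end Pool.Agent.H.MP_95c08c_lc
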