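import Mathlib
import Pool.Agent.H.MP_95c08c_lc.Splits

/-!
The construction: the sequence of lists of tokens, computable in the halting problem.
-/

set_option linter.all false

namespace Pool.Agent.H.MP_95c08c_lc

open Nat.Partrec (Code)

/-- The first part of a step for the requirement `r`. -/
def APart (w : ℕ → ℕ) (g : ℕ × List Tok →. List Tok)
    (z : (ℕ × (List Tok × List ℕ)) × (List Tok × List ℕ)) : Prop :=
  ((z.1.1 ∉ z.1.2.2 ∧ z.2.2 = z.1.1 :: z.1.2.2) ∧ Split w (z.1.1, z.1.2.1) ∧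
    z.2.1 ∈ g (z.1.1, z.1.2.1)) ∨
  ((z.2.1 = [] ∧ z.2.2 = z.1.2.2) ∧ (z.1.1 ∈ z.1.2.2 ∨ ¬ Split w (z.1.1, z.1.2.1)))

/-- The second part of a step for the program `q`. -/
def BPart (U : List Bool × (List Bool × List Bool) → Prop)
    (z : (List Bool × List Tok) × List Tok) : Prop :=
  (∃ x, U (enc z.1.2, (z.1.1, x)) ∧
    (((some (z.1.1, pre halt (strNat x)) : Tok) ∈ z.1.2 ∧ z.2 = []) ∨
      ((some (z.1.1, pre halt (strNat x)) : Tok) ∉ z.1.2 ∧
        z.2 = [some (z.1.1, pre halt (strNat x))]))) ∨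
  (z.2 = [] ∧ ¬ ∃ x, U (enc z.1.2, (z.1.1, x)))

section

variable {w : ℕ → ℕ} {g : ℕ × List Tok →. List Tok}
  {U : List Bool × (List Bool × List Bool) → Prop}

theorem ceIn_aPart (hw : Primrec w)
    (hg : CEIn halt (fun p : (ℕ × List Tok) × List Tok => p.2 ∈ g p.1)) :
    CEIn halt (APart w g) := by
  have hmem : PrimrecPred (fun z : (ℕ × (List Tok × List ℕ)) × (List Tok × List ℕ) =>
      z.1.1 ∈ z.1.2.2) :=
    primrecPred_mem.comp (f := fun z : (ℕ × (List Tok × List ℕ)) × (List Tok × List ℕ) =>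
      (z.1.1, z.1.2.2)) ((Primrec.fst.comp Primrec.fst).pair
        (Primrec.snd.comp (Primrec.snd.comp Primrec.fst)))
  have hrl : Primrec (fun z : (ℕ × (List Tok × List ℕ)) × (List Tok × List ℕ) =>
      (z.1.1, z.1.2.1)) :=
    (Primrec.fst.comp Primrec.fst).pair (Primrec.fst.comp (Primrec.snd.comp Primrec.fst))
  have hsplit := ce_split hw
  refine CEIn.or (CEIn.and (CEIn.of_primrec ?_) (CEIn.and ?_ ?_))
    (CEIn.and (CEIn.of_primrec ?_) (CEIn.or (CEIn.of_primrec hmem) ?_))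
  · refine PrimrecPred.and hmem.not ?_
    exact Primrec.eq.comp (Primrec.snd.comp Primrec.snd) (Primrec.list_cons.comp
      (Primrec.fst.comp Primrec.fst) (Primrec.snd.comp (Primrec.snd.comp Primrec.fst)))
  · exact (CEIn.of_ce hsplit).comp hrl
  · exact hg.comp (f := fun z : (ℕ × (List Tok × List ℕ)) × (List Tok × List ℕ) =>
      ((z.1.1, z.1.2.1), z.2.1)) (hrl.pair (Primrec.fst.comp Primrec.snd))
  · refine PrimrecPred.and ?_ ?_
    · exact Primrec.eq.comp (Primrec.fst.comp Primrec.snd) (Primrec.const [])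
    · exact Primrec.eq.comp (Primrec.snd.comp Primrec.snd)
        (Primrec.snd.comp (Primrec.snd.comp Primrec.fst))
  · exact hsplit.compl_halt.comp hrl

theorem ceIn_bPart (hU : CE U) : CEIn halt (BPart U) := by
  have h1 : CEIn halt (fun z : (List Bool × List Tok) × List Tok => ∃ y : List Bool × List Bool,
      pre halt (strNat y.1) = y.2 ∧ U (enc z.1.2, (z.1.1, y.1)) ∧
      (((some (z.1.1, y.2) : Tok) ∈ z.1.2 ∧ z.2 = []) ∨
      ((some (z.1.1, y.2) : Tok) ∉ z.1.2 ∧ z.2 = [some (z.1.1, y.2)]))) := by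
    apply CEIn.ex (S := fun v : ((List Bool × List Tok) × List Tok) × (List Bool × List Bool) =>
      pre halt (strNat v.2.1) = v.2.2 ∧ U (enc v.1.1.2, (v.1.1.1, v.2.1)) ∧
      (((some (v.1.1.1, v.2.2) : Tok) ∈ v.1.1.2 ∧ v.1.2 = []) ∨
      ((some (v.1.1.1, v.2.2) : Tok) ∉ v.1.1.2 ∧ v.1.2 = [some (v.1.1.1, v.2.2)])))
    have htok : Primrec (fun v : ((List Bool × List Tok) × List Tok) × (List Bool × List Bool) =>
        (some (v.1.1.1, v.2.2) : Tok)) :=
      Primrec.option_some.comp ((Primrec.fst.comp (Primrec.fst.comp Primrec.fst)).pair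
        (Primrec.snd.comp Primrec.snd))
    have hmem : PrimrecPred (fun v : ((List Bool × List Tok) × List Tok) ×
        (List Bool × List Bool) => (some (v.1.1.1, v.2.2) : Tok) ∈ v.1.1.2) :=
      primrecPred_mem.comp (f := fun v : ((List Bool × List Tok) × List Tok) ×
        (List Bool × List Bool) => ((some (v.1.1.1, v.2.2) : Tok), v.1.1.2))
        (htok.pair (Primrec.snd.comp (Primrec.fst.comp Primrec.fst)))
    refine CEIn.and ?_ (CEIn.and ?_ (CEIn.of_primrec (PrimrecPred.or (hmem.and ?_)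
      (hmem.not.and ?_))))
    · exact CEIn.preEq.comp (f := fun v : ((List Bool × List Tok) × List Tok) ×
        (List Bool × List Bool) => (strNat v.2.1, v.2.2))
        ((primrec_strNat.comp (Primrec.fst.comp Primrec.snd)).pair (Primrec.snd.comp Primrec.snd))
    · exact (CEIn.of_ce hU).comp (f := fun v : ((List Bool × List Tok) × List Tok) ×
        (List Bool × List Bool) => (enc v.1.1.2, (v.1.1.1, v.2.1)))
        ((primrec_enc.comp (Primrec.snd.comp (Primrec.fst.comp Primrec.fst))).pair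
          ((Primrec.fst.comp (Primrec.fst.comp Primrec.fst)).pair
            (Primrec.fst.comp Primrec.snd)))
    · exact Primrec.eq.comp (Primrec.snd.comp Primrec.fst) (Primrec.const [])
    · exact Primrec.eq.comp (Primrec.snd.comp Primrec.fst)
        (Primrec.list_cons.comp htok (Primrec.const []))
  have h2 : CE (fun y : List Bool × List Tok => ∃ x, U (enc y.2, (y.1, x))) := by
    apply CE.exists (R := fun v : (List Bool × List Tok) × List Bool => U (enc v.1.2, (v.1.1, v.2)))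
    exact hU.comp (f := fun v : (List Bool × List Tok) × List Bool => (enc v.1.2, (v.1.1, v.2)))
      ((primrec_enc.comp (Primrec.snd.comp Primrec.fst)).pair
        ((Primrec.fst.comp Primrec.fst).pair Primrec.snd))
  have h3 : CEIn halt (fun z : (List Bool × List Tok) × List Tok =>
      z.2 = [] ∧ ¬ ∃ x, U (enc z.1.2, (z.1.1, x))) := by
    refine CEIn.and (CEIn.of_primrec ?_) (h2.compl_halt.comp Primrec.fst)
    exact Primrec.eq.comp Primrec.snd (Primrec.const [])
  refine (h1.or h3).of_eq fun z => or_congr ?_ Iff.rfl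
  constructor
  · rintro ⟨⟨x, s⟩, e, h, h'⟩
    simp only at e
    subst e
    exact ⟨x, h, h'⟩
  · rintro ⟨x, h, h'⟩
    exact ⟨(x, _), rfl, h, h'⟩

theorem aPart_fun (hgd : ∀ z, Split w z → (g z).Dom) :
    ∃ f : ℕ × (List Tok × List ℕ) → List Tok × List ℕ, ∀ z y, APart w g (z, y) ↔ y = f z := by
  classical
  have h : ∀ z : ℕ × (List Tok × List ℕ), ∃ y, ∀ y', APart w g (z, y') ↔ y' = y := by
    rintro ⟨r, l, D⟩
    by_cases h1 : r ∉ D ∧ Split w (r, l)
    · obtain ⟨a, ha⟩ := Part.dom_iff_mem.1 (hgd _ h1.2)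
      refine ⟨(a, r :: D), ?_⟩
      rintro ⟨a', D'⟩
      simp only [APart, Prod.mk.injEq]
      constructor
      · rintro (⟨⟨-, h3⟩, -, h4⟩ | ⟨-, h2 | h2⟩)
        · exact ⟨Part.mem_unique h4 ha, h3⟩
        · exact absurd h2 h1.1
        · exact absurd h1.2 h2
      · rintro ⟨rfl, rfl⟩
        exact Or.inl ⟨⟨h1.1, rfl⟩, h1.2, ha⟩
    · refine ⟨([], D), ?_⟩
      rintro ⟨a', D'⟩
      simp only [APart, Prod.mk.injEq]
      constructor
      · rintro (⟨⟨h2, -⟩, h3, -⟩ | ⟨h2, -⟩)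
        · exact absurd ⟨h2, h3⟩ h1
        · exact h2
      · intro h2
        refine Or.inr ⟨h2, ?_⟩
        by_contra h3
        push Not at h3
        exact h1 h3
  choose f hf using h
  exact ⟨f, hf⟩

theorem bPart_fun (hUf : ∀ τ q x x', U (τ, (q, x)) → U (τ, (q, x')) → x = x') :
    ∃ f : List Bool × List Tok → List Tok, ∀ z y, BPart U (z, y) ↔ y = f z := by
  classical
  have h : ∀ z : List Bool × List Tok, ∃ y, ∀ y', BPart U (z, y') ↔ y' = y := by
    rintro ⟨q, l⟩
    by_cases h1 : ∃ x, U (enc l, (q, x))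
    · obtain ⟨x, hx⟩ := h1
      by_cases h2 : (some (q, pre halt (strNat x)) : Tok) ∈ l
      · refine ⟨[], fun y' => ?_⟩
        simp only [BPart]
        constructor
        · rintro (⟨x', hx', h3⟩ | ⟨h3, -⟩)
          · obtain rfl := hUf _ _ _ _ hx hx'
            rcases h3 with ⟨-, h3⟩ | ⟨h3, -⟩
            · exact h3
            · exact absurd h2 h3
          · exact h3
        · rintro rfl
          exact Or.inl ⟨x, hx, Or.inl ⟨h2, rfl⟩⟩
      · refine ⟨[some (q, pre halt (strNat x))], fun y' => ?_⟩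
        simp only [BPart]
        constructor
        · rintro (⟨x', hx', h3⟩ | ⟨-, h3⟩)
          · obtain rfl := hUf _ _ _ _ hx hx'
            rcases h3 with ⟨h3, -⟩ | ⟨-, h3⟩
            · exact absurd h3 h2
            · exact h3
          · exact absurd ⟨x, hx⟩ h3
        · rintro rfl
          exact Or.inl ⟨x, hx, Or.inr ⟨h2, rfl⟩⟩
    · refine ⟨[], fun y' => ?_⟩
      simp only [BPart]
      constructor
      · rintro (⟨x', hx', -⟩ | ⟨h3, -⟩)
        · exact absurd ⟨x', hx'⟩ h1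
        · exact h3
      · rintro rfl
        exact Or.inr ⟨rfl, h1⟩
  choose f hf using h
  exact ⟨f, hf⟩

end

theorem exists_sequences {S : ℕ × List Bool → Prop} (hS : CEIn halt (fun z => ¬ S z))
    {w : ℕ → ℕ} (hw : Primrec w)
    (hcard : ∀ c m (F : Finset (List Bool)), (∀ σ ∈ F, S (c, σ) ∧ σ.length = m) → F.card ≤ w c)
    {U : List Bool × (List Bool × List Bool) → Prop} (hU : CE U)
    (hUf : ∀ τ q x x', U (τ, (q, x)) → U (τ, (q, x')) → x = x') :
    ∃ (L : ℕ → List Tok) (D : ℕ → List ℕ) (a b : ℕ → List Tok),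
      TotIn halt (fun n => Encodable.encode (L n)) ∧ L 0 = [] ∧ D 0 = [] ∧
      (∀ n, L (n + 1) = L n ++ a n ++ b n ++ [none]) ∧
      (∀ n, (n.unpair.1 ∉ D n ∧
          (∃ ρ, Ext ((n.unpair.1, L n), (a n, ρ)) ∧ ¬ S (n.unpair.1.unpair.2, ρ)) ∧
          D (n + 1) = n.unpair.1 :: D n) ∨
        ((n.unpair.1 ∈ D n ∨ ¬ Split w (n.unpair.1, L n)) ∧ a n = [] ∧ D (n + 1) = D n)) ∧
      (∀ n, BPart U ((natStr n.unpair.2, L n ++ a n), b n)) := by
  classical
  -- the selection function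
  have hR : CEIn halt (fun p : (ℕ × List Tok) × List Tok =>
      ∃ ρ, Ext (p.1, (p.2, ρ)) ∧ ¬ S (p.1.1.unpair.2, ρ)) := by
    apply CEIn.ex (S := fun y : ((ℕ × List Tok) × List Tok) × List Bool =>
      Ext (y.1.1, (y.1.2, y.2)) ∧ ¬ S (y.1.1.1.unpair.2, y.2))
    refine CEIn.and ?_ ?_
    · exact (CEIn.of_ce ce_ext).comp (f := fun y : ((ℕ × List Tok) × List Tok) × List Bool =>
        (y.1.1, (y.1.2, y.2))) ((Primrec.fst.comp Primrec.fst).pair
          ((Primrec.snd.comp Primrec.fst).pair Primrec.snd))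
    · exact hS.comp (f := fun y : ((ℕ × List Tok) × List Tok) × List Bool =>
        (y.1.1.1.unpair.2, y.2)) ((Primrec.snd.comp (Primrec.unpair.comp (Primrec.fst.comp
          (Primrec.fst.comp Primrec.fst)))).pair Primrec.snd)
  obtain ⟨g, hg, hg1, hg2⟩ := hR.select
  have hgd : ∀ z, Split w z → (g z).Dom := by
    intro z hz
    obtain ⟨a, ρ, h1, h2⟩ := exists_avoid hcard hz
    exact hg2 z ⟨a, ρ, h1, h2⟩
  obtain ⟨fA, hfA⟩ := aPart_fun (w := w) (g := g) hgd
  obtain ⟨fB, hfB⟩ := bPart_fun hUf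
  let f : ℕ × (List Tok × List ℕ) → List Tok × List ℕ := fun z =>
    (z.2.1 ++ (fA (z.1.unpair.1, z.2)).1 ++
      fB (natStr z.1.unpair.2, z.2.1 ++ (fA (z.1.unpair.1, z.2)).1) ++ [none],
      (fA (z.1.unpair.1, z.2)).2)
  let R : (ℕ × (List Tok × List ℕ)) × (List Tok × List ℕ) → Prop := fun y =>
    ∃ v : (List Tok × List ℕ) × List Tok, APart w g ((y.1.1.unpair.1, y.1.2), v.1) ∧
      BPart U ((natStr y.1.1.unpair.2, y.1.2.1 ++ v.1.1), v.2) ∧
      y.2 = (y.1.2.1 ++ v.1.1 ++ v.2 ++ [none], v.1.2)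
  have hRc : CEIn halt R := by
    apply CEIn.ex (S := fun x : ((ℕ × (List Tok × List ℕ)) × (List Tok × List ℕ)) ×
      ((List Tok × List ℕ) × List Tok) => APart w g ((x.1.1.1.unpair.1, x.1.1.2), x.2.1) ∧
      BPart U ((natStr x.1.1.1.unpair.2, x.1.1.2.1 ++ x.2.1.1), x.2.2) ∧
      x.1.2 = (x.1.1.2.1 ++ x.2.1.1 ++ x.2.2 ++ [none], x.2.1.2))
    have e1 : Primrec (fun x : ((ℕ × (List Tok × List ℕ)) × (List Tok × List ℕ)) ×
      ((List Tok × List ℕ) × List Tok) => x.1.1.1.unpair) :=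
      Primrec.unpair.comp (Primrec.fst.comp (Primrec.fst.comp Primrec.fst))
    have e2 : Primrec (fun x : ((ℕ × (List Tok × List ℕ)) × (List Tok × List ℕ)) ×
      ((List Tok × List ℕ) × List Tok) => x.1.1.2.1 ++ x.2.1.1) :=
      Primrec.list_append.comp (Primrec.fst.comp (Primrec.snd.comp (Primrec.fst.comp
        Primrec.fst))) (Primrec.fst.comp (Primrec.fst.comp Primrec.snd))
    refine CEIn.and ?_ (CEIn.and ?_ (CEIn.of_primrec ?_))
    · exact (ceIn_aPart hw (CEIn.graph hg)).comp (f := fun x : ((ℕ × (List Tok × List ℕ)) ×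
        (List Tok × List ℕ)) × ((List Tok × List ℕ) × List Tok) =>
        ((x.1.1.1.unpair.1, x.1.1.2), x.2.1)) (((Primrec.fst.comp e1).pair
          (Primrec.snd.comp (Primrec.fst.comp Primrec.fst))).pair (Primrec.fst.comp Primrec.snd))
    · exact (ceIn_bPart hU).comp (f := fun x : ((ℕ × (List Tok × List ℕ)) ×
        (List Tok × List ℕ)) × ((List Tok × List ℕ) × List Tok) =>
        ((natStr x.1.1.1.unpair.2, x.1.1.2.1 ++ x.2.1.1), x.2.2))
        (((primrec_natStr.comp (Primrec.snd.comp e1)).pair e2).pair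
          (Primrec.snd.comp Primrec.snd))
    · refine Primrec.eq.comp (Primrec.snd.comp Primrec.fst) (Primrec.pair ?_ ?_)
      · exact Primrec.list_append.comp (Primrec.list_append.comp e2
          (Primrec.snd.comp Primrec.snd)) (Primrec.const [none])
      · exact Primrec.snd.comp (Primrec.fst.comp Primrec.snd)
  have hRf : ∀ z y, R (z, y) ↔ y = f z := by
    intro z y
    constructor
    · rintro ⟨⟨⟨a, D⟩, b⟩, h1, h2, h3⟩
      rw [hfA] at h1
      simp only at h1 h2 h3
      have ha : a = (fA (z.1.unpair.1, z.2)).1 := by rw [← h1]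
      have hD : D = (fA (z.1.unpair.1, z.2)).2 := by rw [← h1]
      rw [hfB, ha] at h2
      rw [h3, h2, ha, hD]
    · rintro rfl
      refine ⟨(fA (z.1.unpair.1, z.2),
        fB (natStr z.1.unpair.2, z.2.1 ++ (fA (z.1.unpair.1, z.2)).1)), ?_, ?_, rfl⟩
      · rw [hfA]
      · rw [hfB]
  let s : ℕ → List Tok × List ℕ := fun n => n.rec ([], []) (fun n y => f (n, y))
  have hs : ∀ n, s (n + 1) = f (n, s n) := fun n => rfl
  have hT := totIn_iterate hRc hRf hs
  refine ⟨fun n => (s n).1, fun n => (s n).2, fun n => (fA (n.unpair.1, s n)).1,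
    fun n => fB (natStr n.unpair.2, (s n).1 ++ (fA (n.unpair.1, s n)).1), ?_, rfl, rfl, ?_, ?_, ?_⟩
  · have h1 := TotIn.comp (TotIn.prim (X := halt) Nat.Primrec.left) hT
    refine h1.of_eq fun n => ?_
    have : Encodable.encode (s n) = Nat.pair (Encodable.encode (s n).1)
      (Encodable.encode (s n).2) := rfl
    rw [this, Nat.unpair_pair]
  · intro n
    simp only [hs]
    rfl
  · intro n
    have h1 : APart w g ((n.unpair.1, s n), fA (n.unpair.1, s n)) := by rw [hfA]
    rcases h1 with ⟨⟨h1, h2⟩, h3, h4⟩ | ⟨⟨h1, h2⟩, h3⟩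
    · left
      refine ⟨h1, hg1 _ _ h4, ?_⟩
      simp only [hs]
      exact h2
    · right
      refine ⟨h3, h1, ?_⟩
      simp only [hs]
      exact h2
  · intro n
    simp only
    rw [hfB]

end Pool.Agent.H.MP_95c08c_lc
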