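import Mathlib
import Pool.Agent.H.MP_95c08c_lc.Sequences
import Pool.Agent.H.MP_95c08c_lc.Triv
import Pool.Agent.H.MP_95c08c_lc.Universal
import Pool.Agent.H.MP_95c08c_lc.Narrow

/-!
The verification of the construction: a `Δ⁰₂` almost complete set which computes only computable
paths through level sets of bounded size.
-/

set_option linter.all false

namespace Pool.Agent.H.MP_95c08c_lc

section verification

variable {L : ℕ → List Tok} {D : ℕ → List ℕ} {a b : ℕ → List Tok}

theorem monotone_cauchy {u : ℕ → ℝ} (hu : Monotone u) {K : ℝ} (hK : ∀ n, u n ≤ K) {ε : ℝ}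
    (hε : 0 < ε) : ∃ N, ∀ n, N ≤ n → ∀ m, u m ≤ u n + ε := by
  have hb : BddAbove (Set.range u) := ⟨K, by rintro _ ⟨n, rfl⟩; exact hK n⟩
  obtain ⟨_, ⟨N, rfl⟩, hN⟩ := exists_lt_of_lt_csSup (Set.range_nonempty u)
    (show sSup (Set.range u) - ε < sSup (Set.range u) by linarith)
  refine ⟨N, fun n hn m => ?_⟩
  have h1 := hu hn
  have h2 := le_csSup hb ⟨m, rfl⟩
  linarith

theorem pre_ofList (τ : List Bool) : pre (fun i => (τ[i]?).getD false) τ.length = τ := by
  apply List.ext_getElem?
  intro i
  rw [pre_getElem?]
  by_cases hi : i < τ.length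
  · rw [if_pos hi, List.getElem?_eq_getElem hi]
    simp
  · rw [if_neg hi]
    exact (List.getElem?_eq_none (not_lt.1 hi)).symm

end verification

theorem main_construction {S : ℕ × List Bool → Prop} (hS : CEIn halt (fun z => ¬ S z))
    {w : ℕ → ℕ} (hw : Primrec w)
    (hcard : ∀ c m (F : Finset (List Bool)), (∀ σ ∈ F, S (c, σ) ∧ σ.length = m) → F.card ≤ w c) :
    ∃ B : ℕ → Bool, IsDeltaTwo B ∧ AlmostComplete B ∧
      ∀ (A : ℕ → Bool) (c : ℕ), (∀ m, S (c, pre A m)) → TuringReducible (orc A) (orc B) →
        Computable A := by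
  classical
  obtain ⟨U, hU, hUm, hUX⟩ := exists_universal
  have hUf : ∀ τ q x x', U (τ, (q, x)) → U (τ, (q, x')) → x = x' := by
    intro τ q x x' h1 h2
    obtain ⟨V, -, hV⟩ := hUX (fun i => (τ[i]?).getD false)
    have h1' := (hV q x).2 ⟨τ.length, by rwa [pre_ofList]⟩
    have h2' := (hV q x').2 ⟨τ.length, by rwa [pre_ofList]⟩
    exact Part.mem_unique h1' h2'
  obtain ⟨L, D, a, b, hTot, hL0, hD0, hLs, hA, hB⟩ := exists_sequences hS hw hcard hU hUf
  -- growth
  have hL : ∀ n, L n <+: L (n + 1) := by
    intro n
    rw [hLs, List.append_assoc, List.append_assoc]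
    exact List.prefix_append _ _
  have hLa : ∀ n, L n ++ a n <+: L (n + 1) := by
    intro n
    rw [hLs, List.append_assoc]
    exact List.prefix_append _ _
  have hlen : ∀ n, n ≤ (L n).length := by
    intro n
    induction n with
    | zero => simp
    | succ n ih =>
      rw [hLs]
      simp only [List.length_append, List.length_singleton]
      omega
  have hLmem : ∀ {m n : ℕ} {t : Tok}, m ≤ n → t ∈ L m → t ∈ L n := fun h ht =>
    (L_mono hL h).subset ht
  have hDmem : ∀ {m n r : ℕ}, m ≤ n → r ∈ D m → r ∈ D n := by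
    intro m n r h hr
    induction n, h using Nat.le_induction with
    | base => exact hr
    | succ n _ ih =>
      rcases hA n with ⟨-, -, h3⟩ | ⟨-, -, h3⟩
      · rw [h3]; exact List.mem_cons_of_mem _ ih
      · rw [h3]; exact ih
  set B : ℕ → Bool := limSeq L with hBdef
  have henc : ∀ n, enc (L n) = pre B (enc (L n)).length := enc_eq_pre hL hlen
  have hpre : ∀ k, pre B k <+: enc (L k) := pre_prefix_enc hL hlen
  have hencpre : ∀ {n : ℕ} {l : List Tok}, l <+: L n → enc l = pre B (enc l).length := by
    intro n l hl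
    have h1 := enc_prefix hl
    rw [henc n] at h1
    exact prefix_pre B h1
  obtain ⟨V, hVo, hV⟩ := hUX B
  -- costs of the two parts
  have hAcost : ∀ M, ∑ n ∈ Finset.range M, cost (a n) ≤ 2 := by
    intro M
    have h1 : ∑ n ∈ Finset.range M, cost (a n) ≤
        ∑ n ∈ (Finset.range M).filter (fun n => a n ≠ []), ((2:ℝ)⁻¹)^n.unpair.1 := by
      rw [← Finset.sum_filter_add_sum_filter_not (Finset.range M) (fun n => a n ≠ [])]
      have h2 : ∑ n ∈ (Finset.range M).filter (fun n => ¬ (a n ≠ [])), cost (a n) = 0 := by
        refine Finset.sum_eq_zero fun n hn => ?_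
        simp only [Finset.mem_filter, not_not] at hn
        rw [hn.2, cost_nil]
      rw [h2, add_zero]
      refine Finset.sum_le_sum fun n hn => ?_
      simp only [Finset.mem_filter] at hn
      rcases hA n with ⟨-, ⟨ρ, h3, -⟩, -⟩ | ⟨-, h3, -⟩
      · exact h3.1
      · exact absurd h3 hn.2
    refine h1.trans (sum_half_pow_le _ _ ?_)
    intro m hm n hn e
    simp only [Finset.coe_filter, Finset.mem_range, Set.mem_setOf_eq] at hm hn
    have key : ∀ m n : ℕ, m < n → a m ≠ [] → a n ≠ [] → m.unpair.1 = n.unpair.1 → False := by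
      intro m n hmn h1 h2 e
      rcases hA m with ⟨-, -, h3⟩ | ⟨-, h3, -⟩
      · rcases hA n with ⟨h4, -, -⟩ | ⟨-, h4, -⟩
        · apply h4
          rw [← e]
          apply hDmem (m := m + 1) hmn
          rw [h3]
          exact List.mem_cons_self
        · exact h2 h4
      · exact h1 h3
    rcases lt_trichotomy m n with h | h | h
    · exact (key m n h hm.2 hn.2 e).elim
    · exact h
    · exact (key n m h hn.2 hm.2 e.symm).elim
  have hBtok : ∀ n, b n ≠ [] → ∃ x, x ∈ V (natStr n.unpair.2) ∧
      (some (natStr n.unpair.2, pre halt (strNat x)) : Tok) ∉ L n ++ a n ∧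
      b n = [some (natStr n.unpair.2, pre halt (strNat x))] := by
    intro n hn
    rcases hB n with ⟨x, hx, ⟨-, h3⟩ | ⟨h3, h4⟩⟩ | ⟨h3, -⟩
    · exact absurd h3 hn
    · refine ⟨x, (hV _ _).2 ⟨(enc (L n ++ a n)).length, ?_⟩, h3, h4⟩
      rw [← hencpre (hLa n)]
      exact hx
    · exact absurd h3 hn
  have hBcost : ∀ M, ∑ n ∈ Finset.range M, cost (b n) ≤ 1 := by
    intro M
    have h1 : ∑ n ∈ Finset.range M, cost (b n) ≤
        ∑ n ∈ (Finset.range M).filter (fun n => b n ≠ []),
          ((2:ℝ)⁻¹)^(natStr n.unpair.2).length := by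
      rw [← Finset.sum_filter_add_sum_filter_not (Finset.range M) (fun n => b n ≠ [])]
      have h2 : ∑ n ∈ (Finset.range M).filter (fun n => ¬ (b n ≠ [])), cost (b n) = 0 := by
        refine Finset.sum_eq_zero fun n hn => ?_
        simp only [Finset.mem_filter, not_not] at hn
        rw [hn.2, cost_nil]
      rw [h2, add_zero]
      refine Finset.sum_le_sum fun n hn => ?_
      simp only [Finset.mem_filter] at hn
      obtain ⟨x, -, -, h3⟩ := hBtok n hn.2
      rw [h3, cost_cons_some, cost_nil, add_zero]
    refine h1.trans ?_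
    have hinj : Set.InjOn (fun n : ℕ => natStr n.unpair.2)
        ((Finset.range M).filter (fun n => b n ≠ []) : Finset ℕ) := by
      intro m hm n hn e
      simp only [Finset.coe_filter, Finset.mem_range, Set.mem_setOf_eq] at hm hn
      simp only at e
      have key : ∀ m n : ℕ, m < n → b m ≠ [] → b n ≠ [] →
          natStr m.unpair.2 = natStr n.unpair.2 → False := by
        intro m n hmn h1 h2 e
        obtain ⟨x, hx, -, h3⟩ := hBtok m h1
        obtain ⟨y, hy, h4, -⟩ := hBtok n h2
        rw [← e] at hy h4
        obtain rfl := Part.mem_unique hx hy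
        apply h4
        apply List.mem_append_left
        apply hLmem (m := m + 1) hmn
        rw [hLs, h3]
        simp
      rcases lt_trichotomy m n with h | h | h
      · exact (key m n h hm.2 hn.2 e).elim
      · exact h
      · exact (key n m h hn.2 hm.2 e.symm).elim
    rw [← Finset.sum_image (f := fun p : List Bool => ((2:ℝ)⁻¹)^p.length) hinj]
    refine kraft hVo.2.1 _ fun p hp => ?_
    simp only [Finset.mem_image, Finset.mem_filter] at hp
    obtain ⟨n, hn, rfl⟩ := hp
    obtain ⟨x, hx, -⟩ := hBtok n hn.2
    exact Part.dom_iff_mem.2 ⟨x, hx⟩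
  have hcost_eq : ∀ M, cost (L M) = ∑ n ∈ Finset.range M, cost (a n) +
      ∑ n ∈ Finset.range M, cost (b n) := by
    intro M
    induction M with
    | zero => simp [hL0]
    | succ M ih =>
      rw [hLs, cost_append, cost_append, cost_append, ih, Finset.sum_range_succ,
        Finset.sum_range_succ, cost_cons_none, cost_nil]
      ring
  have hcost : ∀ M, cost (L M) ≤ 3 := by
    intro M
    rw [hcost_eq]
    have h1 := hAcost M
    have h2 := hBcost M
    linarith
  have hmono : Monotone (fun n => cost (L n)) := by
    refine monotone_nat_of_le_succ fun n => ?_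
    obtain ⟨k, hk⟩ := hL n
    simp only [← hk, cost_append]
    linarith [cost_nonneg k]
  refine ⟨B, ?_, ?_, ?_⟩
  · -- B is computable in the halting problem
    have h1 : Primrec (fun z : ℕ × List Tok => ((enc z.2)[z.1]?).getD false) :=
      Primrec.option_getD.comp (Primrec.list_getElem?.comp (primrec_enc.comp Primrec.snd)
        Primrec.fst) (Primrec.const false)
    have h2 : Nat.Primrec (fun k : ℕ => ((Encodable.decode (α := ℕ × List Tok) k).elim 0
        (fun z => (((enc z.2)[z.1]?).getD false).toNat))) := by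
      refine Primrec.nat_iff.1 ?_
      have h3 : Primrec (fun k : ℕ => ((Encodable.decode (α := ℕ × List Tok) k).map
          (fun z => (((enc z.2)[z.1]?).getD false).toNat)).getD 0) := by
        refine Primrec.option_getD.comp (Primrec.option_map Primrec.decode ?_) (Primrec.const 0)
        exact (((Primrec.dom_bool Bool.toNat).comp h1).comp Primrec.snd).to₂
      refine h3.of_eq fun k => ?_
      cases Encodable.decode (α := ℕ × List Tok) k <;> rfl
    have h3 : TotIn halt (fun i => (B i).toNat) := by
      refine (TotIn.comp (TotIn.prim h2) (TotIn.pair (TotIn.prim Nat.Primrec.id)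
        (TotIn.comp hTot (TotIn.prim Nat.Primrec.succ)))).of_eq fun i => ?_
      have : Encodable.decode (α := ℕ × List Tok)
          (Nat.pair i (Encodable.encode (L (i + 1)))) = some (i, L (i + 1)) := by
        simp
      simp only [id, Nat.succ_eq_add_one, this, Option.elim_some]
      rfl
    exact RecursiveIn.iff_nat.2 h3
  · -- almost completeness
    refine kTrivialRel_of_tokens (X := B) (A := halt) (γ := List Bool × List Bool)
      (T := fun t => ∃ l : List Tok, (some t : Tok) ∈ l ∧ ∃ k, pre B k = enc l)
      (r := fun t => t.1.length) (x := fun t => t.2) ?_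
      (Primrec.list_length.comp Primrec.fst) Primrec.snd 2 ?_ hVo ?_
    · apply CEIn.ex (S := fun y : (List Bool × List Bool) × List Tok =>
        (some y.1 : Tok) ∈ y.2 ∧ ∃ k, pre B k = enc y.2)
      refine CEIn.and (CEIn.of_primrec ?_) ?_
      · exact primrecPred_mem.comp (f := fun y : (List Bool × List Bool) × List Tok =>
          ((some y.1 : Tok), y.2)) ((Primrec.option_some.comp Primrec.fst).pair Primrec.snd)
      · apply CEIn.ex (S := fun y : ((List Bool × List Bool) × List Tok) × ℕ =>
          pre B y.2 = enc y.1.2)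
        exact CEIn.preEq.comp (f := fun y : ((List Bool × List Bool) × List Tok) × ℕ =>
          (y.2, enc y.1.2)) (Primrec.snd.pair (primrec_enc.comp (Primrec.snd.comp Primrec.fst)))
    · intro F hF
      have h1 : ∃ n, ∀ t ∈ F, (some t : Tok) ∈ L n := by
        have h2 : ∀ t : List Bool × List Bool, ∃ n, t ∈ F → (some t : Tok) ∈ L n := by
          intro t
          by_cases ht : t ∈ F
          · obtain ⟨l, h3, k, h4⟩ := hF t ht
            refine ⟨k, fun _ => ?_⟩
            exact (prefix_of_enc hL hlen h4.symm).subset h3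
          · exact ⟨0, fun h => absurd h ht⟩
        choose N hN using h2
        exact ⟨F.sup N, fun t ht => hLmem (Finset.le_sup (f := N) ht) (hN t ht)⟩
      obtain ⟨n, hn⟩ := h1
      refine (sum_le_cost (L n) F hn).trans ((hcost n).trans ?_)
      norm_num
    · intro q n hq
      obtain ⟨k, hk⟩ := (hV _ _).1 hq
      -- a late stage at which `q` is treated
      set N := Nat.pair k (strNat q) with hN
      have hkN : k ≤ N := Nat.left_le_pair _ _
      have hNq : natStr N.unpair.2 = q := by
        rw [hN, Nat.unpair_pair]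
        exact natStr_strNat q
      have h1 : U (enc (L N ++ a N), (q, natStr n)) := by
        refine hUm _ _ _ ?_ hk
        refine (hpre k).trans ((enc_prefix (L_mono hL hkN)).trans ?_)
        rw [enc_append]
        exact List.prefix_append _ _
      have h2 : (some (q, pre halt n) : Tok) ∈ L (N + 1) := by
        rcases hB N with ⟨x, hx, h3⟩ | ⟨-, h3⟩
        · simp only [hNq] at hx h3
          obtain rfl := hUf _ _ _ _ hx h1
          rw [strNat_natStr] at h3
          rw [hLs]
          rcases h3 with ⟨h3, -⟩ | ⟨-, h3⟩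
          · exact List.mem_append_left _ (List.mem_append_left _ h3)
          · rw [h3]; simp
        · exact absurd ⟨natStr n, by rw [← hNq] at h1; exact h1⟩ h3
      exact ⟨(q, pre halt n), ⟨L (N + 1), h2, _, (henc _).symm⟩, rfl, rfl⟩
  · -- the requirements
    intro A c hAS hAB
    have hAB' : TotIn B (fun m => Encodable.encode (pre A m)) := by
      have h1 : Nat.RecursiveIn {orc A} (fun m => Part.some (Encodable.encode (pre A m))) :=
        TotIn.preCode
      refine h1.subst fun g hg => ?_
      rw [Set.mem_singleton_iff] at hg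
      subst hg
      exact RecursiveIn.iff_nat.1 hAB
    obtain ⟨F, hF⟩ := normal_form_nat hAB'
    obtain ⟨e, he⟩ := Nat.Partrec.Code.exists_code.1 hF.1
    set i := Encodable.encode e with hi
    have hPsi : ∀ σ ρ, Psi (i, σ, ρ) ↔ Encodable.encode ρ ∈ F (σ, ρ.length) := by
      intro σ ρ
      simp only [Psi, hi, Denumerable.ofNat_encode]
      rw [he]
      simp
    -- correct outputs
    have hcorr : ∀ {n : ℕ} {l : List Tok} {ρ : List Bool}, l <+: L n → Psi (i, enc l, ρ) →
        ρ = pre A ρ.length := by
      intro n l ρ hl h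
      rw [hPsi, hencpre hl] at h
      have h1 := (hF.2.2 ρ.length (Encodable.encode ρ)).2 ⟨_, h⟩
      rw [Part.mem_some_iff] at h1
      exact Encodable.encode_injective h1
    set r := Nat.pair i c with hr
    have hri : r.unpair.1 = i := by rw [hr, Nat.unpair_pair]
    have hrc : r.unpair.2 = c := by rw [hr, Nat.unpair_pair]
    have hnot : ∀ n, r ∉ D n := by
      intro n
      induction n with
      | zero => simp [hD0]
      | succ n ih =>
        rcases hA n with ⟨-, ⟨ρ, h1, h2⟩, h3⟩ | ⟨-, -, h3⟩
        · rw [h3, List.mem_cons, not_or]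
          refine ⟨fun e => ?_, ih⟩
          rw [← e, hrc] at h2
          apply h2
          have h4 := h1.2
          simp only [← e, hri] at h4
          rw [hcorr (hLa n) h4]
          exact hAS _
        · rw [h3]; exact ih
    obtain ⟨N, hN⟩ := monotone_cauchy hmono hcost (ε := ((2:ℝ)⁻¹)^r) (by positivity)
    set n := Nat.pair r N with hn
    have hNn : N ≤ n := Nat.right_le_pair _ _
    have hnr : n.unpair.1 = r := by rw [hn, Nat.unpair_pair]
    have hns : ¬ Split w (r, L n) := by
      rcases hA n with ⟨-, ⟨ρ, h1, h2⟩, h3⟩ | ⟨h1 | h1, -⟩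
      · exfalso
        apply hnot (n + 1)
        rw [h3, hnr]
        exact List.mem_cons_self
      · rw [hnr] at h1
        exact absurd h1 (hnot n)
      · rwa [hnr] at h1
    refine computable_of_narrow (S := fun σ => ∃ u, Ext ((r, L n), (u, σ))) ?_ (w c) ?_ A ?_
    · apply CE.exists (R := fun y : List Bool × List Tok => Ext ((r, L n), (y.2, y.1)))
      exact ce_ext.comp (f := fun y : List Bool × List Tok => ((r, L n), (y.2, y.1)))
        ((Primrec.const (r, L n)).pair (Primrec.snd.pair Primrec.fst))
    · intro m G hG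
      have := card_le_of_not_split hns m G hG
      rwa [hrc] at this
    · intro m
      obtain ⟨k, hk⟩ := (hF.2.2 m (Encodable.encode (pre A m))).1 (Part.mem_some _)
      obtain ⟨u, hu⟩ := L_mono hL (le_max_left n k)
      refine ⟨u, ?_, ?_⟩
      · have h1 : cost (L (max n k)) ≤ cost (L n) + ((2:ℝ)⁻¹)^r := hN n hNn (max n k)
        rw [← hu, cost_append] at h1
        show cost u ≤ ((2:ℝ)⁻¹)^r
        linarith
      · show Psi (r.unpair.1, enc (L n ++ u), pre A m)
        rw [hri, hu, hPsi, pre_length]
        refine hF.2.1 _ _ _ _ ?_ hk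
        exact (hpre k).trans (enc_prefix (L_mono hL (le_max_right n k)))

end Pool.Agent.H.MP_95c08c_lc
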