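import Mathlib
import Pool.Agent.H.MP_95c08c_lc.KC
import Pool.Agent.H.MP_95c08c_lc.Strings

/-!
The counting theorem: for an optimal prefix-free machine there are at most `2 ^ (c + d)` strings
of length `n` whose complexity is at most that of `n` plus `c` (a form of the coding theorem).
-/

set_option linter.all false

namespace Pool.Agent.H.MP_95c08c_lc

open Finset

namespace Count

/-- A finite set of exponents that are all at least `r₀` has total weight at most `2 * 2 ^ (-r₀)`. -/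
theorem sum_half_pow_le (R : Finset ℕ) (r₀ : ℕ) (h : ∀ r ∈ R, r₀ ≤ r) :
    ∑ r ∈ R, ((2:ℝ)⁻¹)^r ≤ 2 * ((2:ℝ)⁻¹)^r₀ := by
  have h1 : R ⊆ Finset.Ico r₀ (R.sup id + 1) := by
    intro r hr
    rw [Finset.mem_Ico]
    exact ⟨h r hr, Nat.lt_succ_of_le (Finset.le_sup (f := id) hr)⟩
  have h2 : ∑ r ∈ R, ((2:ℝ)⁻¹)^r ≤ ∑ r ∈ Finset.Ico r₀ (R.sup id + 1), ((2:ℝ)⁻¹)^r :=
    Finset.sum_le_sum_of_subset_of_nonneg h1 (fun _ _ _ => by positivity)
  have h3 := geom_sum_Ico_le_of_lt_one (x := (2:ℝ)⁻¹) (m := r₀) (n := R.sup id + 1)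
    (by norm_num) (by norm_num)
  refine h2.trans (h3.trans (le_of_eq ?_))
  norm_num
  ring

section listing

open scoped Classical in
/-- The strings `p` with code below `M` for which `P ((n, p), t)` holds for some `t < M`. -/
noncomputable def stageList (P : (ℕ × List Bool) × ℕ → Prop) (n M : ℕ) : List (List Bool) :=
  (List.range M).filterMap fun k => (Encodable.decode₂ (List Bool) k).bind fun p =>
    if ∃ t < M, P ((n, p), t) then some p else none

theorem mem_stageList {P : (ℕ × List Bool) × ℕ → Prop} {n M : ℕ} {p : List Bool} :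
    p ∈ stageList P n M ↔ Encodable.encode p < M ∧ ∃ t < M, P ((n, p), t) := by
  classical
  unfold stageList
  rw [List.mem_filterMap]
  constructor
  · rintro ⟨k, hk, h⟩
    rw [Option.bind_eq_some_iff] at h
    obtain ⟨q, hq, h⟩ := h
    rw [Encodable.decode₂_eq_some] at hq
    split_ifs at h with h1
    have e : q = p := by simpa using h
    subst e
    rw [hq]
    exact ⟨List.mem_range.1 hk, h1⟩
  · rintro ⟨h1, h2⟩
    refine ⟨Encodable.encode p, List.mem_range.2 h1, ?_⟩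
    rw [Option.bind_eq_some_iff]
    exact ⟨p, by simp, by rw [if_pos h2]⟩

theorem nodup_stageList (P : (ℕ × List Bool) × ℕ → Prop) (n M : ℕ) :
    (stageList P n M).Nodup := by
  classical
  unfold stageList
  refine List.Nodup.filterMap ?_ List.nodup_range
  intro a a' b hb hb'
  have key : ∀ k, b ∈ ((Encodable.decode₂ (List Bool) k).bind fun p =>
      if ∃ t < M, P ((n, p), t) then some p else none) → Encodable.encode b = k := by
    intro k h
    rw [Option.mem_def, Option.bind_eq_some_iff] at h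
    obtain ⟨q, hq, h⟩ := h
    rw [Encodable.decode₂_eq_some] at hq
    split_ifs at h with h1
    have e : q = b := by simpa using h
    subst e
    exact hq
  exact (key a hb).symm.trans (key a' hb')

theorem primrec_stageList {P : (ℕ × List Bool) × ℕ → Prop} (hP : PrimrecPred P) :
    Primrec (fun z : ℕ × ℕ => stageList P z.1 z.2) := by
  classical
  unfold stageList
  have hQ : PrimrecPred fun w : ((ℕ × ℕ) × ℕ) × List Bool =>
      ∃ t < w.1.1.2, P ((w.1.1.1, w.2), t) :=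
    (primrecPred_exists_lt hP).comp (f := fun w : ((ℕ × ℕ) × ℕ) × List Bool =>
      ((w.1.1.1, w.2), w.1.1.2))
      (((Primrec.fst.comp (Primrec.fst.comp Primrec.fst)).pair Primrec.snd).pair
        (Primrec.snd.comp (Primrec.fst.comp Primrec.fst)))
  have h1 : Primrec₂ (fun (y : (ℕ × ℕ) × ℕ) (p : List Bool) =>
      if ∃ t < y.1.2, P ((y.1.1, p), t) then some p else none) :=
    Primrec.to₂ (Primrec.ite hQ (Primrec.option_some.comp Primrec.snd) (Primrec.const none))
  have h2 : Primrec (fun y : (ℕ × ℕ) × ℕ => (Encodable.decode₂ (List Bool) y.2).bind fun p =>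
      if ∃ t < y.1.2, P ((y.1.1, p), t) then some p else none) :=
    Primrec.option_bind (Primrec.decode₂.comp Primrec.snd) h1
  have h3 : Primrec₂ (fun (z : ℕ × ℕ) (k : ℕ) => (Encodable.decode₂ (List Bool) k).bind fun p =>
      if ∃ t < z.2, P ((z.1, p), t) then some p else none) := Primrec.to₂ h2
  exact Primrec.listFilterMap (Primrec.list_range.comp Primrec.snd) h3

theorem wsum_stageList (P : (ℕ × List Bool) × ℕ → Prop) (n M : ℕ) :
    wsum ((stageList P n M).map List.length) =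
      ∑ p ∈ (stageList P n M).toFinset, ((2:ℝ)⁻¹)^p.length := by
  classical
  rw [List.sum_toFinset _ (nodup_stageList P n M)]
  unfold wsum
  rw [List.map_map]
  rfl

end listing

/-- Every string has a description. -/
theorem exists_description {V : Machine} (hV : Optimal {orc zer} V) (x : List Bool) :
    ∃ p, x ∈ V p := by
  have h := kc (X := zer) (γ := List Bool) (T := fun _ => True) (r := strNat) (x := fun x => x)
    (CEIn.of_ce (CE.of_eq (R := fun x : List Bool => x = x)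
      (CE.of_primrec (Primrec.eq.comp .id .id)) (fun _ => by simp)))
    primrec_strNat .id 1 ?_
  · obtain ⟨N, hN, hp, h⟩ := h
    obtain ⟨c, hc⟩ := hV.2.2 N hN hp
    obtain ⟨p, hp, -⟩ := h x trivial
    obtain ⟨q, hq, -⟩ := hc p x hp
    exact ⟨q, hq⟩
  · intro F _
    have h1 : ∑ x ∈ F, ((2:ℝ)⁻¹)^(strNat x) = ∑ k ∈ F.image strNat, ((2:ℝ)⁻¹)^k := by
      rw [Finset.sum_image (fun a _ b _ e => strNat_injective e)]
    rw [h1]
    have := sum_half_pow_le (F.image strNat) 0 (fun _ _ => Nat.zero_le _)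
    simpa using this

theorem exists_complexity {V : Machine} (hV : Optimal {orc zer} V) (x : List Bool) :
    ∃ p, x ∈ V p ∧ p.length = complexity V x := by
  obtain ⟨p, hp⟩ := exists_description hV x
  exact Nat.sInf_mem (s := {k | ∃ p, x ∈ V p ∧ p.length = k}) ⟨_, p, hp, rfl⟩

theorem complexity_le {V : Machine} {x p : List Bool} (h : x ∈ V p) :
    complexity V x ≤ p.length :=
  Nat.sInf_le ⟨p, h, rfl⟩

end Count

open Count in
theorem ktrivial_count {V : Machine} (hV : Optimal {orc zer} V) :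
    ∃ d, ∀ n c (F : Finset (List Bool)),
      (∀ σ ∈ F, σ.length = n ∧ complexity V σ ≤ complexity V (natStr n) + c) →
        F.card ≤ 2 ^ (c + d) := by
  classical
  have hVp : Partrec V := recursiveIn_empty_iff.1 (recursiveIn_zer.1 hV.1)
  -- the programs whose output has length `n`
  have hD : CE (fun y : ℕ × List Bool => ∃ x, x ∈ V y.2 ∧ x.length = y.1) := by
    refine CE.exists (R := fun z : (ℕ × List Bool) × List Bool =>
      z.2 ∈ V z.1.2 ∧ z.2.length = z.1.1) (CE.and ?_ ?_)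
    · exact (CE.graph hVp).comp (f := fun z : (ℕ × List Bool) × List Bool => (z.1.2, z.2))
        ((Primrec.snd.comp Primrec.fst).pair Primrec.snd)
    · exact CE.of_primrec (Primrec.eq.comp (Primrec.list_length.comp Primrec.snd)
        (Primrec.fst.comp Primrec.fst))
  obtain ⟨P, hP, hPD⟩ := hD
  have hmem : ∀ {n M p}, p ∈ stageList P n M → ∃ x, x ∈ V p ∧ x.length = n := by
    intro n M p hp
    obtain ⟨-, t, -, ht⟩ := mem_stageList.1 hp
    exact (hPD (n, p)).2 ⟨t, ht⟩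
  have hcover : ∀ (n : ℕ) (G : Finset (List Bool)), (∀ p ∈ G, ∃ x, x ∈ V p ∧ x.length = n) →
      ∃ M, ∀ p ∈ G, p ∈ stageList P n M := by
    intro n G hG
    have h1 : ∀ p, ∃ t, p ∈ G → P ((n, p), t) := by
      intro p
      by_cases h : p ∈ G
      · obtain ⟨t, ht⟩ := (hPD (n, p)).1 (hG p h)
        exact ⟨t, fun _ => ht⟩
      · exact ⟨0, fun h' => absurd h' h⟩
    choose t ht using h1
    refine ⟨G.sup (fun p => Encodable.encode p + t p) + 1, fun p hp => ?_⟩
    have h2 : Encodable.encode p + t p ≤ G.sup (fun p => Encodable.encode p + t p) :=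
      Finset.le_sup (f := fun p => Encodable.encode p + t p) hp
    rw [mem_stageList]
    exact ⟨by omega, t p, by omega, ht p hp⟩
  -- the tokens
  let T : ℕ × ℕ → Prop := fun z => ∃ M, wsum [z.2] ≤ wsum ((stageList P z.1 M).map List.length)
  have hT : CE T := by
    refine ⟨fun y : (ℕ × ℕ) × ℕ => wsum [y.1.2] ≤ wsum ((stageList P y.1.1 y.2).map List.length),
      ?_, fun _ => Iff.rfl⟩
    refine primrecPred_wsum_le.comp (f := fun y : (ℕ × ℕ) × ℕ =>
      ([y.1.2], (stageList P y.1.1 y.2).map List.length)) (Primrec.pair ?_ ?_)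
    · exact Primrec.list_cons.comp (Primrec.snd.comp Primrec.fst) (Primrec.const [])
    · refine Primrec.list_map (f := fun y : (ℕ × ℕ) × ℕ => stageList P y.1.1 y.2)
        (g := fun _ p => List.length p) ?_ ?_
      · exact (primrec_stageList hP).comp
          ((Primrec.fst.comp Primrec.fst).pair Primrec.snd : Primrec fun y : (ℕ × ℕ) × ℕ =>
            (y.1.1, y.2))
      · exact (Primrec.list_length.comp Primrec.snd).to₂
  have hsum : ∀ F : Finset (ℕ × ℕ), (∀ z ∈ F, T z) → ∑ z ∈ F, ((2:ℝ)⁻¹)^(z.2) ≤ 2 ^ 1 := by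
    intro F hF
    have h1 : ∀ n, ∃ M, n ∈ F.image Prod.fst →
        ∑ z ∈ F with z.1 = n, ((2:ℝ)⁻¹)^(z.2) ≤
          2 * ∑ p ∈ (stageList P n M).toFinset, ((2:ℝ)⁻¹)^p.length := by
      intro n
      by_cases hn : n ∈ F.image Prod.fst
      · set R : Finset ℕ := (F.filter fun z => z.1 = n).image Prod.snd with hR
        have hRne : R.Nonempty := by
          obtain ⟨z, hz, rfl⟩ := Finset.mem_image.1 hn
          exact ⟨z.2, Finset.mem_image.2 ⟨z, Finset.mem_filter.2 ⟨hz, rfl⟩, rfl⟩⟩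
        have hmin := R.min'_mem hRne
        obtain ⟨z, hz, hz2⟩ := Finset.mem_image.1 hmin
        obtain ⟨hz, hz1⟩ := Finset.mem_filter.1 hz
        obtain ⟨M, hM⟩ := hF z hz
        refine ⟨M, fun _ => ?_⟩
        have e1 : ∑ z ∈ F with z.1 = n, ((2:ℝ)⁻¹)^(z.2) = ∑ r ∈ R, ((2:ℝ)⁻¹)^r := by
          rw [hR, Finset.sum_image]
          intro a ha b hb e
          simp only [Finset.coe_filter, Set.mem_ofPred_eq] at ha hb
          exact Prod.ext (ha.2.trans hb.2.symm) e
        rw [e1]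
        refine (sum_half_pow_le R (R.min' hRne) (fun r hr => R.min'_le r hr)).trans ?_
        rw [← hz2]
        rw [wsum_stageList] at hM
        rw [hz1] at hM
        simp only [wsum_cons, wsum_nil, add_zero] at hM
        linarith
      · exact ⟨0, fun h => absurd h hn⟩
    choose M hM using h1
    have h2 : ∑ z ∈ F, ((2:ℝ)⁻¹)^(z.2) =
        ∑ n ∈ F.image Prod.fst, ∑ z ∈ F with z.1 = n, ((2:ℝ)⁻¹)^(z.2) := by
      rw [Finset.sum_fiberwise_of_maps_to]
      intro z hz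
      exact Finset.mem_image_of_mem _ hz
    rw [h2]
    refine (Finset.sum_le_sum hM).trans ?_
    rw [← Finset.mul_sum]
    have hdisj : Set.PairwiseDisjoint (↑(F.image Prod.fst) : Set ℕ)
        (fun n => (stageList P n (M n)).toFinset) := by
      intro n _ m _ hnm
      rw [Function.onFun, Finset.disjoint_left]
      intro p hp hp'
      obtain ⟨x, hx, hxn⟩ := hmem (List.mem_toFinset.1 hp)
      obtain ⟨y, hy, hym⟩ := hmem (List.mem_toFinset.1 hp')
      exact hnm (hxn.symm.trans ((congrArg List.length (Part.mem_unique hx hy)).trans hym))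
    rw [← Finset.sum_biUnion hdisj]
    have h3 := kraft hV.2.1 ((F.image Prod.fst).biUnion fun n => (stageList P n (M n)).toFinset) ?_
    · linarith
    · intro p hp
      obtain ⟨n, -, hp⟩ := Finset.mem_biUnion.1 hp
      obtain ⟨x, hx, -⟩ := hmem (List.mem_toFinset.1 hp)
      exact Part.dom_iff_mem.2 ⟨x, hx⟩
  obtain ⟨N, hN, hNp, hNT⟩ := kc (X := zer) (γ := ℕ × ℕ) (T := T) (r := Prod.snd)
    (x := fun z => natStr z.1) (CEIn.of_ce hT) Primrec.snd (primrec_natStr.comp Primrec.fst) 1 hsum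
  obtain ⟨c₁, hc₁⟩ := hV.2.2 N hN hNp
  have hK : ∀ n r, T (n, r) → complexity V (natStr n) ≤ r + 2 + c₁ := by
    intro n r h
    obtain ⟨p, hp, hpl⟩ := hNT (n, r) h
    obtain ⟨q, hq, hql⟩ := hc₁ p _ hp
    refine (complexity_le hq).trans (hql.trans ?_)
    rw [hpl]
  refine ⟨c₁ + 3, fun n c F hF => ?_⟩
  by_contra hcon
  rw [not_le] at hcon
  choose prog hprog hlen using exists_complexity hV
  set K := complexity V (natStr n) with hKdef
  have hinj : Function.Injective prog := by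
    intro a b e
    have h1 := hprog a
    rw [e] at h1
    exact Part.mem_unique h1 (hprog b)
  set G : Finset (List Bool) := F.image prog with hG
  have hGV : ∀ p ∈ G, ∃ x, x ∈ V p ∧ x.length = n := by
    intro p hp
    obtain ⟨σ, hσ, rfl⟩ := Finset.mem_image.1 hp
    exact ⟨σ, hprog σ, (hF σ hσ).1⟩
  have hGsum : (F.card : ℝ) * ((2:ℝ)⁻¹)^(K + c) ≤ ∑ p ∈ G, ((2:ℝ)⁻¹)^p.length := by
    rw [hG, Finset.sum_image (fun a _ b _ e => hinj e), ← nsmul_eq_mul]
    refine Finset.card_nsmul_le_sum _ _ _ fun σ hσ => ?_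
    refine pow_le_pow_of_le_one (by norm_num) (by norm_num) ?_
    rw [hlen]
    exact (hF σ hσ).2
  have hG1 : ∑ p ∈ G, ((2:ℝ)⁻¹)^p.length ≤ 1 := by
    refine kraft hV.2.1 G fun p hp => ?_
    obtain ⟨x, hx, -⟩ := hGV p hp
    exact Part.dom_iff_mem.2 ⟨x, hx⟩
  have hbig : ((2:ℝ))^(c + (c₁ + 3)) * ((2:ℝ)⁻¹)^(K + c) <
      (F.card : ℝ) * ((2:ℝ)⁻¹)^(K + c) := by
    refine mul_lt_mul_of_pos_right ?_ (by positivity)
    exact_mod_cast hcon
  have hval : ((2:ℝ))^(c + (c₁ + 3)) * ((2:ℝ)⁻¹)^(K + c) =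
      (2:ℝ)^(c₁ + 3) * ((2:ℝ)⁻¹)^K := by
    have hc : (2:ℝ)^c * ((2:ℝ)⁻¹)^c = 1 := by rw [← mul_pow]; norm_num
    rw [pow_add (2:ℝ) c, pow_add (2:ℝ)⁻¹ K c]
    calc (2:ℝ)^c * (2:ℝ)^(c₁ + 3) * (((2:ℝ)⁻¹)^K * ((2:ℝ)⁻¹)^c)
        = ((2:ℝ)^c * ((2:ℝ)⁻¹)^c) * ((2:ℝ)^(c₁ + 3) * ((2:ℝ)⁻¹)^K) := by ring
      _ = (2:ℝ)^(c₁ + 3) * ((2:ℝ)⁻¹)^K := by rw [hc, one_mul]
  have hlt : (2:ℝ)^(c₁ + 3) * ((2:ℝ)⁻¹)^K < ∑ p ∈ G, ((2:ℝ)⁻¹)^p.length := by
    rw [← hval]; exact hbig.trans_le hGsum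
  have hKd : c₁ + 3 < K := by
    by_contra hle
    rw [not_lt] at hle
    have h1 : (1:ℝ) ≤ (2:ℝ)^(c₁ + 3) * ((2:ℝ)⁻¹)^K := by
      rw [inv_pow, ← div_eq_mul_inv, le_div_iff₀ (by positivity), one_mul]
      exact pow_le_pow_right₀ (by norm_num) hle
    linarith
  have htok : T (n, K - (c₁ + 3)) := by
    obtain ⟨M, hM⟩ := hcover n G hGV
    refine ⟨M, ?_⟩
    rw [wsum_stageList]
    simp only [wsum_cons, wsum_nil, add_zero]
    have h1 : ((2:ℝ)⁻¹)^(K - (c₁ + 3)) = (2:ℝ)^(c₁ + 3) * ((2:ℝ)⁻¹)^K := by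
      have hd : (2:ℝ)^(c₁ + 3) * ((2:ℝ)⁻¹)^(c₁ + 3) = 1 := by rw [← mul_pow]; norm_num
      obtain ⟨m, hm⟩ : ∃ m, K = m + (c₁ + 3) := ⟨K - (c₁ + 3), by omega⟩
      rw [hm, Nat.add_sub_cancel, pow_add (2:ℝ)⁻¹ m]
      calc ((2:ℝ)⁻¹)^m = ((2:ℝ)^(c₁ + 3) * ((2:ℝ)⁻¹)^(c₁ + 3)) * ((2:ℝ)⁻¹)^m := by
            rw [hd, one_mul]
        _ = (2:ℝ)^(c₁ + 3) * (((2:ℝ)⁻¹)^m * ((2:ℝ)⁻¹)^(c₁ + 3)) := by ring
    rw [h1]
    refine hlt.le.trans ?_
    refine Finset.sum_le_sum_of_subset_of_nonneg ?_ (fun _ _ _ => by positivity)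
    intro p hp
    exact List.mem_toFinset.2 (hM p hp)
  have := hK n _ htok
  omega

end Pool.Agent.H.MP_95c08c_lc
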