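import Mathlib
import Pool.Agent.H.MP_95c08c_lc.Construction
import Pool.Agent.H.MP_95c08c_lc.Counting
import Pool.Agent.H.MP_95c08c_lc.CEKTrivial

/-!
Application of the construction to the K-trivial sets and to uniformly `Δ⁰₂` sequences.
-/

set_option linter.all false

namespace Pool.Agent.H.MP_95c08c_lc

/-- The level sets attacked in the construction: for even indices the strings of small
complexity, for odd indices the initial segments of the members of the given sequence. -/
def Lev (V : Machine) (Z : ℕ → ℕ → Bool) (z : ℕ × List Bool) : Prop :=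
  (z.1 % 2 = 0 ∧ complexity V z.2 ≤ complexity V (natStr z.2.length) + z.1 / 2) ∨
  (z.1 % 2 = 1 ∧ z.2 = pre (Z (z.1 / 2)) z.2.length)

theorem ceIn_not_lev {V : Machine} (hV : Optimal {orc zer} V) {Z : ℕ → ℕ → Bool}
    (hZ : IsDeltaTwo (fun n => Z n.unpair.1 n.unpair.2)) :
    CEIn halt (fun z => ¬ Lev V Z z) := by
  have hVg : CE (fun x : List Bool × List Bool => x.2 ∈ V x.1) :=
    CE.graph (recursiveIn_empty_iff.1 (recursiveIn_zer.1 hV.1))
  -- first kind
  have h1 : CEIn halt (fun z : ℕ × List Bool => z.1 % 2 = 0 ∧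
      ∃ q, natStr z.2.length ∈ V q ∧ ¬ ∃ p, z.2 ∈ V p ∧ p.length ≤ q.length + z.1 / 2) := by
    refine CEIn.and (CEIn.of_primrec ?_) ?_
    · exact Primrec.eq.comp (Primrec.nat_mod.comp Primrec.fst (Primrec.const 2)) (Primrec.const 0)
    · apply CEIn.ex (S := fun y : (ℕ × List Bool) × List Bool => natStr y.1.2.length ∈ V y.2 ∧
        ¬ ∃ p, y.1.2 ∈ V p ∧ p.length ≤ y.2.length + y.1.1 / 2)
      refine CEIn.and ?_ ?_
      · exact (CEIn.of_ce hVg).comp (f := fun y : (ℕ × List Bool) × List Bool =>
          (y.2, natStr y.1.2.length)) (Primrec.snd.pair (primrec_natStr.comp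
            (Primrec.list_length.comp (Primrec.snd.comp Primrec.fst))))
      · apply CE.compl_halt
        apply CE.exists (R := fun v : ((ℕ × List Bool) × List Bool) × List Bool =>
          v.1.1.2 ∈ V v.2 ∧ v.2.length ≤ v.1.2.length + v.1.1.1 / 2)
        refine CE.and ?_ (CE.of_primrec ?_)
        · exact hVg.comp (f := fun v : ((ℕ × List Bool) × List Bool) × List Bool =>
            (v.2, v.1.1.2)) (Primrec.snd.pair (Primrec.snd.comp (Primrec.fst.comp Primrec.fst)))
        · refine Primrec.nat_le.comp (Primrec.list_length.comp Primrec.snd) ?_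
          exact Primrec.nat_add.comp (Primrec.list_length.comp (Primrec.snd.comp Primrec.fst))
            (Primrec.nat_div.comp (Primrec.fst.comp (Primrec.fst.comp Primrec.fst))
              (Primrec.const 2))
  -- second kind
  have hg := CEIn.graph hZ
  have h2 : CEIn halt (fun z : ℕ × List Bool => z.1 % 2 = 1 ∧
      ∃ k : ℕ × ℕ, k.2 ∈ orc (fun n => Z n.unpair.1 n.unpair.2) (Nat.pair (z.1 / 2) k.1) ∧
        ∃ c : Bool, z.2[k.1]? = some c ∧ c.toNat ≠ k.2) := by
    refine CEIn.and (CEIn.of_primrec ?_) ?_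
    · exact Primrec.eq.comp (Primrec.nat_mod.comp Primrec.fst (Primrec.const 2)) (Primrec.const 1)
    · apply CEIn.ex (S := fun y : (ℕ × List Bool) × (ℕ × ℕ) =>
        y.2.2 ∈ orc (fun n => Z n.unpair.1 n.unpair.2) (Nat.pair (y.1.1 / 2) y.2.1) ∧
        ∃ c : Bool, y.1.2[y.2.1]? = some c ∧ c.toNat ≠ y.2.2)
      refine CEIn.and ?_ (CEIn.of_primrec ?_)
      · exact hg.comp (f := fun y : (ℕ × List Bool) × (ℕ × ℕ) =>
          (Nat.pair (y.1.1 / 2) y.2.1, y.2.2)) ((Primrec₂.natPair.comp
            (Primrec.nat_div.comp (Primrec.fst.comp Primrec.fst) (Primrec.const 2))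
            (Primrec.fst.comp Primrec.snd)).pair (Primrec.snd.comp Primrec.snd))
      · refine primrecPred_option (Q := fun v : ((ℕ × List Bool) × (ℕ × ℕ)) × Bool =>
          v.2.toNat ≠ v.1.2.2) (f := fun y : (ℕ × List Bool) × (ℕ × ℕ) => y.1.2[y.2.1]?) ?_ ?_
        · exact (Primrec.eq.comp ((Primrec.dom_bool Bool.toNat).comp Primrec.snd)
            (Primrec.snd.comp (Primrec.snd.comp Primrec.fst))).not
        · exact Primrec.list_getElem?.comp (Primrec.snd.comp Primrec.fst)
            (Primrec.fst.comp Primrec.snd)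
  refine (h1.or h2).of_eq ?_
  rintro ⟨c, σ⟩
  simp only [Lev]
  rcases Nat.mod_two_eq_zero_or_one c with h0 | h0
  · simp only [h0, true_and, zero_ne_one, false_and, or_false, not_le]
    constructor
    · rintro ⟨q, hq, h⟩
      obtain ⟨p, hp, hpl⟩ := complexity_spec (exists_description hV σ)
      have h3 := complexity_le hq
      by_contra h4
      apply h
      exact ⟨p, hp, by omega⟩
    · intro h
      obtain ⟨q, hq, hql⟩ := complexity_spec (exists_description hV (natStr σ.length))
      refine ⟨q, hq, ?_⟩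
      rintro ⟨p, hp, hpl⟩
      have h3 := complexity_le hp
      omega
  · simp only [h0, true_and, one_ne_zero, false_and, false_or]
    constructor
    · rintro ⟨⟨k, y⟩, h1, c', h2, h3⟩ h4
      simp only [orc, Nat.unpair_pair, Part.mem_some_iff] at h1 h2 h3
      rw [h4, pre_getElem?] at h2
      split_ifs at h2 with h5
      rw [Option.some.injEq] at h2
      apply h3
      rw [← h2, h1]
    · intro h
      have : ∃ k : ℕ, σ[k]? ≠ (pre (Z (c / 2)) σ.length)[k]? := by
        by_contra h1
        push Not at h1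
        exact h (List.ext_getElem? h1)
      obtain ⟨k, hk⟩ := this
      rw [pre_getElem?] at hk
      by_cases hk' : k < σ.length
      · rw [if_pos hk', List.getElem?_eq_getElem hk'] at hk
        refine ⟨(k, (Z (c / 2) k).toNat), ?_, σ[k], ?_, ?_⟩
        · simp [orc]
        · simp [hk']
        · simp only
          intro h1
          apply hk
          congr 1
          generalize σ[k] = u at *
          generalize Z (c / 2) k = v at *
          revert h1
          cases u <;> cases v <;> simp
      · exfalso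
        rw [if_neg hk'] at hk
        exact hk (List.getElem?_eq_none (not_lt.1 hk'))

theorem card_lev {V : Machine} {Z : ℕ → ℕ → Bool} {d : ℕ}
    (hd : ∀ n c (F : Finset (List Bool)),
      (∀ σ ∈ F, σ.length = n ∧ complexity V σ ≤ complexity V (natStr n) + c) →
      F.card ≤ 2 ^ (c + d)) (c m : ℕ) (F : Finset (List Bool))
    (hF : ∀ σ ∈ F, Lev V Z (c, σ) ∧ σ.length = m) : F.card ≤ 2 ^ (c / 2 + d) := by
  rcases Nat.mod_two_eq_zero_or_one c with h0 | h0
  · refine hd m (c / 2) F fun σ hσ => ?_
    obtain ⟨h1, rfl⟩ := hF σ hσ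
    simp only [Lev, h0, true_and, zero_ne_one, false_and, or_false] at h1
    exact ⟨rfl, h1⟩
  · have h1 : F ⊆ {pre (Z (c / 2)) m} := by
      intro σ hσ
      obtain ⟨h1, rfl⟩ := hF σ hσ
      simp only [Lev, h0, true_and, one_ne_zero, false_and, false_or] at h1
      rw [Finset.mem_singleton]
      exact h1
    have h2 := Finset.card_le_card h1
    rw [Finset.card_singleton] at h2
    exact h2.trans Nat.one_le_two_pow

/-- One almost complete `Δ⁰₂` set computes no noncomputable K-trivial set and no noncomputable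
member of a given uniformly `Δ⁰₂` sequence. -/
theorem avoid_kTrivial (Z : ℕ → ℕ → Bool) (hZ : IsDeltaTwo (fun n => Z n.unpair.1 n.unpair.2)) :
    ∃ B : ℕ → Bool, IsDeltaTwo B ∧ AlmostComplete B ∧
      (∀ A : ℕ → Bool, KTrivial A → TuringReducible (orc A) (orc B) → Computable A) ∧
      (∀ i, TuringReducible (orc (Z i)) (orc B) → Computable (Z i)) := by
  obtain ⟨U, -, -, hUX⟩ := exists_universal
  obtain ⟨V, hV, -⟩ := hUX zer
  obtain ⟨d, hd⟩ := ktrivial_count hV
  have hw : Primrec (fun c : ℕ => 2 ^ (c / 2 + d)) :=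
    primrec_pow.comp (Primrec.const 2) (Primrec.nat_add.comp
      (Primrec.nat_div.comp Primrec.id (Primrec.const 2)) (Primrec.const d))
  obtain ⟨B, hB1, hB2, hB3⟩ := main_construction (ceIn_not_lev hV hZ) hw (card_lev hd)
  refine ⟨B, hB1, hB2, ?_, ?_⟩
  · intro A hA hAB
    rw [kTrivial_iff_zer] at hA
    obtain ⟨c, hc⟩ := hA.2 V hV
    refine hB3 A (2 * c) (fun m => ?_) hAB
    left
    simp only [pre_length]
    have h1 : 2 * c / 2 = c := by omega
    rw [h1]
    exact ⟨by omega, hc m⟩
  · intro i hi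
    refine hB3 (Z i) (2 * i + 1) (fun m => ?_) hi
    right
    simp only [pre_length]
    have h1 : (2 * i + 1) / 2 = i := by omega
    rw [h1]
    exact ⟨by omega, rfl⟩

theorem isDeltaTwo_zer : IsDeltaTwo zer := by
  have : Partrec (orc zer) := (Computable.const 0).partrec
  exact this.recursiveIn

/-- Q1 has a negative answer. -/
theorem not_below : ∃ A B : ℕ → Bool, KTrivial A ∧ IsDeltaTwo B ∧ AlmostComplete B ∧
    ¬ TuringReducible (orc A) (orc B) := by
  obtain ⟨A, hA, -, hA'⟩ := exists_ce_kTrivial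
  obtain ⟨B, hB1, hB2, hB3, -⟩ := avoid_kTrivial (fun _ _ => false) isDeltaTwo_zer
  exact ⟨A, B, hA, hB1, hB2, fun h => hA' (hB3 A hA h)⟩

end Pool.Agent.H.MP_95c08c_lc
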